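import Pool.Agent.Q11.TF.Stm

/-!
# Jobs CHARGE and TWOLOW of project TF
-/

namespace Pool.Agent.Q56.TF

open Pool.Agent.Q11.TF

theorem charge : S_charge := by
  intro m T h1 h2
  have hA : (T.image (fun t => t.2)).card = T.card := by
    apply Finset.card_image_of_injOn
    intro t ht u hu htu
    have ht' := Finset.mem_coe.1 ht
    have hu' := Finset.mem_coe.1 hu
    simp only at htu
    by_contra hne
    have a1 := h1 t ht'
    have a2 := h1 u hu'
    have a3 := h2 t ht' u hu' hne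
    have a4 := h2 u hu' t ht' (Ne.symm hne)
    omega
  have hB : ((T.filter (fun t => t.2 ≠ t.1 + 1)).image (fun t => t.1 + 1)).card =
      (T.filter (fun t => t.2 ≠ t.1 + 1)).card := by
    apply Finset.card_image_of_injOn
    intro t ht u hu htu
    have ht' := (Finset.mem_filter.1 (Finset.mem_coe.1 ht)).1
    have hu' := (Finset.mem_filter.1 (Finset.mem_coe.1 hu)).1
    simp only at htu
    by_contra hne
    have a1 := h1 t ht'
    have a2 := h1 u hu'
    have a3 := h2 t ht' u hu' hne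
    have a4 := h2 u hu' t ht' (Ne.symm hne)
    omega
  have hdisj : Disjoint (T.image (fun t => t.2))
      ((T.filter (fun t => t.2 ≠ t.1 + 1)).image (fun t => t.1 + 1)) := by
    rw [Finset.disjoint_left]
    intro e he1 he2
    obtain ⟨u, hu, hue⟩ := Finset.mem_image.1 he1
    obtain ⟨t, ht, hte⟩ := Finset.mem_image.1 he2
    obtain ⟨ht1, ht2⟩ := Finset.mem_filter.1 ht
    have hne : u ≠ t := by
      intro h
      rw [h] at hue
      omega
    have a1 := h1 t ht1
    have a2 := h1 u hu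
    have a4 := h2 u hu t ht1 hne
    omega
  have hsub : (T.image (fun t => t.2)) ∪
      ((T.filter (fun t => t.2 ≠ t.1 + 1)).image (fun t => t.1 + 1)) ⊆ Finset.Icc 1 m := by
    intro e he
    rw [Finset.mem_Icc]
    rcases Finset.mem_union.1 he with he | he
    · obtain ⟨u, hu, hue⟩ := Finset.mem_image.1 he
      have a2 := h1 u hu
      omega
    · obtain ⟨t, ht, hte⟩ := Finset.mem_image.1 he
      have a2 := h1 t (Finset.mem_filter.1 ht).1
      omega
  have hc := Finset.card_le_card hsub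
  rw [Finset.card_union_of_disjoint hdisj, hA, hB, Nat.card_Icc] at hc
  have hs := Finset.card_filter_add_card_filter_not (s := T) (fun t => t.2 = t.1 + 1)
  simp only [ne_eq] at hc ⊢
  omega

/-- the members of the strong set for m = 2 -/
def PT (k a b x y : ℕ) : Prop :=
  (b = a + 1 ∧ a < k ∧ x = 2 ∧ y = 2) ∨
  (b = a + 1 ∧ k ≤ a ∧ a < 2 * k ∧ x = 0 ∧ y = 0) ∨
  (a < k ∧ b + a = 2 * k ∧ x = 1 ∧ y = 1) ∨
  (a ≤ k ∧ b + a = 2 * k ∧ x = 0 ∧ y = 2) ∨
  (a + 1 < k ∧ b + a + 1 = 2 * k ∧ x = 1 ∧ y = 2) ∨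
  (1 ≤ a ∧ a < k ∧ b + a = 2 * k + 1 ∧ x = 0 ∧ y = 1) ∨
  (a + 1 = k ∧ b + 1 = k ∧ x = 1 ∧ y = 2) ∨
  (a = k + 1 ∧ b = k + 1 ∧ x = 0 ∧ y = 1)

theorem PT_strong (k : ℕ) (_hk : 1 ≤ k) (a b x y a' b' x' y' : ℕ) (h : PT k a b x y)
    (h' : PT k a' b' x' y') (hne : ¬ (a = a' ∧ b = b' ∧ x = x' ∧ y = y'))
    (hle : a ≤ a' ∧ b ≤ b' ∧ x ≤ x' ∧ y ≤ y') : b ≤ a' ∧ y ≤ x' := by
  unfold PT at h h'
  rcases h with h | h | h | h | h | h | h | h <;>
  rcases h' with h' | h' | h' | h' | h' | h' | h' | h' <;> omega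

/-- numbers of members -/
def bd (k t : ℕ) : ℕ :=
  if t = 3 then k + 1 else if t = 4 then k - 1 else if t = 5 then k - 1 else
    if t = 6 then 1 else if t = 7 then 1 else k

/-- the members -/
def phi (k t c : ℕ) : Q :=
  if t = 0 then (c, c + 1, 2, 2) else if t = 1 then (k + c, k + c + 1, 0, 0)
  else if t = 2 then (c, 2 * k - c, 1, 1) else if t = 3 then (c, 2 * k - c, 0, 2)
  else if t = 4 then (c, 2 * k - c - 1, 1, 2) else if t = 5 then (c + 1, 2 * k - c, 0, 1)
  else if t = 6 then (k - 1, k - 1, 1, 2) else (k + 1, k + 1, 0, 1)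

theorem phi_PT (k t c : ℕ) (hk : 1 ≤ k) (ht : t < 8) (hc : c < bd k t) :
    PT k (phi k t c).1 (phi k t c).2.1 (phi k t c).2.2.1 (phi k t c).2.2.2 := by
  unfold bd at hc
  unfold phi PT
  interval_cases t <;> simp at hc ⊢ <;> omega

theorem phi_inj (k t c t' c' : ℕ) (hk : 1 ≤ k) (ht : t < 8) (hc : c < bd k t) (ht' : t' < 8)
    (hc' : c' < bd k t') (h : phi k t c = phi k t' c') : t = t' ∧ c = c' := by
  unfold bd at hc hc'
  unfold phi at h
  interval_cases t <;> interval_cases t' <;> simp [Prod.mk.injEq] at hc hc' h ⊢ <;> omega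

theorem PT_val (k a b x y : ℕ) (hk : 1 ≤ k) (h : PT k a b x y) : Val (2 * k) 2 (a, b, x, y) := by
  unfold PT at h
  unfold Val
  rcases h with h | h | h | h | h | h | h | h <;> simp only <;> omega

theorem twoLow : S_twoLow := by
  intro k hk
  classical
  refine ⟨((Finset.range 8).sigma (fun t => Finset.range (bd k t))).image
    (fun u => phi k u.1 u.2), ?_, ?_, ?_⟩
  · intro p hp
    obtain ⟨u, hu, rfl⟩ := Finset.mem_image.1 hp
    obtain ⟨h1, h2⟩ := Finset.mem_sigma.1 hu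
    exact PT_val k _ _ _ _ hk (phi_PT k u.1 u.2 hk (Finset.mem_range.1 h1) (Finset.mem_range.1 h2))
  · intro p hp q hq hne hle
    obtain ⟨u, hu, rfl⟩ := Finset.mem_image.1 hp
    obtain ⟨h1, h2⟩ := Finset.mem_sigma.1 hu
    obtain ⟨v, hv, rfl⟩ := Finset.mem_image.1 hq
    obtain ⟨h3, h4⟩ := Finset.mem_sigma.1 hv
    apply PT_strong k hk _ _ _ _ _ _ _ _
      (phi_PT k u.1 u.2 hk (Finset.mem_range.1 h1) (Finset.mem_range.1 h2))
      (phi_PT k v.1 v.2 hk (Finset.mem_range.1 h3) (Finset.mem_range.1 h4)) _ hle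
    intro h
    apply hne
    exact Prod.ext h.1 (Prod.ext h.2.1 (Prod.ext h.2.2.1 h.2.2.2))
  · rw [Finset.card_image_of_injOn, Finset.card_sigma]
    · simp only [Finset.card_range, Finset.sum_range_succ, Finset.sum_range_zero, bd]
      simp
      omega
    · intro u hu v hv huv
      obtain ⟨h1, h2⟩ := Finset.mem_sigma.1 (Finset.mem_coe.1 hu)
      obtain ⟨h3, h4⟩ := Finset.mem_sigma.1 (Finset.mem_coe.1 hv)
      obtain ⟨e1, e2⟩ := phi_inj k u.1 u.2 v.1 v.2 hk (Finset.mem_range.1 h1)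
        (Finset.mem_range.1 h2) (Finset.mem_range.1 h3) (Finset.mem_range.1 h4) huv
      obtain ⟨a, b⟩ := u
      obtain ⟨a', b'⟩ := v
      simp only at e1 e2
      subst e1
      subst e2
      rfl

end Pool.Agent.Q56.TF
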