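import Pool.Agent.Q56.TF.SpecD2

/-!
# The classes of labD are cliques, the other tags
-/

namespace Pool.Agent.Q56.TF

open Pool.Agent.Q11.TF

set_option maxHeartbeats 4000000

theorem pairR1 (k l a b x y u v j i a' b' x' y' j' i' : ℕ) (hk : 3 ≤ k) (hl : 3 ≤ l)
    (ha : a ≤ b) (hb : b ≤ 2 * k) (hx : x ≤ y) (hy : y ≤ 2 * l) (hv : a < b ∨ x < y)
    (ha' : a' ≤ b') (hb' : b' ≤ 2 * k) (hx' : x' ≤ y') (hy' : y' ≤ 2 * l)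
    (hv' : a' < b' ∨ x' < y')
    (hj : j ≤ a ∧ j + b ≤ 2 * k ∧ (j = a ∨ j + b = 2 * k))
    (hi : i ≤ x ∧ i + y ≤ 2 * l ∧ (i = x ∨ i + y = 2 * l))
    (hj' : j' ≤ a' ∧ j' + b' ≤ 2 * k ∧ (j' = a' ∨ j' + b' = 2 * k))
    (hi' : i' ≤ x' ∧ i' + y' ≤ 2 * l ∧ (i' = x' ∨ i' + y' = 2 * l))
    (h1 : R1 k l a b x y u v j i) (h2 : R1 k l a' b' x' y' u v j' i')
    (hne : ¬ (a = a' ∧ b = b' ∧ x = x' ∧ y = y')) : Conf (a, b, x, y) (a', b', x', y') := by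
  simp only [Conf, Le, Ov]
  unfold R1 at h1 h2
  rcases h1 with h1 | h1 | h1 | h1 <;>
  rcases h2 with h2 | h2 | h2 | h2 <;> omega

theorem pairR1' (k l a b x y u v j a' b' x' y' j' : ℕ) (hk : 3 ≤ k) (hl : 3 ≤ l)
    (ha : a ≤ b) (hb : b ≤ 2 * k) (hx : x ≤ y) (hy : y ≤ 2 * l) (hv : a < b ∨ x < y)
    (ha' : a' ≤ b') (hb' : b' ≤ 2 * k) (hx' : x' ≤ y') (hy' : y' ≤ 2 * l)
    (hv' : a' < b' ∨ x' < y')
    (hj : j ≤ a ∧ j + b ≤ 2 * k ∧ (j = a ∨ j + b = 2 * k))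
    (hj' : j' ≤ a' ∧ j' + b' ≤ 2 * k ∧ (j' = a' ∨ j' + b' = 2 * k))
    (h1 : R1' k l a b x y u v j) (h2 : R1' k l a' b' x' y' u v j')
    (hne : ¬ (a = a' ∧ b = b' ∧ x = x' ∧ y = y')) : Conf (a, b, x, y) (a', b', x', y') := by
  simp only [Conf, Le, Ov]
  unfold R1' at h1 h2
  rcases h1 with h1 | h1 <;>
  rcases h2 with h2 | h2 <;> omega

theorem pairR1B (k l e1 e2 a b x y u v j a' b' x' y' w : ℕ) (hk : 3 ≤ k) (hl : 3 ≤ l)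
    (hpar : (min k l) % 2 = 1) (he : k + e2 = l + e1) (h0 : e1 = 0 ∨ e2 = 0)
    (ha : a ≤ b) (hb : b ≤ 2 * k) (hx : x ≤ y) (hy : y ≤ 2 * l) (hv : a < b ∨ x < y)
    (ha' : a' ≤ b') (hb' : b' ≤ 2 * k) (hx' : x' ≤ y') (hy' : y' ≤ 2 * l)
    (hv' : a' < b' ∨ x' < y')
    (hj : j ≤ a ∧ j + b ≤ 2 * k ∧ (j = a ∨ j + b = 2 * k)) (hw : w + 2 = l)
    (h1 : R1' k l a b x y u v j)
    (h2 : labB (2 * k) (2 * l) e1 e2 a' b' x' y' = (1, u, v, w))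
    (hne : ¬ (a = a' ∧ b = b' ∧ x = x' ∧ y = y')) : Conf (a, b, x, y) (a', b', x', y') := by
  simp only [Conf, Le, Ov]
  have h3 := specB1 (2 * k) (2 * l) e1 e2 a' b' x' y' u v w (by omega) h0 ha' hb' hx' hy' hv' h2
  obtain ⟨r, q1, q2, q3⟩ := parD k l e1 e2 hpar he h0 hl hk
  clear h2 hpar hv hv'
  unfold R1' at h1
  rcases h1 with h1 | h1 <;>
  rcases h3 with h | h | h | h | h | h | h | h | h | h | h <;> omega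

theorem pairR2 (k l a b x y u v i a' b' x' y' i' : ℕ) (hk : 3 ≤ k) (hl : 3 ≤ l)
    (ha : a ≤ b) (hb : b ≤ 2 * k) (hx : x ≤ y) (hy : y ≤ 2 * l) (hv : a < b ∨ x < y)
    (ha' : a' ≤ b') (hb' : b' ≤ 2 * k) (hx' : x' ≤ y') (hy' : y' ≤ 2 * l)
    (hv' : a' < b' ∨ x' < y')
    (h1 : R2 k l a b x y u v i) (h2 : R2 k l a' b' x' y' u v i')
    (hne : ¬ (a = a' ∧ b = b' ∧ x = x' ∧ y = y')) : Conf (a, b, x, y) (a', b', x', y') := by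
  simp only [Conf, Le, Ov]
  unfold R2 at h1 h2
  rcases h1 with h1 | h1 | h1 | h1 | h1 <;>
  rcases h2 with h2 | h2 | h2 | h2 | h2 <;> omega

theorem pairR3 (k l a b x y v j a' b' x' y' j' : ℕ) (hk : 3 ≤ k) (hl : 3 ≤ l)
    (ha : a ≤ b) (hb : b ≤ 2 * k) (hx : x ≤ y) (hy : y ≤ 2 * l) (hv : a < b ∨ x < y)
    (ha' : a' ≤ b') (hb' : b' ≤ 2 * k) (hx' : x' ≤ y') (hy' : y' ≤ 2 * l)
    (hv' : a' < b' ∨ x' < y')
    (h1 : R3 k l a b x y v j) (h2 : R3 k l a' b' x' y' v j')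
    (hne : ¬ (a = a' ∧ b = b' ∧ x = x' ∧ y = y')) : Conf (a, b, x, y) (a', b', x', y') := by
  simp only [Conf, Le, Ov]
  unfold R3 at h1 h2
  rcases h1 with h1 | h1 | h1 <;>
  rcases h2 with h2 | h2 | h2 <;> omega

end Pool.Agent.Q56.TF
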