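import Pool.Agent.Q56.TF.SpecD2

/-!
# The classes of labD are cliques, tag 0
-/

namespace Pool.Agent.Q56.TF

open Pool.Agent.Q11.TF

set_option maxHeartbeats 4000000

theorem confI {a b x y a' b' x' y' : ℕ} (h1 : a ≤ a') (h2 : b ≤ b') (h3 : x ≤ x') (h4 : y ≤ y')
    (h5 : a' < b ∨ x' < y) : Conf (a, b, x, y) (a', b', x', y') :=
  Or.inl ⟨⟨h1, h2, h3, h4⟩, h5⟩

theorem confJ {a b x y a' b' x' y' : ℕ} (h1 : a' ≤ a) (h2 : b' ≤ b) (h3 : x' ≤ x) (h4 : y' ≤ y)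
    (h5 : a < b' ∨ x < y') : Conf (a, b, x, y) (a', b', x', y') :=
  Or.inr ⟨⟨h1, h2, h3, h4⟩, h5⟩

theorem pairR0 (k l a b x y v w j i a' b' x' y' j' i' : ℕ) (hk : 3 ≤ k) (hl : 3 ≤ l)
    (ha : a ≤ b) (hb : b ≤ 2 * k) (hx : x ≤ y) (hy : y ≤ 2 * l) (hv : a < b ∨ x < y)
    (ha' : a' ≤ b') (hb' : b' ≤ 2 * k) (hx' : x' ≤ y') (hy' : y' ≤ 2 * l)
    (hv' : a' < b' ∨ x' < y')
    (hj : j ≤ a ∧ j + b ≤ 2 * k ∧ (j = a ∨ j + b = 2 * k))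
    (hi : i ≤ x ∧ i + y ≤ 2 * l ∧ (i = x ∨ i + y = 2 * l))
    (hj' : j' ≤ a' ∧ j' + b' ≤ 2 * k ∧ (j' = a' ∨ j' + b' = 2 * k))
    (hi' : i' ≤ x' ∧ i' + y' ≤ 2 * l ∧ (i' = x' ∨ i' + y' = 2 * l))
    (h1 : R0 k l a b x y v w j i) (h2 : R0 k l a' b' x' y' v w j' i')
    (hne : ¬ (a = a' ∧ b = b' ∧ x = x' ∧ y = y')) : Conf (a, b, x, y) (a', b', x', y') := by
  simp only [Conf, Le, Ov]
  unfold R0 at h1 h2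
  rcases h1 with h1 | h1 | h1 | h1 | h1 | h1 | h1 | h1 | h1 <;>
  rcases h2 with h2 | h2 | h2 | h2 | h2 | h2 | h2 | h2 | h2 <;> omega

end Pool.Agent.Q56.TF
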