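import Pool.Agent.Q56.TF.SpecD2
import Pool.Agent.Q56.TF.CliqueD0

/-!
# The classes of labD are cliques, tag 6
-/

namespace Pool.Agent.Q56.TF

open Pool.Agent.Q11.TF

set_option maxHeartbeats 4000000

theorem chain {k j a b a' b' : ℕ} (h1 : j ≤ a) (h2 : j + b ≤ 2 * k) (h3 : j = a ∨ j + b = 2 * k)
    (h1' : j ≤ a') (h2' : j + b' ≤ 2 * k) (h3' : j = a' ∨ j + b' = 2 * k)
    (h : a + b ≤ a' + b') : a ≤ a' ∧ b ≤ b' := by
  constructor <;> omega

/-- members in the block (4,4), lower half -/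
structure LA (k l a b x y u j i : ℕ) : Prop where
  j2 : j + 2 = k
  i2 : i + 2 = l
  xy : x < y
  s1 : ¬ (x = l + 1 ∧ y = l + 2 ∧ a + 2 = k ∧ b + 1 ≤ k)
  s2 : ¬ (x + 2 = l ∧ y + 1 = l ∧ b = k + 2 ∧ k + 1 ≤ a)
  s3 : a + b + x + y ≤ 2 * k + 2 * l
  s4 : x + y ≤ 2 * l + 2
  s5 : u + 2 * l = x + y + 3

structure LB (k l a b x y u j i : ℕ) : Prop where
  j2 : j + 2 = k
  i2 : i + 2 = l
  xy : x < y
  s1 : ¬ (x = l + 1 ∧ y = l + 2 ∧ a + 2 = k ∧ b + 1 ≤ k)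
  s2 : ¬ (x + 2 = l ∧ y + 1 = l ∧ b = k + 2 ∧ k + 1 ≤ a)
  s3 : 2 * k + 2 * l < a + b + x + y ∨ 2 * l + 2 < x + y
  s5 : u = x + y + 2 - 2 * l

structure LC (k l a b x y u i : ℕ) : Prop where
  s1 : a + 2 = k
  s2 : b + 2 = k
  s3 : i + 3 ≤ l
  s4 : l ≤ y + 1
  s5 : y ≤ l + 2
  s6 : u + l = y + 1

structure LD (k l a b x y u i : ℕ) : Prop where
  s1 : a = k + 2
  s2 : b = k + 2
  s3 : i + 3 ≤ l
  s4 : l ≤ x + 2
  s5 : x ≤ l + 1
  s6 : u + l = x + 4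

structure FF (k a b j : ℕ) : Prop where
  h0 : a ≤ b
  hb : b ≤ 2 * k
  h1 : j ≤ a
  h2 : j + b ≤ 2 * k
  h3 : j = a ∨ j + b = 2 * k

theorem LB.rank {k l a b x y u j i : ℕ} (h : LB k l a b x y u j i) (hj : FF k a b j)
    (hi : FF l x y i) : 2 * k + 2 * l < a + b + x + y ∧ u + 2 * l = x + y + 2 := by
  obtain ⟨j2, i2, xy, s1, s2, s3, s5⟩ := h
  obtain ⟨a0, ab, a1, a2, a3⟩ := hj
  obtain ⟨b0, bb, b1, b2, b3⟩ := hi
  constructor
  · clear s2 s5
    by_contra hc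
    have h6 : 2 * l + 2 < x + y := by omega
    clear s3
    apply s1
    have : x = l + 1 ∧ y = l + 2 := by omega
    refine ⟨this.1, this.2, ?_, ?_⟩ <;> omega
  · clear s1
    by_contra hc
    have h6 : x + y + 2 < 2 * l := by omega
    apply s2
    have : x + 2 = l ∧ y + 1 = l := by omega
    refine ⟨this.1, this.2, ?_, ?_⟩ <;> omega

theorem LA_LA {k l a b x y u j i a' b' x' y' j' i' : ℕ} (h : LA k l a b x y u j i)
    (h' : LA k l a' b' x' y' u j' i') (hj : FF k a b j) (hi : FF l x y i)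
    (hj' : FF k a' b' j') (hi' : FF l x' y' i') : Conf (a, b, x, y) (a', b', x', y') := by
  have ej : j' = j := by have := h.j2; have := h'.j2; omega
  have ei : i' = i := by have := h.i2; have := h'.i2; omega
  subst ej ei
  have e := h.s5
  have e' := h'.s5
  have hs : x + y = x' + y' := by omega
  have c1 := chain hi.h1 hi.h2 hi.h3 hi'.h1 hi'.h2 hi'.h3 hs.le
  have c2 := chain hi'.h1 hi'.h2 hi'.h3 hi.h1 hi.h2 hi.h3 hs.ge
  have hx := h.xy
  rcases le_total (a + b) (a' + b') with h5 | h5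
  · have c3 := chain hj.h1 hj.h2 hj.h3 hj'.h1 hj'.h2 hj'.h3 h5
    exact confI c3.1 c3.2 c1.1 c1.2 (Or.inr (by omega))
  · have c3 := chain hj'.h1 hj'.h2 hj'.h3 hj.h1 hj.h2 hj.h3 h5
    exact confJ c3.1 c3.2 c2.1 c2.2 (Or.inr (by omega))

theorem LB_LB {k l a b x y u j i a' b' x' y' j' i' : ℕ} (h : LB k l a b x y u j i)
    (h' : LB k l a' b' x' y' u j' i') (hj : FF k a b j) (hi : FF l x y i)
    (hj' : FF k a' b' j') (hi' : FF l x' y' i') : Conf (a, b, x, y) (a', b', x', y') := by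
  have ej : j' = j := by have := h.j2; have := h'.j2; omega
  have ei : i' = i := by have := h.i2; have := h'.i2; omega
  have r1 := (h.rank hj hi).2
  have r2 := (h'.rank hj' hi').2
  subst ej ei
  have hs : x + y = x' + y' := by omega
  have c1 := chain hi.h1 hi.h2 hi.h3 hi'.h1 hi'.h2 hi'.h3 hs.le
  have c2 := chain hi'.h1 hi'.h2 hi'.h3 hi.h1 hi.h2 hi.h3 hs.ge
  have hx := h.xy
  rcases le_total (a + b) (a' + b') with h5 | h5
  · have c3 := chain hj.h1 hj.h2 hj.h3 hj'.h1 hj'.h2 hj'.h3 h5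
    exact confI c3.1 c3.2 c1.1 c1.2 (Or.inr (by omega))
  · have c3 := chain hj'.h1 hj'.h2 hj'.h3 hj.h1 hj.h2 hj.h3 h5
    exact confJ c3.1 c3.2 c2.1 c2.2 (Or.inr (by omega))

theorem LA_LB {k l a b x y u j i a' b' x' y' j' i' : ℕ} (h : LA k l a b x y u j i)
    (h' : LB k l a' b' x' y' u j' i') (hj : FF k a b j) (hi : FF l x y i)
    (hj' : FF k a' b' j') (hi' : FF l x' y' i') : Conf (a, b, x, y) (a', b', x', y') := by
  have ej : j' = j := by have := h.j2; have := h'.j2; omega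
  have ei : i' = i := by have := h.i2; have := h'.i2; omega
  have r1 := h.s5
  have r2 := (h'.rank hj' hi').2
  have r3 := (h'.rank hj' hi').1
  have r4 := h.s3
  subst ej ei
  have c1 := chain hi.h1 hi.h2 hi.h3 hi'.h1 hi'.h2 hi'.h3 (by omega)
  have c3 := chain hj.h1 hj.h2 hj.h3 hj'.h1 hj'.h2 hj'.h3 (by omega)
  have hx := h.xy
  have hx' := h'.xy
  have i2 := h.i2
  have b1 := hi.h1
  have b3 := hi.h3
  have b1' := hi'.h1
  have b3' := hi'.h3
  have b2 := hi.h2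
  have b2' := hi'.h2
  exact confI c3.1 c3.2 c1.1 c1.2 (Or.inr (by omega))

theorem LC_LA {k l a b x y u i a' b' x' y' j' i' : ℕ} (hxy : x ≤ y)
    (h : LC k l a b x y u i)
    (h' : LA k l a' b' x' y' u j' i') (hi : FF l x y i)
    (hj' : FF k a' b' j') (hi' : FF l x' y' i') : Conf (a, b, x, y) (a', b', x', y') := by
  obtain ⟨s1, s2, s3, s4, s5, s6⟩ := h
  obtain ⟨j2, i2, xy, t1, t2, t3, t4, t5⟩ := h'
  obtain ⟨a0, ab, a1, a2, a3⟩ := hj'
  obtain ⟨b0, bb, b1, b2, b3⟩ := hi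
  obtain ⟨c0, cb, c1, c2, c3⟩ := hi'
  clear t1 t2 t3 a3
  refine confI (by omega) (by omega) (by omega) (by omega) (Or.inr (by omega))

theorem LC_LB {k l a b x y u i a' b' x' y' j' i' : ℕ} (hxy : x ≤ y)
    (h : LC k l a b x y u i)
    (h' : LB k l a' b' x' y' u j' i') (hi : FF l x y i)
    (hj' : FF k a' b' j') (hi' : FF l x' y' i') : Conf (a, b, x, y) (a', b', x', y') := by
  have r := (h'.rank hj' hi').2
  obtain ⟨s1, s2, s3, s4, s5, s6⟩ := h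
  obtain ⟨j2, i2, xy, t1, t2, t3, t5⟩ := h'
  obtain ⟨a0, ab, a1, a2, a3⟩ := hj'
  obtain ⟨b0, bb, b1, b2, b3⟩ := hi
  obtain ⟨c0, cb, c1, c2, c3⟩ := hi'
  clear t1 t2 t3 t5 a3
  refine confI (by omega) (by omega) (by omega) (by omega) (Or.inr (by omega))

theorem LD_LA {k l a b x y u i a' b' x' y' j' i' : ℕ} (hxy : x ≤ y)
    (h : LD k l a b x y u i)
    (h' : LA k l a' b' x' y' u j' i') (hi : FF l x y i)
    (hj' : FF k a' b' j') (hi' : FF l x' y' i') : Conf (a, b, x, y) (a', b', x', y') := by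
  obtain ⟨s1, s2, s3, s4, s5, s6⟩ := h
  obtain ⟨j2, i2, xy, t1, t2, t3, t4, t5⟩ := h'
  obtain ⟨a0, ab, a1, a2, a3⟩ := hj'
  obtain ⟨b0, bb, b1, b2, b3⟩ := hi
  obtain ⟨c0, cb, c1, c2, c3⟩ := hi'
  clear t1 t2 t3 a3
  refine confJ (by omega) (by omega) (by omega) (by omega) (Or.inr (by omega))

theorem LD_LB {k l a b x y u i a' b' x' y' j' i' : ℕ} (hxy : x ≤ y)
    (h : LD k l a b x y u i)
    (h' : LB k l a' b' x' y' u j' i') (hi : FF l x y i)
    (hj' : FF k a' b' j') (hi' : FF l x' y' i') : Conf (a, b, x, y) (a', b', x', y') := by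
  have r := (h'.rank hj' hi').2
  obtain ⟨s1, s2, s3, s4, s5, s6⟩ := h
  obtain ⟨j2, i2, xy, t1, t2, t3, t5⟩ := h'
  obtain ⟨a0, ab, a1, a2, a3⟩ := hj'
  obtain ⟨b0, bb, b1, b2, b3⟩ := hi
  obtain ⟨c0, cb, c1, c2, c3⟩ := hi'
  clear t1 t2 t3 t5 a3
  refine confJ (by omega) (by omega) (by omega) (by omega) (Or.inr (by omega))

theorem LC_LC {k l a b x y u i a' b' x' y' i' : ℕ} (hxy : x ≤ y) (hxy' : x' ≤ y')
    (h : LC k l a b x y u i) (h' : LC k l a' b' x' y' u i') (hi : FF l x y i)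
    (hi' : FF l x' y' i') : Conf (a, b, x, y) (a', b', x', y') := by
  obtain ⟨s1, s2, s3, s4, s5, s6⟩ := h
  obtain ⟨t1, t2, t3, t4, t5, t6⟩ := h'
  obtain ⟨b0, bb, b1, b2, b3⟩ := hi
  obtain ⟨c0, cb, c1, c2, c3⟩ := hi'
  rcases le_total x x' with h5 | h5
  · refine confI (by omega) (by omega) h5 (by omega) (Or.inr (by omega))
  · refine confJ (by omega) (by omega) h5 (by omega) (Or.inr (by omega))

theorem LD_LD {k l a b x y u i a' b' x' y' i' : ℕ} (hxy : x ≤ y) (hxy' : x' ≤ y')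
    (h : LD k l a b x y u i) (h' : LD k l a' b' x' y' u i') (hi : FF l x y i)
    (hi' : FF l x' y' i') : Conf (a, b, x, y) (a', b', x', y') := by
  obtain ⟨s1, s2, s3, s4, s5, s6⟩ := h
  obtain ⟨t1, t2, t3, t4, t5, t6⟩ := h'
  obtain ⟨b0, bb, b1, b2, b3⟩ := hi
  obtain ⟨c0, cb, c1, c2, c3⟩ := hi'
  rcases le_total y y' with h5 | h5
  · refine confI (by omega) (by omega) (by omega) h5 (Or.inr (by omega))
  · refine confJ (by omega) (by omega) (by omega) h5 (Or.inr (by omega))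

theorem LC_LD {k l a b x y u i a' b' x' y' i' : ℕ} (hxy : x ≤ y) (hxy' : x' ≤ y')
    (h : LC k l a b x y u i) (h' : LD k l a' b' x' y' u i') (hi : FF l x y i)
    (hi' : FF l x' y' i') : Conf (a, b, x, y) (a', b', x', y') := by
  obtain ⟨s1, s2, s3, s4, s5, s6⟩ := h
  obtain ⟨t1, t2, t3, t4, t5, t6⟩ := h'
  obtain ⟨b0, bb, b1, b2, b3⟩ := hi
  obtain ⟨c0, cb, c1, c2, c3⟩ := hi'
  refine confI (by omega) (by omega) (by omega) (by omega) (Or.inr (by omega))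

theorem Conf.symm' {p q : Q} (h : Conf p q) : Conf q p := Or.symm h

theorem R6.cases {k l a b x y u j i : ℕ} (h : R6 k l a b x y u j i) :
    LA k l a b x y u j i ∨ LB k l a b x y u j i ∨ LC k l a b x y u i ∨ LD k l a b x y u i := by
  unfold R6 at h
  rcases h with h | h | h | h
  · obtain ⟨h1, h2, h3, h4, h5, h6, h7, h8⟩ := h
    exact Or.inl ⟨h1, h2, h3, h4, h5, h6, h7, h8⟩
  · obtain ⟨h1, h2, h3, h4, h5, h6, h7⟩ := h
    exact Or.inr (Or.inl ⟨h1, h2, h3, h4, h5, h6, h7⟩)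
  · obtain ⟨h1, h2, h3, h4, h5, h6⟩ := h
    exact Or.inr (Or.inr (Or.inl ⟨h1, h2, h3, h4, h5, h6⟩))
  · obtain ⟨h1, h2, h3, h4, h5, h6⟩ := h
    exact Or.inr (Or.inr (Or.inr ⟨h1, h2, h3, h4, h5, h6⟩))

theorem pairR6 (k l a b x y u j i a' b' x' y' j' i' : ℕ)
    (hj : FF k a b j) (hi : FF l x y i) (hj' : FF k a' b' j') (hi' : FF l x' y' i')
    (h1 : R6 k l a b x y u j i) (h2 : R6 k l a' b' x' y' u j' i') :
    Conf (a, b, x, y) (a', b', x', y') := by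
  rcases h1.cases with h | h | h | h <;> rcases h2.cases with h' | h' | h' | h'
  · exact LA_LA h h' hj hi hj' hi'
  · exact LA_LB h h' hj hi hj' hi'
  · exact Conf.symm' (LC_LA hi'.h0 h' h hi' hj hi)
  · exact Conf.symm' (LD_LA hi'.h0 h' h hi' hj hi)
  · exact Conf.symm' (LA_LB h' h hj' hi' hj hi)
  · exact LB_LB h h' hj hi hj' hi'
  · exact Conf.symm' (LC_LB hi'.h0 h' h hi' hj hi)
  · exact Conf.symm' (LD_LB hi'.h0 h' h hi' hj hi)
  · exact LC_LA hi.h0 h h' hi hj' hi'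
  · exact LC_LB hi.h0 h h' hi hj' hi'
  · exact LC_LC hi.h0 hi'.h0 h h' hi hi'
  · exact LC_LD hi.h0 hi'.h0 h h' hi hi'
  · exact LD_LA hi.h0 h h' hi hj' hi'
  · exact LD_LB hi.h0 h h' hi hj' hi'
  · exact Conf.symm' (LC_LD hi'.h0 hi.h0 h' h hi' hi)
  · exact LD_LD hi.h0 hi'.h0 h h' hi hi'

end Pool.Agent.Q56.TF
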