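import Pool.Agent.Q56.TF.CliqueD0
import Pool.Agent.Q56.TF.CliqueD1
import Pool.Agent.Q56.TF.CliqueD6

/-!
# Job CLIQUED of project TF
-/

namespace Pool.Agent.Q56.TF

open Pool.Agent.Q11.TF

set_option maxHeartbeats 4000000

theorem tagD (k l e1 e2 a b x y : ℕ) : (labD k l e1 e2 a b x y).1 ≤ 8 := by
  have hb := tagB (2 * k) (2 * l) e1 e2 a b x y
  rcases casesD k l e1 e2 a b x y _ _ _ rfl rfl rfl with h | h | h | h | h | h | h | h | h
  · rw [← h.2]
    unfold D0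
    split_ifs <;> simp
  · rw [← h.2]
    unfold D1
    split_ifs <;> simp
  · rw [← h.2]
    unfold D2
    split_ifs <;> simp
  · rw [← h.2]
    unfold D3
    split_ifs <;> simp
  · rw [← h.2]
    unfold D4
    split_ifs <;> simp
  · rw [← h.2]
    unfold D5
    split_ifs <;> simp
  · rw [← h.2]
    unfold D6
    split_ifs <;> simp
  · rw [← h.2]
    unfold D7
    split_ifs <;> simp
  · rw [← h.2]
    omega

theorem FF.mk' {k a b j : ℕ} (ha : a ≤ b) (hb : b ≤ 2 * k) (hj : j = min a (2 * k - b)) :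
    FF k a b j := by
  obtain ⟨j1, j2, j3, j4, j5, j6, j7⟩ := jle k a b j ha hb hj
  exact ⟨ha, hb, j1, j2, j4⟩

theorem cliqueD : S_cliqueD := by
  rintro k l e1 e2 hk hl hpar he h0 ⟨a, b, x, y⟩ ⟨a', b', x', y'⟩ hV hV' hl1 h7 h8 hne
  have hne' : ¬ (a = a' ∧ b = b' ∧ x = x' ∧ y = y') := by
    rintro ⟨rfl, rfl, rfl, rfl⟩
    exact hne rfl
  unfold lD at hl1 h7 h8
  simp only at hl1 h7 h8
  have ht := tagD k l e1 e2 a b x y
  obtain ⟨⟨t, u, v, w⟩, hL⟩ : ∃ L : Q, L = labD k l e1 e2 a b x y := ⟨_, rfl⟩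
  rw [← hL] at ht h7 h8
  simp only at ht h7 h8
  have h1 := hL.symm
  have h2 := hl1.symm.trans h1
  have hVV := hV
  have hVV' := hV'
  obtain ⟨ha, hb, hx, hy, hv⟩ := hV
  obtain ⟨ha', hb', hx', hy', hv'⟩ := hV'
  simp only at ha hb hx hy hv ha' hb' hx' hy' hv'
  obtain ⟨j, hj⟩ : ∃ j, j = min a (2 * k - b) := ⟨_, rfl⟩
  obtain ⟨i, hi⟩ : ∃ i, i = min x (2 * l - y) := ⟨_, rfl⟩
  obtain ⟨j', hj'⟩ : ∃ j, j = min a' (2 * k - b') := ⟨_, rfl⟩
  obtain ⟨i', hi'⟩ : ∃ i, i = min x' (2 * l - y') := ⟨_, rfl⟩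
  have fj := FF.mk' ha hb hj
  have fi := FF.mk' hx hy hi
  have fj' := FF.mk' ha' hb' hj'
  have fi' := FF.mk' hx' hy' hi'
  have hBB : labB (2 * k) (2 * l) e1 e2 a b x y = (t, u, v, w) →
      labB (2 * k) (2 * l) e1 e2 a' b' x' y' = (t, u, v, w) →
      Conf (a, b, x, y) (a', b', x', y') := by
    intro q1 q2
    exact pairB (2 * k) (2 * l) e1 e2 (by omega) h0 a b x y a' b' x' y' hVV hVV'
      (q1.trans q2.symm) hne'
  clear hl1 hL hne
  interval_cases t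
  · rcases specD0 k l e1 e2 a b x y u v w j i hk hl he h0 ha hb hx hy hv hj hi h1 with h | h <;>
    rcases specD0 k l e1 e2 a' b' x' y' u v w j' i' hk hl he h0 ha' hb' hx' hy' hv' hj' hi' h2
      with h' | h'
    · exact pairR0 k l a b x y v w j i a' b' x' y' j' i' hk hl ha hb hx hy hv ha' hb' hx' hy' hv'
        ⟨fj.h1, fj.h2, fj.h3⟩ ⟨fi.h1, fi.h2, fi.h3⟩ ⟨fj'.h1, fj'.h2, fj'.h3⟩
        ⟨fi'.h1, fi'.h2, fi'.h3⟩ h.2 h'.2 hne'
    · exfalso
      have q1 := h.1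
      have q2 := h'.1
      omega
    · exfalso
      have q1 := h.1
      have q2 := h'.1
      omega
    · exact hBB h.2 h'.2
  · rcases specD1 k l e1 e2 a b x y u v w j i hk hl hpar he h0 ha hb hx hy hv hj hi h1 with
      h | h | h <;>
    rcases specD1 k l e1 e2 a' b' x' y' u v w j' i' hk hl hpar he h0 ha' hb' hx' hy' hv' hj' hi' h2
      with h' | h' | h'
    · exact pairR1 k l a b x y u v j i a' b' x' y' j' i' hk hl ha hb hx hy hv ha' hb' hx' hy' hv'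
        ⟨fj.h1, fj.h2, fj.h3⟩ ⟨fi.h1, fi.h2, fi.h3⟩ ⟨fj'.h1, fj'.h2, fj'.h3⟩
        ⟨fi'.h1, fi'.h2, fi'.h3⟩ h.2 h'.2 hne'
    · exfalso
      have q1 := h.1
      have q2 := h'.1
      omega
    · exfalso
      have q1 := h.1
      have q2 := h'.1
      omega
    · exfalso
      have q1 := h.1
      have q2 := h'.1
      omega
    · exact pairR1' k l a b x y u v j a' b' x' y' j' hk hl ha hb hx hy hv ha' hb' hx' hy' hv'
        ⟨fj.h1, fj.h2, fj.h3⟩ ⟨fj'.h1, fj'.h2, fj'.h3⟩ h.2 h'.2 hne'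
    · exact pairR1B k l e1 e2 a b x y u v j a' b' x' y' w hk hl hpar he h0 ha hb hx hy hv
        ha' hb' hx' hy' hv' ⟨fj.h1, fj.h2, fj.h3⟩ h.1 h.2 h'.2 hne'
    · exfalso
      have q1 := h.1
      have q2 := h'.1
      omega
    · exact Conf.symm' (pairR1B k l e1 e2 a' b' x' y' u v j' a b x y w hk hl hpar he h0
        ha' hb' hx' hy' hv' ha hb hx hy hv ⟨fj'.h1, fj'.h2, fj'.h3⟩ h'.1 h'.2 h.2
        (fun q => hne' ⟨q.1.symm, q.2.1.symm, q.2.2.1.symm, q.2.2.2.symm⟩))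
    · exact hBB h.2 h'.2
  · rcases specD2 k l e1 e2 a b x y u v w j i hk hl hpar he h0 ha hb hx hy hv hj hi h1 with
      h | h <;>
    rcases specD2 k l e1 e2 a' b' x' y' u v w j' i' hk hl hpar he h0 ha' hb' hx' hy' hv' hj' hi' h2
      with h' | h'
    · exact pairR2 k l a b x y u v i a' b' x' y' i' hk hl ha hb hx hy hv ha' hb' hx' hy' hv'
        h.2 h'.2 hne'
    · exfalso
      have q1 := h.1
      have q2 := h'.1
      omega
    · exfalso
      have q1 := h.1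
      have q2 := h'.1
      omega
    · exact hBB h.2 h'.2
  · have h := specD3 k l e1 e2 a b x y u v w j i hk hl hpar he h0 ha hb hx hy hv hj hi h1
    have h' := specD3 k l e1 e2 a' b' x' y' u v w j' i' hk hl hpar he h0 ha' hb' hx' hy' hv'
      hj' hi' h2
    exact pairR3 k l a b x y v j a' b' x' y' j' hk hl ha hb hx hy hv ha' hb' hx' hy' hv' h h' hne'
  · exact hBB (specD45 k l e1 e2 a b x y 4 u v w j i hj hi (Or.inl rfl) h1)
      (specD45 k l e1 e2 a' b' x' y' 4 u v w j' i' hj' hi' (Or.inl rfl) h2)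
  · exact hBB (specD45 k l e1 e2 a b x y 5 u v w j i hj hi (Or.inr rfl) h1)
      (specD45 k l e1 e2 a' b' x' y' 5 u v w j' i' hj' hi' (Or.inr rfl) h2)
  · have h := specD6 k l e1 e2 a b x y u v w j i hk hl ha hb hx hy hj hi h1
    have h' := specD6 k l e1 e2 a' b' x' y' u v w j' i' hk hl ha' hb' hx' hy' hj' hi' h2
    exact pairR6 k l a b x y u j i a' b' x' y' j' i' fj fi fj' fi' h h'
  · exact absurd rfl h7
  · exact absurd rfl h8

end Pool.Agent.Q56.TF
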