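import Pool.Agent.Q11.TF.Stm

/-!
# Jobs COUNTODD and COUNTEVEN of project TF: the number of pairs of a given rank
-/

namespace Pool.Agent.Q56.TF

open Pool.Agent.Q11.TF
open Finset

/-- pairs a <= b <= n with a + b = t -/
def PS (n t : ℕ) : Finset (ℕ × ℕ) :=
  ((range (n + 1)) ×ˢ (range (n + 1))).filter (fun u => u.1 ≤ u.2 ∧ u.1 + u.2 = t)

theorem PS_mem (n t : ℕ) (u : ℕ × ℕ) : u ∈ PS n t ↔ u.1 ≤ u.2 ∧ u.2 ≤ n ∧ u.1 + u.2 = t := by
  unfold PS
  rw [mem_filter, mem_product, mem_range, mem_range]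
  omega

theorem PS_card (n t : ℕ) (ht : t ≤ 2 * n) : (PS n t).card = min t (2 * n - t) / 2 + 1 := by
  have h : PS n t = (Icc (t - n) (t / 2)).image (fun a => (a, t - a)) := by
    ext ⟨a, b⟩
    rw [PS_mem, mem_image]
    simp only [mem_Icc, Prod.mk.injEq]
    constructor
    · intro h
      exact ⟨a, by omega, rfl, by omega⟩
    · rintro ⟨c, h1, h2, h3⟩
      omega
  rw [h, card_image_of_injOn, Nat.card_Icc]
  · omega
  · intro a _ b _ hab
    simp only [Prod.mk.injEq] at hab
    exact hab.1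

theorem PS_zero (n t : ℕ) (ht : 2 * n < t) : (PS n t).card = 0 := by
  rw [card_eq_zero]
  ext u
  rw [PS_mem]
  constructor
  · intro h
    omega
  · intro h
    exact absurd h (notMem_empty _)

theorem Lset_card (n m R : ℕ) (hR : R % 2 = 1) :
    (Lset n m R).card = ∑ s ∈ range (R + 1), (PS m s).card * (PS n (R - s)).card := by
  classical
  have h1 : (Lset n m R).card = ∑ s ∈ range (R + 1),
      ((Lset n m R).filter (fun p => p.2.2.1 + p.2.2.2 = s)).card := by
    apply card_eq_sum_card_fiberwise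
    intro p hp
    unfold Lset at hp
    have hp' := (mem_filter.1 (mem_coe.1 hp)).2
    have h3 := hp'.2
    unfold rk at h3
    rw [mem_coe, mem_range]
    simp only
    omega
  rw [h1]
  apply sum_congr rfl
  intro s hs
  rw [← card_product]
  have hs' := mem_range.1 hs
  symm
  apply card_bij (fun (u : (ℕ × ℕ) × (ℕ × ℕ)) _ => ((u.2.1, u.2.2, u.1.1, u.1.2) : Q))
  · rintro ⟨⟨x, y⟩, ⟨a, b⟩⟩ hu
    rw [mem_product, PS_mem, PS_mem] at hu
    simp only at hu
    unfold Lset Val rk
    simp only [mem_filter, mem_product, mem_range]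
    omega
  · rintro ⟨⟨x, y⟩, ⟨a, b⟩⟩ _ ⟨⟨x', y'⟩, ⟨a', b'⟩⟩ _ h
    simp only [Prod.mk.injEq] at h ⊢
    omega
  · rintro ⟨a, b, x, y⟩ hp
    unfold Lset Val rk at hp
    simp only [mem_filter, mem_product, mem_range] at hp
    refine ⟨((x, y), (a, b)), ?_, rfl⟩
    rw [mem_product, PS_mem, PS_mem]
    simp only
    omega

theorem two_mul_choose_two (m : ℕ) : 2 * (m + 2).choose 2 = (m + 2) * (m + 1) := by
  induction m with
  | zero => decide
  | succ m ih =>
    rw [show m + 1 + 2 = (m + 2) + 1 from rfl, Nat.choose_succ_succ' (m + 2) 1,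
      Nat.choose_one_right, mul_add, ih]
    ring

theorem div_pair (m : ℕ) : 2 * ((m / 2 + 1) * ((m + 1) / 2 + 1)) +
    2 * (((m + 1) / 2 + 1) * ((m + 2) / 2 + 1)) = (m + 3) * (m + 2) := by
  rcases Nat.even_or_odd' m with ⟨u, rfl | rfl⟩
  · rw [show 2 * u / 2 = u by omega, show (2 * u + 1) / 2 = u by omega,
      show (2 * u + 2) / 2 = u + 1 by omega]
    ring
  · rw [show (2 * u + 1) / 2 = u by omega, show (2 * u + 1 + 1) / 2 = u + 1 by omega,
      show (2 * u + 1 + 2) / 2 = u + 1 by omega]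
    ring

/-- the basic sum -/
theorem gsum (m : ℕ) : 2 * ∑ c ∈ range m, (c / 2 + 1) * ((c + 1) / 2 + 1) +
    (m / 2 + 1) * ((m + 1) / 2 + 1) = (m + 3).choose 3 := by
  induction m with
  | zero => decide
  | succ m ih =>
    rw [sum_range_succ, show m + 1 + 3 = (m + 3) + 1 from rfl, Nat.choose_succ_succ' (m + 3) 2,
      ← ih]
    have h1 := two_mul_choose_two (m + 1)
    have h2 := div_pair m
    rw [show m + 1 + 2 = m + 3 from rfl, show m + 1 + 1 = m + 2 from rfl] at h1
    rw [show m + 1 + 1 = m + 2 from rfl]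
    have h3 : (m + 3) * (m + 2) = 2 * (m + 3).choose 2 := h1.symm
    rw [h3] at h2
    generalize (m / 2 + 1) * ((m + 1) / 2 + 1) = A at *
    generalize ((m + 1) / 2 + 1) * ((m + 2) / 2 + 1) = B at *
    omega

theorem jsum (m : ℕ) : 2 * ∑ c ∈ range m, (c / 2 + 1) + (m / 2 + 1) = (m + 2).choose 2 := by
  induction m with
  | zero => decide
  | succ m ih =>
    rw [sum_range_succ, show m + 1 + 2 = (m + 2) + 1 from rfl, Nat.choose_succ_succ' (m + 2) 1,
      Nat.choose_one_right, ← ih]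
    omega

theorem jsum2 (m : ℕ) : ∑ c ∈ range m, (c + 2) + 1 = (m + 2).choose 2 := by
  induction m with
  | zero => decide
  | succ m ih =>
    rw [sum_range_succ, show m + 1 + 2 = (m + 2) + 1 from rfl, Nat.choose_succ_succ' (m + 2) 1,
      Nat.choose_one_right, ← ih]
    omega

theorem fold (m : ℕ) (f : ℕ → ℕ) : ∑ s ∈ range (2 * m + 1), f (min s (2 * m - s)) =
    2 * ∑ c ∈ range m, f c + f m := by
  rw [show 2 * m + 1 = m + (m + 1) by omega, sum_range_add]
  have h1 : ∑ x ∈ range m, f (min x (2 * m - x)) = ∑ c ∈ range m, f c := by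
    apply sum_congr rfl
    intro x hx
    have := mem_range.1 hx
    congr 1
    omega
  have h2 : ∑ x ∈ range (m + 1), f (min (m + x) (2 * m - (m + x))) =
      ∑ c ∈ range (m + 1), f c := by
    rw [← sum_range_reflect f (m + 1)]
    apply sum_congr rfl
    intro x hx
    have := mem_range.1 hx
    congr 1
    omega
  rw [h1, h2, sum_range_succ]
  ring

theorem countOdd : S_countOdd := by
  intro n m hm hmn hodd
  obtain ⟨j, rfl⟩ : ∃ j, n = m + 1 + 2 * j := ⟨(n - m - 1) / 2, by omega⟩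
  rw [Lset_card _ _ _ hodd]
  have h1 : ∑ s ∈ range (m + 1 + 2 * j + m + 1),
      (PS m s).card * (PS (m + 1 + 2 * j) (m + 1 + 2 * j + m - s)).card =
      ∑ s ∈ range (2 * m + 1),
      (PS m s).card * (PS (m + 1 + 2 * j) (m + 1 + 2 * j + m - s)).card := by
    symm
    apply sum_subset
    · intro s hs
      rw [mem_range] at hs ⊢
      omega
    · intro s _ hs
      rw [mem_range] at hs
      rw [PS_zero m s (by omega), zero_mul]
  rw [h1]
  have h2 : ∑ s ∈ range (2 * m + 1),
      (PS m s).card * (PS (m + 1 + 2 * j) (m + 1 + 2 * j + m - s)).card =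
      ∑ s ∈ range (2 * m + 1),
      (fun c => (c / 2 + 1) * (j + ((c + 1) / 2 + 1))) (min s (2 * m - s)) := by
    apply sum_congr rfl
    intro s hs
    rw [mem_range] at hs
    rw [PS_card m s (by omega), PS_card _ _ (by omega)]
    simp only
    congr 1
    omega
  rw [h2, fold m (fun c => (c / 2 + 1) * (j + ((c + 1) / 2 + 1)))]
  have h3 := gsum m
  have h4 := jsum m
  rw [show (m + 1 + 2 * j - m - 1) / 2 = j by omega, ← h3, ← h4]
  have h5 : ∑ c ∈ range m, (fun c => (c / 2 + 1) * (j + ((c + 1) / 2 + 1))) c =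
      (∑ c ∈ range m, (c / 2 + 1)) * j + ∑ c ∈ range m, (c / 2 + 1) * ((c + 1) / 2 + 1) := by
    rw [sum_mul, ← sum_add_distrib]
    apply sum_congr rfl
    intro c _
    ring
  rw [h5]
  ring

theorem countEven : S_countEven := by
  intro n m hm hmn heven
  obtain ⟨j, rfl⟩ : ∃ j, n = m + 2 * j := ⟨(n - m) / 2, by omega⟩
  rw [Lset_card _ _ _ (by omega)]
  have key : ∑ s ∈ range (m + 2 * j + m - 1 + 1),
      (PS m s).card * (PS (m + 2 * j) (m + 2 * j + m - 1 - s)).card =
      ∑ s ∈ range (2 * m), (PS m s).card * (PS (m + 2 * j) (m + 2 * j + m - 1 - s)).card + j := by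
    rcases Nat.eq_zero_or_pos j with h0 | h0
    · subst h0
      rw [show m + 2 * 0 + m - 1 + 1 = 2 * m by omega, add_zero]
    · have h1 : ∑ s ∈ range (2 * m + 1), (PS m s).card *
          (PS (m + 2 * j) (m + 2 * j + m - 1 - s)).card =
          ∑ s ∈ range (m + 2 * j + m - 1 + 1),
          (PS m s).card * (PS (m + 2 * j) (m + 2 * j + m - 1 - s)).card := by
        apply sum_subset
        · intro s hs
          rw [mem_range] at hs ⊢
          omega
        · intro s _ hs
          rw [mem_range] at hs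
          rw [PS_zero m s (by omega), zero_mul]
      rw [← h1, sum_range_succ, PS_card m (2 * m) (by omega), PS_card (m + 2 * j) _ (by omega)]
      congr 1
      rw [show min (2 * m) (2 * m - 2 * m) / 2 + 1 = 1 by omega, one_mul]
      omega
  rw [key, show 2 * m = m + m by omega, sum_range_add]
  have h1 : ∑ x ∈ range m, (PS m x).card * (PS (m + 2 * j) (m + 2 * j + m - 1 - x)).card =
      ∑ x ∈ range m, (x / 2 + 1) * (j + ((x + 1) / 2 + 1)) := by
    apply sum_congr rfl
    intro s hs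
    rw [mem_range] at hs
    rw [PS_card m s (by omega), PS_card _ _ (by omega)]
    congr 1 <;> omega
  have h2 : ∑ x ∈ range m, (PS m (m + x)).card *
      (PS (m + 2 * j) (m + 2 * j + m - 1 - (m + x))).card =
      ∑ x ∈ range m, ((x + 1) / 2 + 1) * (j + (x / 2 + 1)) := by
    rw [← sum_range_reflect (fun x => ((x + 1) / 2 + 1) * (j + (x / 2 + 1))) m]
    apply sum_congr rfl
    intro s hs
    rw [mem_range] at hs
    rw [PS_card m (m + s) (by omega), PS_card _ _ (by omega)]
    congr 1 <;> omega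
  rw [h1, h2]
  have h3 := gsum m
  have h4 := jsum2 m
  have h5 : ∑ x ∈ range m, (x / 2 + 1) * (j + ((x + 1) / 2 + 1)) +
      ∑ x ∈ range m, ((x + 1) / 2 + 1) * (j + (x / 2 + 1)) =
      (∑ c ∈ range m, (c + 2)) * j + 2 * ∑ c ∈ range m, (c / 2 + 1) * ((c + 1) / 2 + 1) := by
    rw [sum_mul, mul_sum, ← sum_add_distrib, ← sum_add_distrib]
    apply sum_congr rfl
    intro c _
    have : c + 2 = (c / 2 + 1) + ((c + 1) / 2 + 1) := by omega
    rw [this]
    ring
  have h6 : (m + 2) ^ 2 / 4 = (m / 2 + 1) * ((m + 1) / 2 + 1) := by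
    rcases Nat.even_or_odd' m with ⟨u, rfl | rfl⟩
    · rw [show 2 * u / 2 = u by omega, show (2 * u + 1) / 2 = u by omega]
      rw [show (2 * u + 2) ^ 2 = ((u + 1) * (u + 1)) * 4 by ring]
      exact Nat.mul_div_cancel _ (by norm_num)
    · rw [show (2 * u + 1) / 2 = u by omega, show (2 * u + 1 + 1) / 2 = u + 1 by omega]
      rw [show (2 * u + 1 + 2) ^ 2 = ((u + 1) * (u + 1 + 1)) * 4 + 1 by ring]
      omega
  rw [h5, h6, ← h3, ← h4, show (m + 2 * j - m) / 2 = j by omega]
  generalize ∑ c ∈ range m, (c + 2) = X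
  generalize ∑ c ∈ range m, (c / 2 + 1) * ((c + 1) / 2 + 1) = Y
  generalize (m / 2 + 1) * ((m + 1) / 2 + 1) = Z
  have : j * (X + 1) = X * j + j := by ring
  omega

end Pool.Agent.Q56.TF
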