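import Pool.Agent.Q56.TF.SpecD2

/-!
# Members of rank n + m - 1 in the classes of labD that do not come from labB
-/

namespace Pool.Agent.Q56.TF

open Pool.Agent.Q11.TF

set_option maxHeartbeats 400000

theorem evalD2 (k l e1 e2 a b x y : ℕ) (hj : min a (2 * k - b) + 2 = k)
    (hi : min x (2 * l - y) + 2 = l) (hxy : x < y) :
    labD k l e1 e2 a b x y = D2 k l a b x y := by
  rw [labD_eq]
  unfold DD
  rw [if_neg (by omega), if_neg (by omega), if_pos ⟨hj, hi, hxy⟩]

theorem evalD3 (k l e1 e2 a b x y : ℕ) (hj : min a (2 * k - b) + 1 = k)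
    (hi : min x (2 * l - y) + 2 = l) :
    labD k l e1 e2 a b x y = D3 k l a b x y := by
  rw [labD_eq]
  unfold DD
  rw [if_neg (by omega), if_neg (by omega), if_neg (by omega), if_pos ⟨hj, hi⟩]

theorem evalD4 (k l e1 e2 a b x y : ℕ) (hj : min a (2 * k - b) + 1 = k)
    (hi : min x (2 * l - y) + 1 = l) :
    labD k l e1 e2 a b x y = D4 k l a b x y := by
  rw [labD_eq]
  unfold DD
  rw [if_neg (by omega), if_neg (by omega), if_neg (by omega), if_neg (by omega), if_pos ⟨hj, hi⟩]

theorem evalD5 (k l e1 e2 a b x y : ℕ) (hj : min a (2 * k - b) + 1 = k)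
    (hi : min x (2 * l - y) + 3 ≤ l) (hab : a = b) :
    labD k l e1 e2 a b x y = D5 k l a x y := by
  rw [labD_eq]
  unfold DD
  rw [if_neg (by omega), if_neg (by omega), if_neg (by omega), if_neg (by omega),
    if_neg (by omega), if_pos ⟨hab, hj, hi⟩]

theorem evalD6 (k l e1 e2 a b x y : ℕ) (hj : min a (2 * k - b) + 2 = k)
    (hi : min x (2 * l - y) + 3 ≤ l) (hab : a = b) :
    labD k l e1 e2 a b x y = D6 k l a x y := by
  rw [labD_eq]
  unfold DD
  rw [if_neg (by omega), if_neg (by omega), if_neg (by omega), if_neg (by omega),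
    if_neg (by omega), if_neg (by omega), if_pos ⟨hab, hj, hi⟩]

theorem evalD7 (k l e1 e2 a b x y : ℕ) (hj : min a (2 * k - b) + 2 ≤ k)
    (hi : min x (2 * l - y) + 1 = l) (hxy : x = y) :
    labD k l e1 e2 a b x y = D7 k l a b x := by
  rw [labD_eq]
  unfold DD
  rw [if_neg (by omega), if_neg (by omega), if_neg (by omega), if_neg (by omega),
    if_neg (by omega), if_neg (by omega), if_neg (by omega), if_pos ⟨hxy, hi, hj⟩]

/-- the goal -/
def Good (k l e1 e2 : ℕ) (L : Q) : Prop :=
  ∃ q : Q, Val (2 * k) (2 * l) q ∧ rk q + 1 = 2 * k + 2 * l ∧ lD k l e1 e2 q = L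

theorem Good.mk' {k l e1 e2 : ℕ} {L : Q} (a b x y : ℕ) (h1 : a ≤ b) (h2 : b ≤ 2 * k)
    (h3 : x ≤ y) (h4 : y ≤ 2 * l) (h5 : a < b ∨ x < y) (h6 : a + b + x + y + 1 = 2 * k + 2 * l)
    (h7 : labD k l e1 e2 a b x y = L) : Good k l e1 e2 L :=
  ⟨(a, b, x, y), ⟨h1, h2, h3, h4, h5⟩, h6, h7⟩

theorem R0_opts (k l a b x y v w j i : ℕ) (hx : x ≤ y) (hy : y ≤ 2 * l) (hl : 3 ≤ l)
    (i1 : i ≤ x) (i2 : i + y ≤ 2 * l) (i4 : i = x ∨ i + y = 2 * l) (hab : a = b → x < y)
    (h : R0 k l a b x y v w j i) :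
    (v + 2 = l ∧ w + 1 = l) ∨ (v + 2 = l ∧ w = l) ∨ (v + 2 = l ∧ w = l + 1) ∨
    (v + 2 = l ∧ w = l + 2) ∨ (v + 1 = l ∧ w = l + 2) ∨ (v = l ∧ w = l + 2) ∨
    (v = l + 1 ∧ w = l + 2) := by
  unfold R0 at h
  rcases h with h | h | h | h | h | h | h | h | h
  · omega
  · omega
  · omega
  · omega
  · obtain ⟨h1, h2, h3, h4, h5, _⟩ := h
    subst h4 h5
    clear hab h2
    omega
  · obtain ⟨h1, h2, h3, h4, h5⟩ := h
    have := hab (by omega)
    clear hab
    omega
  · obtain ⟨h1, h2, h3, h4, h5⟩ := h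
    have := hab (by omega)
    clear hab
    omega
  · omega
  · omega

theorem cover0 (k l e1 e2 u v w : ℕ) (hk : 3 ≤ k) (hl : 3 ≤ l) (hu : u + 1 = k)
    (h : (v + 2 = l ∧ w + 1 = l) ∨ (v + 2 = l ∧ w = l) ∨ (v + 2 = l ∧ w = l + 1) ∨
    (v + 2 = l ∧ w = l + 2) ∨ (v + 1 = l ∧ w = l + 2) ∨ (v = l ∧ w = l + 2) ∨
    (v = l + 1 ∧ w = l + 2)) : Good k l e1 e2 (0, u, v, w) := by
  have hu' : u = k - 1 := by omega
  subst hu'
  rcases h with h | h | h | h | h | h | h
  · refine Good.mk' (k + 1) (k + 1) v w (by omega) (by omega) (by omega) (by omega) (by omega)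
      (by omega) ?_
    rw [evalD3 _ _ _ _ _ _ _ _ (by omega) (by omega)]
    unfold D3
    rw [if_pos (by omega), if_neg (by omega)]
  · refine Good.mk' k (k + 1) v w (by omega) (by omega) (by omega) (by omega) (by omega)
      (by omega) ?_
    rw [evalD3 _ _ _ _ _ _ _ _ (by omega) (by omega)]
    unfold D3
    rw [if_pos (by omega), if_neg (by omega)]
  · refine Good.mk' (k - 1) (k + 1) v w (by omega) (by omega) (by omega) (by omega) (by omega)
      (by omega) ?_
    rw [evalD3 _ _ _ _ _ _ _ _ (by omega) (by omega)]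
    unfold D3
    rw [if_pos (by omega), if_neg (by omega)]
  · refine Good.mk' (k - 1) k v w (by omega) (by omega) (by omega) (by omega) (by omega)
      (by omega) ?_
    rw [evalD3 _ _ _ _ _ _ _ _ (by omega) (by omega)]
    unfold D3
    rw [if_pos (by omega), if_neg (by omega)]
  · refine Good.mk' (k - 1) (k - 1) v w (by omega) (by omega) (by omega) (by omega) (by omega)
      (by omega) ?_
    rw [evalD3 _ _ _ _ _ _ _ _ (by omega) (by omega)]
    unfold D3
    rw [if_pos (by omega), if_neg (by omega)]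
  · refine Good.mk' (k - 1) (k - 1) l (l + 1) (by omega) (by omega) (by omega) (by omega)
      (by omega) (by omega) ?_
    rw [evalD4 _ _ _ _ _ _ _ _ (by omega) (by omega)]
    unfold D4
    rw [if_neg (by omega), if_pos (by omega)]
    simp only [Prod.mk.injEq, true_and]
    omega
  · refine Good.mk' (k - 2) (k - 2) v w (by omega) (by omega) (by omega) (by omega) (by omega)
      (by omega) ?_
    rw [evalD2 _ _ _ _ _ _ _ _ (by omega) (by omega) (by omega)]
    unfold D2
    rw [if_pos (by omega)]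
    simp only [Prod.mk.injEq, true_and]
    omega

theorem R1_opts (k l a b x y u v j i : ℕ) (ha : a ≤ b) (hb : b ≤ 2 * k) (hk : 3 ≤ k)
    (j1 : j ≤ a) (j2 : j + b ≤ 2 * k) (j4 : j = a ∨ j + b = 2 * k) (hab : x = y → a < b)
    (h : R1 k l a b x y u v j i) :
    (u + 1 = k ∧ v = k) ∨ (u + 1 = k ∧ v = k + 1) ∨ (u = k ∧ v = k + 1) := by
  unfold R1 at h
  rcases h with h | h | h | h
  · omega
  · clear hab
    omega
  · omega
  · omega

theorem cover1 (k l e1 e2 u v w : ℕ) (hk : 3 ≤ k) (hl : 3 ≤ l) (hw : w + 1 = l)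
    (h : (u + 1 = k ∧ v = k) ∨ (u + 1 = k ∧ v = k + 1) ∨ (u = k ∧ v = k + 1)) :
    Good k l e1 e2 (1, u, v, w) := by
  have hw' : w = l - 1 := by omega
  subst hw'
  rcases h with h | h | h
  · refine Good.mk' u v (l - 1) (l + 1) (by omega) (by omega) (by omega) (by omega) (by omega)
      (by omega) ?_
    rw [evalD4 _ _ _ _ _ _ _ _ (by omega) (by omega)]
    unfold D4
    rw [if_pos (by omega)]
  · refine Good.mk' u v (l - 1) l (by omega) (by omega) (by omega) (by omega) (by omega)
      (by omega) ?_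
    rw [evalD4 _ _ _ _ _ _ _ _ (by omega) (by omega)]
    unfold D4
    rw [if_pos (by omega)]
  · refine Good.mk' u v (l - 1) (l - 1) (by omega) (by omega) (by omega) (by omega) (by omega)
      (by omega) ?_
    rw [evalD4 _ _ _ _ _ _ _ _ (by omega) (by omega)]
    unfold D4
    rw [if_pos (by omega)]

theorem R2_opts (k l a b x y u v i : ℕ) (hx : x ≤ y) (hy : y ≤ 2 * l) (hab : a = b → x < y)
    (h : R2 k l a b x y u v i) :
    (u + 1 = k ∨ u + 2 = k) ∧ 1 ≤ v ∧ v ≤ 2 * l ∧ (v + 2 ≤ l ∨ l + 3 ≤ v) := by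
  unfold R2 at h
  rcases h with h | h | h | h | h
  · have := hab (by omega)
    refine ⟨Or.inl h.2.2.2.2.1, by omega, by omega, by omega⟩
  · have := hab (by omega)
    refine ⟨Or.inl h.2.2.2.2.1, by omega, by omega, by omega⟩
  · have := hab (by omega)
    refine ⟨Or.inl h.2.2.2.2.1, by omega, by omega, by omega⟩
  · have := hab (by omega)
    refine ⟨Or.inr h.2.2.2.2.1, by omega, by omega, by omega⟩
  · have := hab (by omega)
    refine ⟨Or.inr h.2.2.2.2.1, by omega, by omega, by omega⟩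

theorem cover2 (k l e1 e2 u v : ℕ) (hk : 3 ≤ k) (hl : 3 ≤ l) (hu : u + 1 = k ∨ u + 2 = k)
    (h1 : 1 ≤ v) (h2 : v ≤ 2 * l) (h3 : v + 2 ≤ l ∨ l + 3 ≤ v) :
    Good k l e1 e2 (2, u, v, 0) := by
  rcases hu with hu | hu <;> rcases h3 with h3 | h3
  · have hu' : u = k - 1 := by omega
    subst hu'
    refine Good.mk' (k + 1) (k + 1) (v - 1) (2 * l - 2 - v) (by omega) (by omega) (by omega)
      (by omega) (by omega) (by omega) ?_
    rw [evalD5 _ _ _ _ _ _ _ _ (by omega) (by omega) rfl]
    unfold D5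
    rw [if_neg (by omega), if_pos (by omega)]
    simp only [Prod.mk.injEq, true_and, and_true]
    omega
  · have hu' : u = k - 1 := by omega
    subst hu'
    refine Good.mk' (k - 1) (k - 1) (2 * l + 1 - v) v (by omega) (by omega) (by omega)
      (by omega) (by omega) (by omega) ?_
    rw [evalD5 _ _ _ _ _ _ _ _ (by omega) (by omega) rfl]
    unfold D5
    rw [if_pos (by omega), if_pos (by omega)]
  · have hu' : u = k - 2 := by omega
    subst hu'
    refine Good.mk' (k + 2) (k + 2) (v - 1) (2 * l - 4 - v) (by omega) (by omega) (by omega)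
      (by omega) (by omega) (by omega) ?_
    rw [evalD6 _ _ _ _ _ _ _ _ (by omega) (by omega) rfl]
    unfold D6
    rw [if_neg (by omega), if_pos (by omega)]
    simp only [Prod.mk.injEq, true_and, and_true]
    omega
  · have hu' : u = k - 2 := by omega
    subst hu'
    refine Good.mk' (k - 2) (k - 2) (2 * l + 3 - v) v (by omega) (by omega) (by omega)
      (by omega) (by omega) (by omega) ?_
    rw [evalD6 _ _ _ _ _ _ _ _ (by omega) (by omega) rfl]
    unfold D6
    rw [if_pos (by omega), if_pos (by omega)]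

theorem R3_opts (k l a b x y v j : ℕ) (ha : a ≤ b) (hb : b ≤ 2 * k) (hab : x = y → a < b)
    (h : R3 k l a b x y v j) : 1 ≤ v ∧ v ≤ 2 * k ∧ (v + 1 ≤ k ∨ k + 2 ≤ v) := by
  unfold R3 at h
  rcases h with h | h | h
  · have := hab (by omega)
    clear hab
    refine ⟨by omega, by omega, by omega⟩
  · have := hab (by omega)
    clear hab
    refine ⟨by omega, by omega, by omega⟩
  · have := hab (by omega)
    clear hab
    refine ⟨by omega, by omega, by omega⟩

theorem cover3 (k l e1 e2 v : ℕ) (hk : 3 ≤ k) (hl : 3 ≤ l)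
    (h1 : 1 ≤ v) (h2 : v ≤ 2 * k) (h3 : v + 1 ≤ k ∨ k + 2 ≤ v) :
    Good k l e1 e2 (3, l - 1, v, 0) := by
  rcases h3 with h3 | h3
  · refine Good.mk' (v - 1) (2 * k - 2 - v) (l + 1) (l + 1) (by omega) (by omega) (by omega)
      (by omega) (by omega) (by omega) ?_
    rw [evalD7 _ _ _ _ _ _ _ _ (by omega) (by omega) rfl]
    unfold D7
    rw [if_neg (by omega), if_pos (by omega)]
    simp only [Prod.mk.injEq, true_and, and_true]
    omega
  · refine Good.mk' (2 * k + 1 - v) v (l - 1) (l - 1) (by omega) (by omega) (by omega)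
      (by omega) (by omega) (by omega) ?_
    rw [evalD7 _ _ _ _ _ _ _ _ (by omega) (by omega) rfl]
    unfold D7
    rw [if_pos (by omega), if_pos (by omega)]

theorem R6_opts (k l a b x y u j i : ℕ) (hx : x ≤ y) (hy : y ≤ 2 * l) (hl : 3 ≤ l)
    (i1 : i ≤ x) (i2 : i + y ≤ 2 * l) (i4 : i = x ∨ i + y = 2 * l)
    (h : R6 k l a b x y u j i) : u ≤ 5 := by
  unfold R6 at h
  rcases h with h | h | h | h
  · obtain ⟨_, _, _, _, _, _, h1, h2⟩ := h
    omega
  · obtain ⟨_, h0, h3, _, _, _, h2⟩ := h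
    omega
  · omega
  · omega

theorem cover6 (k l e1 e2 u : ℕ) (hk : 3 ≤ k) (hl : 3 ≤ l) (hu : u ≤ 5) :
    Good k l e1 e2 (6, u, 0, 0) := by
  interval_cases u
  · refine Good.mk' k (k + 2) (l - 2) (l - 1) (by omega) (by omega) (by omega)
      (by omega) (by omega) (by omega) ?_
    rw [evalD2 _ _ _ _ _ _ _ _ (by omega) (by omega) (by omega)]
    unfold D2
    rw [if_neg (by omega), if_neg (by omega), if_pos (by omega)]
    simp only [Prod.mk.injEq, true_and, and_true]
    omega
  · refine Good.mk' (k - 1) (k + 2) (l - 2) l (by omega) (by omega) (by omega)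
      (by omega) (by omega) (by omega) ?_
    rw [evalD2 _ _ _ _ _ _ _ _ (by omega) (by omega) (by omega)]
    unfold D2
    rw [if_neg (by omega), if_neg (by omega), if_pos (by omega)]
    simp only [Prod.mk.injEq, true_and, and_true]
    omega
  · refine Good.mk' (k - 2) (k + 2) (l - 2) (l + 1) (by omega) (by omega) (by omega)
      (by omega) (by omega) (by omega) ?_
    rw [evalD2 _ _ _ _ _ _ _ _ (by omega) (by omega) (by omega)]
    unfold D2
    rw [if_neg (by omega), if_neg (by omega), if_pos (by omega)]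
    simp only [Prod.mk.injEq, true_and, and_true]
    omega
  · refine Good.mk' (k - 2) (k + 1) (l - 2) (l + 2) (by omega) (by omega) (by omega)
      (by omega) (by omega) (by omega) ?_
    rw [evalD2 _ _ _ _ _ _ _ _ (by omega) (by omega) (by omega)]
    unfold D2
    rw [if_neg (by omega), if_neg (by omega), if_pos (by omega)]
    simp only [Prod.mk.injEq, true_and, and_true]
    omega
  · refine Good.mk' (k - 2) k (l - 1) (l + 2) (by omega) (by omega) (by omega)
      (by omega) (by omega) (by omega) ?_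
    rw [evalD2 _ _ _ _ _ _ _ _ (by omega) (by omega) (by omega)]
    unfold D2
    rw [if_neg (by omega), if_neg (by omega), if_pos (by omega)]
    simp only [Prod.mk.injEq, true_and, and_true]
    omega
  · refine Good.mk' (k - 2) (k - 1) l (l + 2) (by omega) (by omega) (by omega)
      (by omega) (by omega) (by omega) ?_
    rw [evalD2 _ _ _ _ _ _ _ _ (by omega) (by omega) (by omega)]
    unfold D2
    rw [if_neg (by omega), if_neg (by omega), if_pos (by omega)]
    simp only [Prod.mk.injEq, true_and, and_true]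
    omega

end Pool.Agent.Q56.TF
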