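import Pool.Agent.Q56.TF.CoverD2
import Pool.Agent.Q56.TF.CoverD3

/-!
# Job COVERD of project TF
-/

namespace Pool.Agent.Q56.TF

open Pool.Agent.Q11.TF

set_option maxHeartbeats 400000

/-- columns with w = l - 2 that are reached from the block (2,4) -/
theorem cover1' (k l e1 e2 u v w : ℕ) (hk : 3 ≤ k) (hl : 3 ≤ l) (hpar : (min k l) % 2 = 1)
    (he : k + e2 = l + e1) (h0 : e1 = 0 ∨ e2 = 0) (hw : w + 2 = l)
    (h : (u + 1 = k ∧ v = k + 3) ∨ (u = k ∧ v = k + 3) ∨ (u + 3 = k ∧ v = k) ∨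
      (u + 3 = k ∧ v = k + 1)) : Good k l e1 e2 (1, u, v, w) := by
  obtain ⟨r, q1, q2, q3⟩ := parD k l e1 e2 hpar he h0 hl hk
  have key : ∀ x y : ℕ, x ≤ y → y ≤ 2 * l → min x (2 * l - y) + 2 = l →
      u + v + x + y + 1 = 2 * k + 2 * l → Good k l e1 e2 (1, u, v, w) := by
    intro x y h1 h2 h3 h4
    have huv : u < v ∧ v ≤ 2 * k ∧ min u (2 * k - v) + 3 = k := by omega
    refine Good.mk' u v x y (by omega) (by omega) h1 h2 (Or.inl huv.1) h4 ?_
    rw [labD_of_rest]
    · rw [labB_eq]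
      obtain ⟨j, hj⟩ : ∃ j, j = min u (2 * k - v) := ⟨_, rfl⟩
      obtain ⟨i, hi⟩ : ∃ i, i = min x (2 * l - y) := ⟨_, rfl⟩
      rw [← hj, ← hi]
      rw [← hj] at huv
      rw [← hi] at h3
      unfold B0
      rw [if_pos (by constructor <;> omega)]
      unfold B1
      rw [if_pos huv.1]
      have : i = w := by omega
      rw [this]
    · have h5 := huv.2.2
      have h6 := huv.1
      clear h4 h h0 he hpar q1 q2 q3 hw huv
      refine ⟨?_, ?_, ?_, ?_, ?_, ?_, ?_, ?_⟩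
      · omega
      · omega
      · omega
      · omega
      · omega
      · omega
      · omega
      · omega
  rcases h with h | h | h | h
  · exact key (l - 2) (l - 1) (by omega) (by omega) (by omega) (by omega)
  · exact key (l - 2) (l - 2) (by omega) (by omega) (by omega) (by omega)
  · exact key l (l + 2) (by omega) (by omega) (by omega) (by omega)
  · exact key (l - 1) (l + 2) (by omega) (by omega) (by omega) (by omega)

/-- rest for the witnesses of the rows and the tag 2 -/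
theorem rest_of_j (k l a b x y : ℕ) (hk : 3 ≤ k) (hl : 3 ≤ l) (hxy : x < y)
    (hj : min a (2 * k - b) + 2 ≤ k)
    (h2 : min a (2 * k - b) + 2 = k → min x (2 * l - y) + 1 = l) :
    Rest k l a b x y (min a (2 * k - b)) (min x (2 * l - y)) := by
  refine ⟨?_, ?_, ?_, ?_, ?_, ?_, ?_, ?_⟩
  · omega
  · clear h2
    omega
  · rintro ⟨h3, h4, _⟩
    have := h2 h3
    omega
  · clear h2
    omega
  · clear h2
    omega
  · clear h2
    omega
  · rintro ⟨_, h3, h4⟩
    have := h2 h3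
    omega
  · omega

/-- rest for the witnesses with a < b and i at most l - 2 -/
theorem rest_of_i (k l a b x y : ℕ) (hab : a < b)
    (hi : min x (2 * l - y) + 2 ≤ l)
    (h2 : min x (2 * l - y) + 2 = l → min a (2 * k - b) + 1 ≠ k ∧
      (min a (2 * k - b) + 2 = k → x = y)) :
    Rest k l a b x y (min a (2 * k - b)) (min x (2 * l - y)) := by
  refine ⟨?_, ?_, ?_, ?_, ?_, ?_, ?_, ?_⟩
  · clear h2
    omega
  · clear h2
    omega
  · rintro ⟨h3, h4, h5⟩
    have := (h2 h4).2 h3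
    omega
  · rintro ⟨h3, h4⟩
    exact (h2 h4).1 h3
  · clear h2
    omega
  · clear h2
    omega
  · clear h2
    omega
  · clear h2
    omega

theorem coverB0 (k l e1 e2 a b x y u v w : ℕ) (hk : 3 ≤ k) (hl : 3 ≤ l)
    (hpar : (min k l) % 2 = 1) (he : k + e2 = l + e1) (h0 : e1 = 0 ∨ e2 = 0)
    (ha : a ≤ b) (hb : b ≤ 2 * k) (hx : x ≤ y) (hy : y ≤ 2 * l) (hv : a < b ∨ x < y)
    (hr : Rest k l a b x y (min a (2 * k - b)) (min x (2 * l - y)))
    (h1 : labB (2 * k) (2 * l) e1 e2 a b x y = (0, u, v, w))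
    (hg : GB0 (2 * k) (2 * l) e1 e2 u v w) : Good k l e1 e2 (0, u, v, w) := by
  have hu := rest0 k l e1 e2 a b x y u v w _ _ hk hl he h0 ha hb hx hy hv rfl rfl hr h1
  have hu2 := rest0' k l e1 e2 a b x y u v w _ _ hk hl hpar he h0 ha hb hx hy hv rfl rfl hr h1
  have hvw := hg.1
  obtain ⟨a', b', h2, h3, h4, h5⟩ := wit0 (2 * k) (2 * l) e1 e2 u v w (by omega) h0 (by omega) hg
  have h2' := h2
  obtain ⟨g1, g2, g3, g4, g5⟩ := h2'
  simp only at g1 g2 g3 g4 g5
  have hj : min a' (2 * k - b') ≤ u := by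
    clear hg hu2 hr h1
    omega
  refine ⟨(a', b', v, w), h2, h3, ?_⟩
  show labD k l e1 e2 a' b' v w = _
  rw [labD_of_rest _ _ _ _ _ _ _ _ (rest_of_j k l a' b' v w hk hl hvw (by omega)
    (fun h => hu2 (by omega)))]
  exact h5

theorem coverB2 (k l e1 e2 a b x y u v w : ℕ) (hk : 3 ≤ k) (hl : 3 ≤ l)
    (hpar : (min k l) % 2 = 1) (he : k + e2 = l + e1) (h0 : e1 = 0 ∨ e2 = 0)
    (ha : a ≤ b) (hb : b ≤ 2 * k) (hx : x ≤ y) (hy : y ≤ 2 * l) (hv : a < b ∨ x < y)
    (hr : Rest k l a b x y (min a (2 * k - b)) (min x (2 * l - y)))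
    (h1 : labB (2 * k) (2 * l) e1 e2 a b x y = (2, u, v, w))
    (hg : GB2 (2 * k) (2 * l) e1 e2 u v w) : Good k l e1 e2 (2, u, v, w) := by
  have hu := rest2 k l e1 e2 a b x y u v w _ _ hk hl hpar he h0 ha hb hx hy hv rfl rfl hr h1
  obtain ⟨a', x', y', h2, h3, h4, h5, h6, h7⟩ :=
    wit2 (2 * k) (2 * l) e1 e2 u v w (by omega) h0 (by omega) hg
  have h2' := h2
  obtain ⟨g1, g2, g3, g4, g5⟩ := h2'
  simp only at g1 g2 g3 g4 g5
  have hj : min a' (2 * k - a') ≤ u := by
    clear hg hr h1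
    omega
  refine ⟨(a', a', x', y'), h2, h3, ?_⟩
  show labD k l e1 e2 a' a' x' y' = _
  rw [labD_of_rest _ _ _ _ _ _ _ _ (rest_of_j k l a' a' x' y' hk hl h5 (by omega)
    (fun h => by omega))]
  exact h7

theorem coverB1 (k l e1 e2 a b x y u v w : ℕ) (hk : 3 ≤ k) (hl : 3 ≤ l)
    (hpar : (min k l) % 2 = 1) (he : k + e2 = l + e1) (h0 : e1 = 0 ∨ e2 = 0)
    (ha : a ≤ b) (hb : b ≤ 2 * k) (hx : x ≤ y) (hy : y ≤ 2 * l) (hv : a < b ∨ x < y)
    (hr : Rest k l a b x y (min a (2 * k - b)) (min x (2 * l - y)))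
    (h1 : labB (2 * k) (2 * l) e1 e2 a b x y = (1, u, v, w))
    (hg : GB1 (2 * k) (2 * l) e1 e2 u v w) : Good k l e1 e2 (1, u, v, w) := by
  have hw := rest1 k l e1 e2 a b x y u v w _ _ hk hl hpar he h0 ha hb hx hy hv rfl rfl hr h1
  have hw2 := rest1'' k l e1 e2 a b x y u v w _ _ hk hl hpar he h0 ha hb hx hy hv rfl rfl hr h1
  obtain ⟨a', b', x', y', h2, h3, h4, h5, h6⟩ :=
    wit1 (2 * k) (2 * l) e1 e2 u v w (by omega) h0 (by omega) hg
  obtain ⟨r, q1, q2, q3⟩ := parD k l e1 e2 hpar he h0 hl hk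
  have h2' := h2
  obtain ⟨g1, g2, g3, g4, g5⟩ := h2'
  simp only at g1 g2 g3 g4 g5
  clear hr h1 hpar
  refine ⟨(a', b', x', y'), h2, h3, ?_⟩
  show labD k l e1 e2 a' b' x' y' = _
  rw [labD_of_rest]
  · exact h6
  · rcases h5 with h | h | h | h | h
    · obtain ⟨rfl, rfl, h⟩ := h
      have hi : min x' (2 * l - y') ≤ w := by
        clear hg hw2
        omega
      refine rest_of_i k l a' b' x' y' h4 (by omega) ?_
      intro h7
      have h8 := hw2 (by omega)
      clear hw2 hg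
      constructor
      · omega
      · omega
    · have hi : min x' (2 * l - y') + 3 ≤ l := by
        clear hg hw2
        omega
      refine rest_of_i k l a' b' x' y' h4 (by omega) ?_
      intro h7
      exfalso
      omega
    · have hi : min x' (2 * l - y') + 3 ≤ l := by
        clear hg hw2
        omega
      refine rest_of_i k l a' b' x' y' h4 (by omega) ?_
      intro h7
      exfalso
      omega
    · obtain ⟨e5, e6, e7, e8, e9⟩ := h
      refine rest_of_i k l a' b' x' y' h4 (by omega) ?_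
      intro h7
      have h8 := hw2 (by omega)
      clear hw2
      simp only [GB1] at hg
      constructor
      · intro h9
        subst e5 e6 e7 e8
        obtain ⟨_, _, _, hg⟩ := hg
        have e10 : x' + 2 = l := by omega
        have e11 : (a' + 1 = k ∨ a' = k) := by omega
        clear g5 h9 h4 h7
        rcases e11 with e11 | e11
        · omega
        · omega
      · intro _
        exact e5
    · have hi : min x' (2 * l - y') + 3 ≤ l := by
        clear hg hw2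
        omega
      refine rest_of_i k l a' b' x' y' h4 (by omega) ?_
      intro h7
      exfalso
      omega

theorem coverB4 (k l e1 e2 a b x y u v w : ℕ) (hk : 3 ≤ k) (hl : 3 ≤ l)
    (hpar : (min k l) % 2 = 1) (he : k + e2 = l + e1) (h0 : e1 = 0 ∨ e2 = 0)
    (ha : a ≤ b) (hb : b ≤ 2 * k) (hx : x ≤ y) (hy : y ≤ 2 * l) (hv : a < b ∨ x < y)
    (hr : Rest k l a b x y (min a (2 * k - b)) (min x (2 * l - y)))
    (h1 : labB (2 * k) (2 * l) e1 e2 a b x y = (4, u, v, w))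
    (hg : GB4 (2 * k) (2 * l) e1 e2 u v w) : Good k l e1 e2 (4, u, v, w) := by
  have hi := rest_i k l e1 e2 a b x y 4 u v w _ _ hk hl hpar he h0 ha hb hx hy rfl rfl hr h1
    (by norm_num)
  have hs := specB4 (2 * k) (2 * l) e1 e2 a b x y u v w (by omega) h0 ha hb hx hy hv h1
  have hu : u + 2 ≤ l := by
    clear hg hr h1
    rcases hs with h | h
    · omega
    · omega
  clear hs h1 hr hi
  obtain ⟨h2, h3, h6⟩ := w4 (2 * k) (2 * l) e1 e2 u v w (by omega) h0 (by omega) hg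
  have h2' := h2
  obtain ⟨g1, g2, g3, g4, g5⟩ := h2'
  simp only at g1 g2 g3 g4 g5
  simp only [GB4] at hg
  obtain ⟨_, _, z1, z2, _⟩ := hg
  refine ⟨(v - 2, 2 * k + 1 + 2 * u - 2 * l - v, 2 * l - u, 2 * l - u), h2, h3, ?_⟩
  show labD k l e1 e2 (v - 2) (2 * k + 1 + 2 * u - 2 * l - v) (2 * l - u) (2 * l - u) = _
  have hvl : v + l ≤ u + k := by omega
  obtain ⟨A, hA⟩ : ∃ A, A = 2 * k + 1 + 2 * u - 2 * l - v := ⟨_, rfl⟩
  have hA2 : A + v + 2 * l = 2 * k + 1 + 2 * u := by omega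
  rw [← hA] at h2 h3 h6 g1 g2 g5 ⊢
  clear hA hpar h0 g1 g2 g3 g4 g5 h3 he z2
  rw [labD_of_rest]
  · exact h6
  · refine rest_of_i k l (v - 2) A (2 * l - u) (2 * l - u) (by omega) (by omega) ?_
    intro h7
    constructor
    · omega
    · intro _
      rfl

theorem coverB5 (k l e1 e2 a b x y u v w : ℕ) (hk : 3 ≤ k) (hl : 3 ≤ l)
    (hpar : (min k l) % 2 = 1) (he : k + e2 = l + e1) (h0 : e1 = 0 ∨ e2 = 0)
    (ha : a ≤ b) (hb : b ≤ 2 * k) (hx : x ≤ y) (hy : y ≤ 2 * l) (hv : a < b ∨ x < y)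
    (hr : Rest k l a b x y (min a (2 * k - b)) (min x (2 * l - y)))
    (h1 : labB (2 * k) (2 * l) e1 e2 a b x y = (5, u, v, w))
    (hg : GB5 (2 * k) (2 * l) e1 e2 u v w) : Good k l e1 e2 (5, u, v, w) := by
  have hi := rest_i k l e1 e2 a b x y 5 u v w _ _ hk hl hpar he h0 ha hb hx hy rfl rfl hr h1
    (by norm_num)
  have hs := specB5 (2 * k) (2 * l) e1 e2 a b x y u v w (by omega) h0 ha hb hx hy hv h1
  have hu : u + 2 ≤ l := by
    clear hg hr h1
    rcases hs with h | h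
    · omega
    · omega
  clear hs h1 hr hi
  obtain ⟨h2, h3, h6⟩ := w5 (2 * k) (2 * l) e1 e2 u v w (by omega) h0 (by omega) hg
  have h2' := h2
  obtain ⟨g1, g2, g3, g4, g5⟩ := h2'
  simp only at g1 g2 g3 g4 g5
  simp only [GB5] at hg
  obtain ⟨_, _, z1, z2, _⟩ := hg
  refine ⟨(2 * k + 2 * l - 2 - v - 2 * u, v + 1, u, u), h2, h3, ?_⟩
  show labD k l e1 e2 (2 * k + 2 * l - 2 - v - 2 * u) (v + 1) u u = _
  have hvl : k + l < v + u := by omega
  obtain ⟨A, hA⟩ : ∃ A, A = 2 * k + 2 * l - 2 - v - 2 * u := ⟨_, rfl⟩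
  have hA2 : A + v + 2 * u + 2 = 2 * k + 2 * l := by omega
  rw [← hA] at h2 h3 h6 g1 g5 ⊢
  clear hA hpar h0 g1 g3 g4 g5 h3 he z2
  rw [labD_of_rest]
  · exact h6
  · refine rest_of_i k l A (v + 1) u u (by omega) (by omega) ?_
    intro h7
    constructor
    · omega
    · intro _
      rfl

set_option maxHeartbeats 4000000 in
theorem coverD : S_coverD := by
  rintro k l e1 e2 hk hl hpar he h0 ⟨a, b, x, y⟩ hV h7 h8
  unfold lD at h7 h8
  simp only at h7 h8
  show Good k l e1 e2 (labD k l e1 e2 a b x y)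
  have hVV := hV
  obtain ⟨ha, hb, hx, hy, hv⟩ := hV
  simp only at ha hb hx hy hv
  rcases casesD k l e1 e2 a b x y _ _ _ rfl rfl rfl with h | h | h | h | h | h | h | h | h
  · obtain ⟨h1, h2⟩ := h
    rw [← h2] at h7 h8 ⊢
    clear h2
    unfold D0 at h7 h8 ⊢
    split_ifs at h7 h8 ⊢ with c
    · exact cover3 k l e1 e2 b hk hl (by omega) hb (by omega)
    · exact absurd rfl h8
  · obtain ⟨h1, h2⟩ := h
    rw [← h2] at h7 h8 ⊢
    clear h2
    unfold D1 at h7 h8 ⊢
    split_ifs at h7 h8 ⊢ with c1 c2 c3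
    · exact cover2 k l e1 e2 _ y hk hl (by omega) (by omega) hy (by omega)
    · exact cover0 k l e1 e2 _ _ _ hk hl (by omega) (by omega)
    · exact cover0 k l e1 e2 _ _ _ hk hl (by omega) (by omega)
    · exact absurd rfl h7
  · obtain ⟨h1, h2⟩ := h
    rw [← h2]
    clear h2 h7 h8
    unfold D2
    split_ifs with c1 c2 c3
    · exact cover0 k l e1 e2 _ _ _ hk hl (by omega) (by omega)
    · exact cover0 k l e1 e2 _ _ _ hk hl (by omega) (by omega)
    · exact cover6 k l e1 e2 _ hk hl (by omega)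
    · refine cover6 k l e1 e2 _ hk hl ?_
      clear c1 c2 c3
      omega
  · obtain ⟨h1, h2⟩ := h
    rw [← h2]
    clear h2 h7 h8
    unfold D3
    split_ifs with c1 c2 c3
    · exact cover1 k l e1 e2 _ _ _ hk hl (by omega) (by omega)
    · refine cover0 k l e1 e2 _ _ _ hk hl (by omega) ?_
      clear c2
      omega
    · exact cover1' k l e1 e2 _ _ _ hk hl hpar he h0 (by omega) (by omega)
    · exact cover1' k l e1 e2 _ _ _ hk hl hpar he h0 (by omega) (by omega)
  · obtain ⟨h1, h2⟩ := h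
    rw [← h2]
    clear h2 h7 h8
    unfold D4
    split_ifs with c1 c2
    · exact cover1 k l e1 e2 _ _ _ hk hl (by omega) (by omega)
    · exact cover0 k l e1 e2 _ _ _ hk hl (by omega) (by omega)
    · exact cover0 k l e1 e2 _ _ _ hk hl (by omega) (by omega)
  · obtain ⟨h1, h2⟩ := h
    rw [← h2]
    clear h2 h7 h8
    unfold D5
    split_ifs with c1 c2 c2
    · exact cover2 k l e1 e2 _ _ hk hl (by omega) (by omega) (by omega) (by omega)
    · exact cover0 k l e1 e2 _ _ _ hk hl (by omega) (by omega)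
    · exact cover2 k l e1 e2 _ _ hk hl (by omega) (by omega) (by omega) (by omega)
    · exact cover0 k l e1 e2 _ _ _ hk hl (by omega) (by omega)
  · obtain ⟨h1, h2⟩ := h
    rw [← h2]
    clear h2 h7 h8
    unfold D6
    split_ifs with c1 c2 c2
    · exact cover2 k l e1 e2 _ _ hk hl (by omega) (by omega) (by omega) (by omega)
    · exact cover6 k l e1 e2 _ hk hl (by omega)
    · exact cover2 k l e1 e2 _ _ hk hl (by omega) (by omega) (by omega) (by omega)
    · exact cover6 k l e1 e2 _ hk hl (by omega)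
  · obtain ⟨h1, h2⟩ := h
    rw [← h2]
    clear h2 h7 h8
    unfold D7
    split_ifs with c1 c2 c2
    · exact cover3 k l e1 e2 _ hk hl (by omega) (by omega) (by omega)
    · exact cover1 k l e1 e2 _ _ _ hk hl (by omega) (by omega)
    · exact cover3 k l e1 e2 _ hk hl (by omega) (by omega) (by omega)
    · exact cover1 k l e1 e2 _ _ _ hk hl (by omega) (by omega)
  · obtain ⟨hr, h2⟩ := h
    rw [← h2]
    clear h2 h7 h8
    have hg := goodB (2 * k) (2 * l) e1 e2 a b x y (by omega) h0 hVV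
    obtain ⟨⟨t, u, v, z⟩, hL⟩ : ∃ L : Q, L = labB (2 * k) (2 * l) e1 e2 a b x y := ⟨_, rfl⟩
    have h1 := hL.symm
    rw [← hL] at hg ⊢
    simp only [GB] at hg
    rcases hg with ⟨rfl, h⟩ | ⟨rfl, h⟩ | ⟨rfl, h⟩ | ⟨rfl, h⟩ | ⟨rfl, h⟩ | ⟨rfl, h⟩
    · exact coverB0 k l e1 e2 a b x y u v z hk hl hpar he h0 ha hb hx hy hv hr h1 h
    · exact coverB1 k l e1 e2 a b x y u v z hk hl hpar he h0 ha hb hx hy hv hr h1 h
    · exact coverB2 k l e1 e2 a b x y u v z hk hl hpar he h0 ha hb hx hy hv hr h1 h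
    · exact absurd h1 (fun h1 =>
        rest3 k l e1 e2 a b x y u v z _ _ hk hl hpar he h0 ha hb hx hy hv rfl rfl hr h1)
    · exact coverB4 k l e1 e2 a b x y u v z hk hl hpar he h0 ha hb hx hy hv hr h1 h
    · exact coverB5 k l e1 e2 a b x y u v z hk hl hpar he h0 ha hb hx hy hv hr h1 h

end Pool.Agent.Q56.TF
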