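import Pool.Agent.Q56.TF.SpecD2
import Pool.Agent.Q11.TF.CoverB

/-!
# Members of rank n + m - 1 in the classes of labD that come from labB
-/

namespace Pool.Agent.Q56.TF

open Pool.Agent.Q11.TF

set_option maxHeartbeats 4000000

theorem labD_of_rest (k l e1 e2 a b x y : ℕ)
    (h : Rest k l a b x y (min a (2 * k - b)) (min x (2 * l - y))) :
    labD k l e1 e2 a b x y = labB (2 * k) (2 * l) e1 e2 a b x y := by
  rw [labD_eq]
  obtain ⟨g1, g2, g3, g4, g5, g6, g7, g8⟩ := h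
  unfold DD
  rw [if_neg g1, if_neg g2, if_neg g3, if_neg g4, if_neg g5, if_neg g6, if_neg g7, if_neg g8]

/-- extra information for the rows with u = k - 2 -/
theorem rest0' (k l e1 e2 a b x y u v w j i : ℕ) (hk : 3 ≤ k) (hl : 3 ≤ l)
    (hpar : (min k l) % 2 = 1) (he : k + e2 = l + e1) (h0 : e1 = 0 ∨ e2 = 0)
    (ha : a ≤ b) (hb : b ≤ 2 * k) (hx : x ≤ y) (hy : y ≤ 2 * l) (hv : a < b ∨ x < y)
    (hj : j = min a (2 * k - b)) (hi : i = min x (2 * l - y))
    (hr : Rest k l a b x y j i)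
    (h1 : labB (2 * k) (2 * l) e1 e2 a b x y = (0, u, v, w)) (hu : u + 2 = k) :
    min v (2 * l - w) + 1 = l := by
  have h2 := specB0 (2 * k) (2 * l) e1 e2 a b x y u v w (by omega) h0 ha hb hx hy hv h1
  clear h1
  obtain ⟨j1, j2, j3, j4, j5, j6, j7⟩ := jle k a b j ha hb hj
  obtain ⟨r, q1, q2, q3⟩ := parD k l e1 e2 hpar he h0 hl hk
  have hu' : u = j := by
    clear hi hr he h0 hv q1 q2 q3 hpar
    rcases h2 with h | h | h | h | h
    · obtain ⟨_, h, _⟩ := h
      omega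
    · obtain ⟨h4, _, h5, h6, _⟩ := h
      omega
    · obtain ⟨h4, _, h5, h6, _⟩ := h
      omega
    · obtain ⟨h4, _, h5, h6, _⟩ := h
      omega
    · obtain ⟨h4, _, h5, h6, _⟩ := h
      omega
  have hxy : x < y := by
    rcases h2 with h | h | h | h | h
    · exact h.1
    · exact h.2.1
    · exact h.2.1
    · exact h.2.1
    · exact h.2.1
  have hil : i + 1 ≤ l := by
    clear h2 hr
    omega
  obtain ⟨g1, g2, g3, g4, g5, g6, g7, g8⟩ := hr
  have g3' : i + 2 ≠ l := fun h => g3 ⟨by omega, h, hxy⟩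
  have g7' : a = b → i + 1 = l := fun h => by
    by_contra hc
    exact g7 ⟨h, by omega, by omega⟩
  obtain ⟨i1, i2, i3, i4, i5, i6, i7⟩ := jle l x y i hx hy hi
  clear g1 g2 g3 g4 g5 g6 g7 g8 hv j5 j6 j7 i5 i6 i7
  rcases h2 with h | h | h | h | h
  · obtain ⟨_, _, h5, h6, h7, h8⟩ := h
    subst h5
    subst h6
    rw [← hi]
    clear g7' hj hi hpar
    omega
  · exfalso
    obtain ⟨h4, _, h5, h6, h7, h8, h9, h10, _⟩ := h
    clear g7' hj hi hpar h9
    omega
  · exfalso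
    obtain ⟨h4, _, h5, h6, h7, h8, h9, h10, _⟩ := h
    clear g7' hj hi hpar h9
    omega
  · exfalso
    obtain ⟨h4, _, h5, h6, h7, h8, h9, h10, _⟩ := h
    have := g7' h4
    clear g7' hj hi hpar
    omega
  · exfalso
    obtain ⟨h4, _, h5, h6, h7, h8, h9, h10, _⟩ := h
    have := g7' h4
    clear g7' hj hi hpar
    omega

end Pool.Agent.Q56.TF
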