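import Pool.Agent.Q56.TF.CoverD1

namespace Pool.Agent.Q56.TF

open Pool.Agent.Q11.TF

set_option maxHeartbeats 400000

theorem r1_B1 (k l a b x y j i u v w : ℕ) (ha : a ≤ b) (hji : j + 3 = k)
    (j4 : j = a ∨ j + b = 2 * k)
    (h1 : B1 (2 * k) (2 * l) a b x y j i = (1, u, v, w)) : u + 3 ≤ k ∨ k + 3 ≤ v := by
  unfold B1 at h1
  split_ifs at h1 <;> simp only [Prod.mk.injEq] at h1
  · omega
  · exact absurd h1.1 (by norm_num)
  · exact absurd h1.1 (by norm_num)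

theorem r1_B3u (s e1 e2 a b x i u v : ℕ) (h3 : (i - e2) % 2 = 0)
    (h1 : B3u (2 * (e1 + 2 * s + 3)) (2 * (e2 + 2 * s + 3)) e1 e2 a b x i =
      (1, u, v, e2 + 2 * s + 1)) : u + 3 ≤ e1 + 2 * s + 3 ∨ e1 + 2 * s + 3 + 3 ≤ v := by
  unfold B3u at h1
  split_ifs at h1 <;> simp only [Prod.mk.injEq] at h1
  · exfalso
    have := h1.2.2.2
    omega
  · obtain ⟨_, e3, e4, e5⟩ := h1
    have : i = e2 + 2 * s := by omega
    subst this
    omega
  · exfalso
    have := h1.2.2.2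
    omega
  · obtain ⟨_, e3, e4, e5⟩ := h1
    have : i = e2 + 2 * s := by omega
    subst this
    omega

theorem r1_B3l (s e1 e2 a b x i j u v : ℕ) (hab : a < b)
    (hj : j + 2 ≤ e1 + 2 * s + 3) (j1 : j ≤ a) (j2 : j + b ≤ 2 * (e1 + 2 * s + 3))
    (j4 : j = a ∨ j + b = 2 * (e1 + 2 * s + 3))
    (h1 : B3l (2 * (e1 + 2 * s + 3)) (2 * (e2 + 2 * s + 3)) e1 e2 a b x i =
      (1, u, v, e2 + 2 * s + 1)) : u + 3 ≤ e1 + 2 * s + 3 ∨ e1 + 2 * s + 3 + 3 ≤ v := by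
  unfold B3l at h1
  split_ifs at h1 <;> simp only [Prod.mk.injEq] at h1
  · obtain ⟨_, e3, e4, e5⟩ := h1
    subst e5
    omega
  · exact absurd h1.1 (by norm_num)
  · obtain ⟨_, e3, e4, e5⟩ := h1
    subst e5
    omega
  · obtain ⟨_, e3, e4, e5⟩ := h1
    subst e5
    omega
  · obtain ⟨_, e3, e4, e5⟩ := h1
    subst e5
    omega
  · exact absurd h1.1 (by norm_num)
  · obtain ⟨_, e3, e4, e5⟩ := h1
    subst e5
    omega
  · exact absurd h1.1 (by norm_num)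
  · obtain ⟨_, e3, e4, e5⟩ := h1
    subst e5
    omega
  · obtain ⟨_, e3, e4, e5⟩ := h1
    subst e5
    omega
  · obtain ⟨_, e3, e4, e5⟩ := h1
    subst e5
    omega
  · exact absurd h1.1 (by norm_num)

theorem rest1'' (k l e1 e2 a b x y u v w j i : ℕ) (hk : 3 ≤ k) (hl : 3 ≤ l)
    (hpar : (min k l) % 2 = 1) (he : k + e2 = l + e1) (h0 : e1 = 0 ∨ e2 = 0)
    (ha : a ≤ b) (hb : b ≤ 2 * k) (hx : x ≤ y) (hy : y ≤ 2 * l) (hv : a < b ∨ x < y)
    (hj : j = min a (2 * k - b)) (hi : i = min x (2 * l - y))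
    (hr : Rest k l a b x y j i)
    (h1 : labB (2 * k) (2 * l) e1 e2 a b x y = (1, u, v, w)) (hw : w + 2 = l) :
    u + 3 ≤ k ∨ k + 3 ≤ v := by
  have hil := rest_i k l e1 e2 a b x y 1 u v w j i hk hl hpar he h0 ha hb hx hy hj hi hr h1 le_rfl
  obtain ⟨j1, j2, j3, j4, j5, j6, j7⟩ := jle k a b j ha hb hj
  obtain ⟨i1, i2, i3, i4, i5, i6, i7⟩ := jle l x y i hx hy hi
  obtain ⟨r, q1, q2, q3⟩ := parD k l e1 e2 hpar he h0 hl hk
  obtain ⟨g1, g2, g3, g4, g5, g6, g7, g8⟩ := hr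
  have hjk : j ≠ k := fun h => g2 (j5 h)
  obtain ⟨s, rfl⟩ : ∃ s, r = s + 1 := ⟨r - 1, by omega⟩
  have q1' : l = e2 + 2 * s + 3 := by omega
  have q2' : k = e1 + 2 * s + 3 := by omega
  have q3' : w = e2 + 2 * s + 1 := by omega
  clear g1 g2 g5 g6 g7 g8 hpar h0 q1 q2 q3
  rw [labB_eq, ← hj, ← hi] at h1
  clear hj hi j5 i5 j6 j7 i6 i7
  subst q1' q2' q3'
  clear he hw
  unfold B0 at h1
  split_ifs at h1 with c1 c2 c3 c4 c5 c6
  · refine r1_B1 _ _ a b x y j i u v _ ha ?_ j4 h1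
    have h5 : i = e2 + 2 * s + 1 := by
      unfold B1 at h1
      split_ifs at h1 <;> simp only [Prod.mk.injEq] at h1
      · exact h1.2.2.2
      · exact absurd h1.1 (by norm_num)
      · exact absurd h1.1 (by norm_num)
    have h6 := c1.1
    clear h1 c1 hv g3 g4 j4 i4
    omega
  · simp only [Prod.mk.injEq] at h1
    exact absurd h1.1 (by norm_num)
  · exfalso
    simp only [Prod.mk.injEq] at h1
    obtain ⟨_, e3, e4, e5⟩ := h1
    subst e5
    have h6 := c3.2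
    clear hv g3 j4 i4 c1 c2
    omega
  · unfold B2 at h1
    split_ifs at h1 <;> simp only [Prod.mk.injEq] at h1 <;> exact absurd h1.1 (by norm_num)
  · exact r1_B3u s e1 e2 a b x i u v c5.1 h1
  · unfold B3s at h1
    split_ifs at h1 <;> simp only [Prod.mk.injEq] at h1 <;> exact absurd h1.1 (by norm_num)
  · have hab : a < b := lt_of_le_of_ne ha c4
    have h6 : j + 2 ≤ e1 + 2 * s + 3 := by
      have h7 : i = e2 + 2 * s + 1 := by
        clear hv g3 g4 j4 i4 c1 c2 c3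
        unfold B3l at h1
        split_ifs at h1 <;> simp only [Prod.mk.injEq] at h1 <;>
          first | exact h1.2.2.2 | exact absurd h1.1 (by norm_num)
      have g4' : j + 1 ≠ e1 + 2 * s + 3 := fun h => g4 ⟨h, by omega⟩
      clear hv g3 g4 j4 i4 c1 c2 c3 h1
      omega
    exact r1_B3l s e1 e2 a b x i j u v hab h6 j1 j2 j4 h1

end Pool.Agent.Q56.TF
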