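import Pool.Agent.Q11.TF.Group

/-!
# Job ISO of project TF: the lattice of subgroups of a cyclic group of order p^n q^m
-/

namespace Pool.Agent.Q56.TF

open Pool.Agent.Q11.TF

universe u

theorem pow_of_mem {G : Type u} [Group G] [Finite G] (H : Subgroup G) {x : G}
    (hx : x ∈ H) : x ^ Nat.card H = 1 := by
  have h := pow_card_eq_one' (x := (⟨x, hx⟩ : H))
  exact congrArg Subtype.val h

theorem mem_iff_pow {G : Type u} [Group G] [Finite G] [IsCyclic G] (H : Subgroup G) (x : G) :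
    x ∈ H ↔ x ^ Nat.card H = 1 := by
  classical
  have := Fintype.ofFinite G
  constructor
  · intro hx
    exact pow_of_mem H hx
  · intro hx
    by_contra hcon
    have h1 := IsCyclic.card_pow_eq_one_le (α := G) (n := Nat.card H) Nat.card_pos
    have hmem : ∀ a : G, a ∈ ((H : Set G).toFinite.toFinset) ↔ a ∈ H := by
      intro a
      rw [Set.Finite.mem_toFinset, SetLike.mem_coe]
    have h2 : insert x ((H : Set G).toFinite.toFinset) ⊆
        (Finset.univ.filter (fun a : G => a ^ Nat.card H = 1)) := by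
      intro a ha
      rw [Finset.mem_filter]
      refine ⟨Finset.mem_univ _, ?_⟩
      rcases Finset.mem_insert.1 ha with h | h
      · rw [h]; exact hx
      · exact pow_of_mem H ((hmem a).1 h)
    have h3 := Finset.card_le_card h2
    rw [Finset.card_insert_of_notMem (fun h => hcon ((hmem x).1 h))] at h3
    have h4 : ((H : Set G).toFinite.toFinset).card = Nat.card H := by
      rw [← Set.ncard_eq_toFinset_card]
      rfl
    omega

theorem le_iff_dvd {G : Type u} [Group G] [Finite G] [IsCyclic G] (K H : Subgroup G) :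
    K ≤ H ↔ Nat.card K ∣ Nat.card H := by
  constructor
  · intro h
    exact Subgroup.card_dvd_of_le h
  · intro h x hx
    rw [mem_iff_pow] at hx ⊢
    obtain ⟨c, hc⟩ := h
    rw [hc, pow_mul, hx, one_pow]

theorem pq_dvd_iff {p q : ℕ} (hp : p.Prime) (hq : q.Prime) (hpq : p ≠ q) (a b x y : ℕ) :
    p ^ a * q ^ x ∣ p ^ b * q ^ y ↔ a ≤ b ∧ x ≤ y := by
  have hc : Nat.Coprime p q := (Nat.coprime_primes hp hq).2 hpq
  constructor
  · intro h
    constructor
    · have h1 : p ^ a ∣ p ^ b * q ^ y := (Dvd.intro _ rfl).trans h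
      have h2 : p ^ a ∣ p ^ b :=
        Nat.Coprime.dvd_of_dvd_mul_right (Nat.Coprime.pow a y hc) h1
      exact (Nat.pow_dvd_pow_iff_le_right hp.one_lt).1 h2
    · have h1 : q ^ x ∣ p ^ b * q ^ y := (Dvd.intro_left _ rfl).trans h
      have h2 : q ^ x ∣ q ^ y :=
        Nat.Coprime.dvd_of_dvd_mul_left (Nat.Coprime.pow x b hc.symm) h1
      exact (Nat.pow_dvd_pow_iff_le_right hq.one_lt).1 h2
  · rintro ⟨h1, h2⟩
    exact Nat.mul_dvd_mul (pow_dvd_pow p h1) (pow_dvd_pow q h2)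

theorem iso : S_iso.{u} := by
  intro p q n m hp hq hpq G _ _ hG
  have hpos : 0 < p ^ n * q ^ m := Nat.mul_pos (Nat.pow_pos hp.pos) (Nat.pow_pos hq.pos)
  have : Finite G := Nat.finite_of_card_ne_zero (by rw [hG]; exact hpos.ne')
  obtain ⟨g, hg⟩ := IsCyclic.exists_generator (α := G)
  have hog : orderOf g = p ^ n * q ^ m := by
    rw [← hG]
    exact orderOf_eq_card_of_forall_mem_zpowers hg
  let f : Fin (n + 1) × Fin (m + 1) → Subgroup G := fun v =>
    Subgroup.zpowers (g ^ (p ^ (n - v.1) * q ^ (m - v.2)))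
  have hf : ∀ v, Nat.card (f v) = p ^ (v.1 : ℕ) * q ^ (v.2 : ℕ) := by
    intro v
    have h1 : (v.1 : ℕ) ≤ n := Nat.lt_succ_iff.1 v.1.2
    have h2 : (v.2 : ℕ) ≤ m := Nat.lt_succ_iff.1 v.2.2
    show Nat.card (Subgroup.zpowers (g ^ (p ^ (n - v.1) * q ^ (m - v.2)))) = _
    rw [Nat.card_zpowers]
    have h3 : p ^ n * q ^ m = (p ^ (n - v.1) * q ^ (m - v.2)) * (p ^ (v.1 : ℕ) * q ^ (v.2 : ℕ)) := by
      have e1 : p ^ n = p ^ (n - v.1) * p ^ (v.1 : ℕ) := by
        rw [← pow_add, Nat.sub_add_cancel h1]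
      have e2 : q ^ m = q ^ (m - v.2) * q ^ (v.2 : ℕ) := by
        rw [← pow_add, Nat.sub_add_cancel h2]
      rw [e1, e2]
      ring
    have h4 : 0 < p ^ (n - v.1) * q ^ (m - v.2) :=
      Nat.mul_pos (Nat.pow_pos hp.pos) (Nat.pow_pos hq.pos)
    rw [orderOf_pow_of_dvd h4.ne' (by rw [hog, h3]; exact Dvd.intro _ rfl), hog, h3,
      Nat.mul_div_cancel_left _ h4]
  have hle : ∀ v w, f v ≤ f w ↔ v ≤ w := by
    intro v w
    rw [le_iff_dvd, hf, hf, pq_dvd_iff hp hq hpq]
    rfl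
  have hsurj : Function.Surjective f := by
    intro H
    have h1 : Nat.card H ∣ p ^ n * q ^ m := by
      rw [← hG]
      exact Subgroup.card_subgroup_dvd_card H
    obtain ⟨d1, d2, h2, h3, h4⟩ := (Nat.dvd_mul).1 h1
    obtain ⟨a, ha, rfl⟩ := (Nat.dvd_prime_pow hp).1 h2
    obtain ⟨x, hx, rfl⟩ := (Nat.dvd_prime_pow hq).1 h3
    refine ⟨(⟨a, Nat.lt_succ_iff.2 ha⟩, ⟨x, Nat.lt_succ_iff.2 hx⟩), ?_⟩
    apply le_antisymm
    · rw [le_iff_dvd, hf, ← h4]
    · rw [le_iff_dvd, hf, ← h4]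
  exact ⟨(RelIso.ofSurjective (OrderEmbedding.ofMapLEIff f hle) hsurj).symm⟩

theorem comm : S_comm.{u} := by
  intro G _ _ r
  have hconj : ∀ (g : G) (H : Subgroup G), H.map (MulAut.conj g).toMonoidHom = H := by
    intro g H
    have hcomm : ∀ a b : G, a * b = b * a := by
      intro a b
      obtain ⟨z, hz⟩ := IsCyclic.exists_generator (α := G)
      obtain ⟨i, hi⟩ := Subgroup.mem_zpowers_iff.1 (hz a)
      obtain ⟨j, hj⟩ := Subgroup.mem_zpowers_iff.1 (hz b)
      rw [← hi, ← hj, ← zpow_add, ← zpow_add, add_comm]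
    have : (MulAut.conj g).toMonoidHom = MonoidHom.id G := by
      ext x
      simp [hcomm g x]
    rw [this, Subgroup.map_id]
  constructor
  · intro h
    exact ⟨h.refl, h.trans, h.le, h.restrict⟩
  · intro h
    refine ⟨h.refl, ?_, h.trans, h.le, ?_, h.restrict⟩
    · intro K H h1 h2
      exact le_antisymm (h.le _ _ h1) (h.le _ _ h2)
    · intro K H g h1
      rw [hconj, hconj]
      exact h1

end Pool.Agent.Q56.TF
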