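import Pool.Agent.Q11.TF.Group

/-!
# Job LATUP of project TF: minimal bases and strong sets
-/

namespace Pool.Agent.Q56.TF

open Pool.Agent.Q11.TF

universe u

/-- the basic fact: strong sets are minimal bases -/
theorem latLow : S_latLow.{u} := by
  intro L _ S hpos hstr
  refine ⟨hpos, rfl, ?_⟩
  intro S' hS' hEq
  obtain ⟨hsub, hnot⟩ := hS'
  have : ∃ e ∈ S, e ∉ S' := by
    by_contra hcon
    push Not at hcon
    exact hnot hcon
  obtain ⟨e, heS, heS'⟩ := this
  have h1 : Gen S e.1 e.2 := fun r _ hr => hr e heS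
  rw [← hEq] at h1
  have hT : IsTS (fun K H : L => K ≤ H ∧ (e.1 ≤ K → e.2 ≤ H → e.2 ≤ K)) := by
    refine ⟨?_, ?_, ?_, ?_⟩
    · intro H
      exact ⟨le_refl _, fun _ h => h⟩
    · intro K H M h1 h2
      refine ⟨h1.1.trans h2.1, ?_⟩
      intro h3 h4
      exact h1.2 h3 (h2.2 (h3.trans h1.1) h4)
    · intro K H h
      exact h.1
    · intro K H M h1 h2
      refine ⟨inf_le_right, ?_⟩
      intro h3 h4
      exact le_inf (h1.2 (h3.trans inf_le_left) (h4.trans h2)) h4
  have h2 := h1 _ hT (by
    intro f hf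
    refine ⟨(hpos f (hsub hf)).le, ?_⟩
    intro h3 h4
    exact hstr e heS f (hsub hf) (fun h => heS' (h ▸ hf)) h3 h4)
  exact absurd (h2.2 le_rfl le_rfl) (not_le_of_gt (hpos e heS))

theorem gen_mono {L : Type u} [SemilatticeInf L] {S T : Set (L × L)}
    (h : ∀ e ∈ S, Gen T e.1 e.2) {K H : L} (hK : Gen S K H) : Gen T K H := by
  intro r hr hT
  exact hK r hr (fun e he => h e he r hr hT)

theorem gen_of_mem {L : Type u} [SemilatticeInf L] {S : Set (L × L)} {e : L × L} (h : e ∈ S) :
    Gen S e.1 e.2 := fun _ _ hr => hr e h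

/-- irredundant sets -/
def Irr {L : Type u} [SemilatticeInf L] (S : Set (L × L)) : Prop :=
  ∀ e ∈ S, ¬ Gen (S \ {e}) e.1 e.2

theorem irr_of_min {L : Type u} [SemilatticeInf L] {S : Set (L × L)} {r : L → L → Prop}
    (h : MinBasis S r) : Irr S := by
  obtain ⟨_, h2, h3⟩ := h
  intro e he hg
  refine h3 (S \ {e}) ⟨Set.sdiff_subset, fun hsub => (hsub he).2 rfl⟩ ?_
  rw [← h2]
  funext K H
  apply propext
  constructor
  · intro h
    exact gen_mono (fun f hf => gen_of_mem hf.1) h
  · intro h
    refine gen_mono (fun f hf => ?_) h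
    by_cases hfe : f = e
    · rw [hfe]
      exact hg
    · exact gen_of_mem ⟨hf, hfe⟩

theorem up_aux {L : Type u} [SemilatticeInf L] [Finite L] (N : ℕ) : ∀ S : Finset (L × L),
    (∑ e ∈ S, (Set.Iic e.2).ncard) ≤ N → (∀ e ∈ S, e.1 < e.2) → Irr (S : Set (L × L)) →
    ∃ S' : Finset (L × L), S'.card = S.card ∧ (∀ e ∈ S', e.1 < e.2) ∧
      StrongL (S' : Set (L × L)) := by
  classical
  induction N with
  | zero =>
    intro S hS hpos _
    refine ⟨S, rfl, hpos, ?_⟩
    intro e he
    exfalso
    have h1 : (Set.Iic e.2).ncard ≤ 0 := le_trans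
      (Finset.single_le_sum (f := fun e : L × L => (Set.Iic e.2).ncard)
        (fun _ _ => Nat.zero_le _) he) hS
    have h2 : 0 < (Set.Iic e.2).ncard :=
      (Set.ncard_pos (Set.toFinite _)).2 ⟨e.2, Set.mem_Iic.2 le_rfl⟩
    omega
  | succ N ih =>
    intro S hS hpos hirr
    by_cases hst : StrongL (S : Set (L × L))
    · exact ⟨S, rfl, hpos, hst⟩
    · unfold StrongL at hst
      push Not at hst
      obtain ⟨e, he, f, hf, hef, h1, h2, h3⟩ := hst
      have he' : e ∈ S := he
      have hf' : f ∈ S := hf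
      set g : L × L := (e.1, f.1 ⊓ e.2) with hg
      have hgen1 : ∀ T : Set (L × L), e ∈ T → Gen T g.1 g.2 := by
        intro T hT r hr hTr
        have h4 := hr.restrict _ _ (f.1 ⊓ e.2) (hTr e hT) inf_le_right
        have h5 : e.1 ⊓ (f.1 ⊓ e.2) = e.1 :=
          inf_eq_left.2 (le_inf h1 (hpos e he').le)
        rw [h5] at h4
        exact h4
      have hfr : ∀ r : L → L → Prop, IsTS r → r f.1 f.2 → r (f.1 ⊓ e.2) e.2 :=
        fun r hr h => hr.restrict _ _ e.2 h h2
      have hgen2 : ∀ T : Set (L × L), f ∈ T → Gen T g.1 g.2 → Gen T e.1 e.2 := by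
        intro T hT hG r hr hTr
        exact hr.trans _ _ _ (hG r hr hTr) (hfr r hr (hTr f hT))
      have hfm : f ∈ (S : Set (L × L)) \ {e} := ⟨hf, fun h => hef h.symm⟩
      have hglt : g.1 < g.2 := by
        refine lt_of_le_of_ne (le_inf h1 (hpos e he').le) ?_
        intro h4
        apply hirr e he
        intro r hr hTr
        have h5 := hfr r hr (hTr f hfm)
        have h6 : f.1 ⊓ e.2 = e.1 := h4.symm
        rw [h6] at h5
        exact h5
      have hge : g.2 < e.2 := by
        refine lt_of_le_of_ne inf_le_right ?_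
        intro h4
        apply h3
        have : f.1 ⊓ e.2 = e.2 := h4
        exact inf_eq_right.1 this
      have hgS : g ∉ S := by
        intro h4
        apply hirr e he
        apply hgen2 _ hfm
        apply gen_of_mem
        refine ⟨h4, ?_⟩
        intro h5
        have h5' : g = e := h5
        rw [h5'] at hge
        exact lt_irrefl _ hge
      have hgE : g ∉ S.erase e := fun h => hgS (Finset.mem_of_mem_erase h)
      have H1 : (∑ e ∈ insert g (S.erase e), (Set.Iic e.2).ncard) ≤ N := by
        rw [Finset.sum_insert hgE]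
        have h4 := Finset.add_sum_erase S (fun e : L × L => (Set.Iic e.2).ncard) he'
        have h5 : (Set.Iic g.2).ncard < (Set.Iic e.2).ncard := by
          apply Set.ncard_lt_ncard _ (Set.toFinite _)
          exact Set.Iic_ssubset_Iic.2 hge
        have h6 : (Set.Iic e.2).ncard + ∑ e ∈ S.erase e, (Set.Iic e.2).ncard =
          ∑ e ∈ S, (Set.Iic e.2).ncard := h4
        omega
      have H2 : ∀ a ∈ insert g (S.erase e), a.1 < a.2 := by
        intro a ha
        rcases Finset.mem_insert.1 ha with h4 | h4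
        · rw [h4]
          exact hglt
        · exact hpos a (Finset.mem_of_mem_erase h4)
      have H3 : Irr ((insert g (S.erase e) : Finset (L × L)) : Set (L × L)) := by
        intro a ha hG
        rw [Finset.mem_coe] at ha
        rcases Finset.mem_insert.1 ha with h4 | h4
        · rw [h4] at hG
          apply hirr e he
          apply hgen2 _ hfm
          refine gen_mono (fun b hb => ?_) hG
          have h5 : b ∈ insert g (S.erase e) := Finset.mem_coe.1 hb.1
          rcases Finset.mem_insert.1 h5 with h6 | h6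
          · exact absurd h6 hb.2
          · apply gen_of_mem
            exact ⟨Finset.mem_coe.2 (Finset.mem_of_mem_erase h6),
              fun h7 => Finset.ne_of_mem_erase h6 h7⟩
        · apply hirr a (Finset.mem_coe.2 (Finset.mem_of_mem_erase h4))
          refine gen_mono (fun b hb => ?_) hG
          have h5 : b ∈ insert g (S.erase e) := Finset.mem_coe.1 hb.1
          rcases Finset.mem_insert.1 h5 with h6 | h6
          · rw [h6]
            apply hgen1
            exact ⟨he, fun h7 => Finset.ne_of_mem_erase h4 (Set.mem_singleton_iff.1 h7).symm⟩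
          · apply gen_of_mem
            exact ⟨Finset.mem_coe.2 (Finset.mem_of_mem_erase h6), hb.2⟩
      obtain ⟨S', hc, hp, hs⟩ := ih (insert g (S.erase e)) H1 H2 H3
      refine ⟨S', ?_, hp, hs⟩
      rw [hc, Finset.card_insert_of_notMem hgE, Finset.card_erase_of_mem he']
      have : 0 < S.card := Finset.card_pos.2 ⟨e, he'⟩
      omega

theorem latUp : S_latUp.{u} := by
  classical
  intro L _ _ S r hmin
  have hfin : S.Finite := Set.toFinite S
  obtain ⟨S', hc, hp, hs⟩ := up_aux (∑ e ∈ hfin.toFinset, (Set.Iic e.2).ncard) hfin.toFinset le_rfl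
    (fun e he => hmin.1 e (hfin.mem_toFinset.1 he))
    (by rw [hfin.coe_toFinset]; exact irr_of_min hmin)
  refine ⟨(S' : Set (L × L)), ?_, fun e he => hp e (Finset.mem_coe.1 he), hs⟩
  rw [Set.ncard_coe_finset, hc, Set.ncard_eq_toFinset_card S hfin]

end Pool.Agent.Q56.TF
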