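import Pool.Agent.Q11.TF.CliqueB

/-!
# Job SMALLC of project TF
-/

namespace Pool.Agent.Q56.TF

open Pool.Agent.Q11.TF

set_option maxHeartbeats 4000000

theorem labC_unfold (k l e1 e2 a b x y : ℕ) : labC k l e1 e2 a b x y =
  if x = l ∧ y = l then
    (if b = a + 1 ∧ (b + 1 ≤ k ∨ k + 2 ≤ b) then (1, a, b, l - 1) else (8, 0, 0, 0))
  else if a = k ∧ b = k then
    (if y = x + 1 ∧ (y + 1 ≤ l ∨ l + 2 ≤ y) then (2, k - 1, y, 0) else (7, 0, 0, 0))
  else if x + 1 = l ∧ y = l + 1 ∧ ((a + 2 = k ∧ b + 1 = k) ∨ (a = k + 1 ∧ b = k + 2)) then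
    (0, k - 1, l - 1, l + 1)
  else if a + 1 = k ∧ b + 1 = k ∧ y = l + 1 ∧ x + 2 ≤ l then (0, k - 1, l, l + 1)
  else if a = k + 1 ∧ b = k + 1 ∧ x + 1 = l ∧ l + 2 ≤ y then (0, k - 1, l - 1, l)
  else labB (2 * k) (2 * l) e1 e2 a b x y := rfl

theorem centralC : S_centralC := by
  rintro k l e1 e2 hk hl ⟨a, b, x, y⟩ hV
  have ht := tagB (2 * k) (2 * l) e1 e2 a b x y
  unfold Val at hV
  simp only at hV
  unfold lC
  simp only
  rw [labC_unfold]
  obtain ⟨L, hL⟩ : ∃ L : Q, L = labB (2 * k) (2 * l) e1 e2 a b x y := ⟨_, rfl⟩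
  rw [← hL] at ht ⊢
  constructor
  · split_ifs <;> constructor <;> intro h <;>
      first | exact h.elim | omega | (simp only at h; omega) | (simp only; omega) | (simp only at h ⊢; omega) | rfl
  · split_ifs <;> constructor <;> intro h <;>
      first | exact h.elim | omega | (simp only at h; omega) | (simp only; omega) | (simp only at h ⊢; omega) | rfl

theorem notConf (a b x y a' b' x' y' : ℕ) (h : ¬ Conf (a, b, x, y) (a', b', x', y')) :
    (a ≤ a' → b ≤ b' → x ≤ x' → y ≤ y' → b ≤ a' ∧ y ≤ x') ∧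
    (a' ≤ a → b' ≤ b → x' ≤ x → y' ≤ y → b' ≤ a ∧ y' ≤ x) := by
  simp only [Conf, Le, Ov] at h
  constructor
  · intro h1 h2 h3 h4
    constructor
    · by_contra hc
      exact h (Or.inl ⟨⟨h1, h2, h3, h4⟩, Or.inl (not_le.1 hc)⟩)
    · by_contra hc
      exact h (Or.inl ⟨⟨h1, h2, h3, h4⟩, Or.inr (not_le.1 hc)⟩)
  · intro h1 h2 h3 h4
    constructor
    · by_contra hc
      exact h (Or.inr ⟨⟨h1, h2, h3, h4⟩, Or.inl (not_le.1 hc)⟩)
    · by_contra hc
      exact h (Or.inr ⟨⟨h1, h2, h3, h4⟩, Or.inr (not_le.1 hc)⟩)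

theorem centre (k l a b x y : ℕ) (hl : 2 ≤ l) (c1 : ¬ Conf (a, b, x, y) (k, k, l - 1, l))
    (c2 : ¬ Conf (a, b, x, y) (k, k, l, l + 1)) :
    (a ≤ k → b ≤ k → x + 1 ≤ l → y = l → False) ∧ (a ≤ k → b ≤ k → x ≤ l → y = l + 1 → False) ∧
    (k ≤ a → k ≤ b → x + 1 = l → l ≤ y → False) ∧
    (k ≤ a → k ≤ b → x = l → l + 1 ≤ y → False) := by
  obtain ⟨d1, d2⟩ := notConf _ _ _ _ _ _ _ _ c1
  obtain ⟨d3, d4⟩ := notConf _ _ _ _ _ _ _ _ c2
  clear c1 c2
  refine ⟨?_, ?_, ?_, ?_⟩
  · intro h1 h2 h3 h4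
    have := d1 h1 h2 (by omega) (by omega)
    omega
  · intro h1 h2 h3 h4
    have := d3 h1 h2 (by omega) (by omega)
    omega
  · intro h1 h2 h3 h4
    have := d2 h1 h2 (by omega) (by omega)
    omega
  · intro h1 h2 h3 h4
    have := d4 h1 h2 (by omega) (by omega)
    omega

/-- row labels of the block (2,2) in labC: only the three obvious members avoid both central units -/
theorem specC (k l e1 e2 a b x y v w : ℕ) (hk : 2 ≤ k) (hl : 2 ≤ l) (hpar : (min k l) % 2 = 0)
    (he : k + e2 = l + e1) (h0 : e1 = 0 ∨ e2 = 0)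
    (ha : a ≤ b) (hb : b ≤ 2 * k) (hx : x ≤ y) (hy : y ≤ 2 * l) (hv : a < b ∨ x < y)
    (hvw : (v + 1 = l ∧ w = l) ∨ (v + 1 = l ∧ w = l + 1) ∨ (v = l ∧ w = l + 1))
    (h1 : labC k l e1 e2 a b x y = (0, k - 1, v, w))
    (c1 : ¬ Conf (a, b, x, y) (k, k, l - 1, l)) (c2 : ¬ Conf (a, b, x, y) (k, k, l, l + 1)) :
    a + 1 = k ∧ b = k + 1 ∧ x = v ∧ y = w := by
  rw [labC_unfold] at h1
  obtain ⟨d1, d2, d3, d4⟩ := centre k l a b x y hl c1 c2
  clear c1 c2
  split_ifs at h1 with g1 g2 g3 g4 g5 g6 g7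
  · simp only [Prod.mk.injEq] at h1
    exact absurd h1.1 (by norm_num)
  · simp only [Prod.mk.injEq] at h1
    exact absurd h1.1 (by norm_num)
  · simp only [Prod.mk.injEq] at h1
    exact absurd h1.1 (by norm_num)
  · simp only [Prod.mk.injEq] at h1
    exact absurd h1.1 (by norm_num)
  · exfalso
    clear h1 hvw hpar g1 g3
    rcases g5.2.2 with g | g
    · exact d2 (by omega) (by omega) (by omega) g5.2.1
    · exact d3 (by omega) (by omega) g5.1 (by omega)
  · exfalso
    clear h1 hvw hpar g1 g3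
    exact d2 (by omega) (by omega) (by omega) g6.2.2.1
  · exfalso
    clear h1 hvw hpar g1 g3
    exact d3 (by omega) (by omega) g7.2.2.1 (by omega)
  · have h2 := specB0 (2 * k) (2 * l) e1 e2 a b x y (k - 1) v w (by omega) h0 ha hb hx hy hv h1
    clear h1
    rcases h2 with h | h | h | h | h
    · clear hpar h0 he g1 g3 g5 g6 g7
      obtain ⟨e1', e2', e3', e4', e5', e6'⟩ := h
      subst e3'
      subst e4'
      by_cases hbk : b ≤ k
      · exfalso
        have hak : a ≤ k := ha.trans hbk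
        rcases hvw with hh | hh | hh
        · exact d1 hak hbk (by omega) (by omega)
        · exact d2 hak hbk (by omega) (by omega)
        · exact d2 hak hbk (by omega) (by omega)
      · by_cases hak : k ≤ a
        · exfalso
          rcases hvw with hh | hh | hh
          · exact d3 hak (by omega) (by omega) (by omega)
          · exact d3 hak (by omega) (by omega) (by omega)
          · exact d4 hak (by omega) (by omega) (by omega)
        · clear d1 d2 d3 d4 hvw
          omega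
    · exfalso
      clear d3 d4 g1 g3
      by_cases hy1 : y = l
      · exact d1 (by omega) (by omega) (by omega) hy1
      · by_cases hy2 : y = l + 1
        · exact d2 (by omega) (by omega) (by omega) hy2
        · clear d1 d2
          omega
    · exfalso
      clear d1 d2 g1 g3
      by_cases hy1 : x + 1 = l
      · exact d3 (by omega) (by omega) hy1 (by omega)
      · by_cases hy2 : x = l
        · exact d4 (by omega) (by omega) hy2 (by omega)
        · clear d3 d4
          omega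
    · exfalso
      clear d3 d4 g1 g3
      by_cases hy1 : y = l
      · exact d1 (by omega) (by omega) (by omega) hy1
      · by_cases hy2 : y = l + 1
        · exact d2 (by omega) (by omega) (by omega) hy2
        · clear d1 d2
          omega
    · exfalso
      clear d1 d2 g1 g3
      by_cases hy1 : x + 1 = l
      · exact d3 (by omega) (by omega) hy1 (by omega)
      · by_cases hy2 : x = l
        · exact d4 (by omega) (by omega) hy2 (by omega)
        · clear d3 d4
          omega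

theorem labB_centre (k l e1 e2 a b x y : ℕ) (hk : 2 ≤ k) (hl : 2 ≤ l)
    (he : k + e2 = l + e1) (hj : min a (2 * k - b) + 1 = k) (hi : min x (2 * l - y) + 1 = l)
    (hxy : x < y) : labB (2 * k) (2 * l) e1 e2 a b x y = (0, k - 1, x, y) := by
  rw [labB_eq]
  obtain ⟨j, hj'⟩ : ∃ j, j = min a (2 * k - b) := ⟨_, rfl⟩
  obtain ⟨i, hi'⟩ : ∃ i, i = min x (2 * l - y) := ⟨_, rfl⟩
  rw [← hj', ← hi']
  unfold B0
  rw [if_neg (by omega), if_pos (by omega)]
  have : j = k - 1 := by omega
  rw [this]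

theorem repC : S_repC := by
  intro k l e1 e2 hk hl _ he _
  unfold lC
  simp only
  refine ⟨?_, ?_, ?_⟩
  · rw [labC_unfold, if_neg (by omega), if_neg (by omega), if_neg (by omega), if_neg (by omega),
      if_neg (by omega), labB_centre k l e1 e2 _ _ _ _ hk hl he (by omega) (by omega) (by omega)]
  · rw [labC_unfold, if_neg (by omega), if_neg (by omega), if_neg (by omega), if_neg (by omega),
      if_neg (by omega), labB_centre k l e1 e2 _ _ _ _ hk hl he (by omega) (by omega) (by omega)]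
  · rw [labC_unfold, if_neg (by omega), if_neg (by omega), if_neg (by omega), if_neg (by omega),
      if_neg (by omega), labB_centre k l e1 e2 _ _ _ _ hk hl he (by omega) (by omega) (by omega)]

theorem mergeC : S_mergeC := by
  rintro k l e1 e2 hk hl hpar he h0 ⟨a, b, x, y⟩ ⟨a', b', x', y'⟩ hV hV' h1 h1' c1 c2 c1' c2' hne
  have hp : a + 1 = k ∧ b = k + 1 ∧
      ((x + 1 = l ∧ y = l) ∨ (x + 1 = l ∧ y = l + 1) ∨ (x = l ∧ y = l + 1)) := by
    obtain ⟨g1, g2, g3, g4, g5⟩ := hV
    rcases h1 with h1 | h1 | h1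
    · have := specC k l e1 e2 a b x y (l - 1) l hk hl hpar he h0 g1 g2 g3 g4 g5 (by omega) h1 c1 c2
      omega
    · have := specC k l e1 e2 a b x y (l - 1) (l + 1) hk hl hpar he h0 g1 g2 g3 g4 g5 (by omega)
        h1 c1 c2
      omega
    · have := specC k l e1 e2 a b x y l (l + 1) hk hl hpar he h0 g1 g2 g3 g4 g5 (by omega)
        h1 c1 c2
      omega
  have hq : a' + 1 = k ∧ b' = k + 1 ∧
      ((x' + 1 = l ∧ y' = l) ∨ (x' + 1 = l ∧ y' = l + 1) ∨ (x' = l ∧ y' = l + 1)) := by
    obtain ⟨g1, g2, g3, g4, g5⟩ := hV'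
    rcases h1' with h1 | h1 | h1
    · have := specC k l e1 e2 a' b' x' y' (l - 1) l hk hl hpar he h0 g1 g2 g3 g4 g5 (by omega) h1
        c1' c2'
      omega
    · have := specC k l e1 e2 a' b' x' y' (l - 1) (l + 1) hk hl hpar he h0 g1 g2 g3 g4 g5 (by omega)
        h1 c1' c2'
      omega
    · have := specC k l e1 e2 a' b' x' y' l (l + 1) hk hl hpar he h0 g1 g2 g3 g4 g5 (by omega)
        h1 c1' c2'
      omega
  clear c1 c2 c1' c2' h1 h1' hne hV hV'
  simp only [Conf, Le, Ov]
  have h5 : (x ≤ x' ∧ y ≤ y') ∨ (x' ≤ x ∧ y' ≤ y) := by omega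
  rcases h5 with h5 | h5
  · left
    exact ⟨⟨by omega, by omega, h5.1, h5.2⟩, Or.inl (by omega)⟩
  · right
    exact ⟨⟨by omega, by omega, h5.1, h5.2⟩, Or.inl (by omega)⟩

end Pool.Agent.Q56.TF
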