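import Pool.Agent.Q56.TF.SpecD2
import Pool.Agent.Q56.TF.SmallC

/-!
# Job SMALLD of project TF (centralD is in StageD)
-/

namespace Pool.Agent.Q56.TF

open Pool.Agent.Q11.TF

set_option maxHeartbeats 4000000

theorem centreD (k l a b x y : ℕ) (hk : 2 ≤ k) (c1 : ¬ Conf (a, b, x, y) (k - 1, k, l, l))
    (c2 : ¬ Conf (a, b, x, y) (k, k + 1, l, l)) :
    (x ≤ l → y ≤ l → a + 1 ≤ k → b = k → False) ∧ (x ≤ l → y ≤ l → a ≤ k → b = k + 1 → False) ∧
    (l ≤ x → l ≤ y → a + 1 = k → k ≤ b → False) ∧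
    (l ≤ x → l ≤ y → a = k → k + 1 ≤ b → False) := by
  obtain ⟨d1, d2⟩ := notConf _ _ _ _ _ _ _ _ c1
  obtain ⟨d3, d4⟩ := notConf _ _ _ _ _ _ _ _ c2
  clear c1 c2
  refine ⟨?_, ?_, ?_, ?_⟩
  · intro h1 h2 h3 h4
    have := d1 (by omega) (by omega) h1 h2
    omega
  · intro h1 h2 h3 h4
    have := d3 (by omega) (by omega) h1 h2
    omega
  · intro h1 h2 h3 h4
    have := d2 (by omega) (by omega) h1 h2
    omega
  · intro h1 h2 h3 h4
    have := d4 (by omega) (by omega) h1 h2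
    omega

theorem specDm (k l e1 e2 a b x y u v : ℕ) (hk : 3 ≤ k) (hl : 3 ≤ l) (hpar : (min k l) % 2 = 1)
    (he : k + e2 = l + e1) (h0 : e1 = 0 ∨ e2 = 0)
    (ha : a ≤ b) (hb : b ≤ 2 * k) (hx : x ≤ y) (hy : y ≤ 2 * l) (hv : a < b ∨ x < y)
    (h1 : labD k l e1 e2 a b x y = (1, u, v, l - 1))
    (c1 : ¬ Conf (a, b, x, y) (k - 1, k, l, l)) (c2 : ¬ Conf (a, b, x, y) (k, k + 1, l, l)) :
    x + 1 = l ∧ y = l + 1 ∧ a = u ∧ b = v := by
  obtain ⟨d1, d2, d3, d4⟩ := centreD k l a b x y (by omega) c1 c2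
  clear c1 c2
  have hs := specD1 k l e1 e2 a b x y u v (l - 1) _ _ hk hl hpar he h0 ha hb hx hy hv rfl rfl h1
  obtain ⟨j1, j2, j3, j4, j5, j6, j7⟩ := jle k a b _ ha hb rfl
  obtain ⟨i1, i2, i3, i4, i5, i6, i7⟩ := jle l x y _ hx hy rfl
  obtain ⟨j, hj⟩ : ∃ j, j = min a (2 * k - b) := ⟨_, rfl⟩
  obtain ⟨i, hi⟩ : ∃ i, i = min x (2 * l - y) := ⟨_, rfl⟩
  rw [← hj, ← hi] at hs
  rw [← hj] at j1 j2 j3 j4
  rw [← hi] at i1 i2 i3 i4
  clear h1 hpar he h0 j5 j6 j7 i5 i6 i7 hj hi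
  rcases hs with h | h | h
  · obtain ⟨_, h⟩ := h
    unfold R1 at h
    rcases h with h | h | h | h
    · exfalso
      rcases h.2.2.2.2.1 with h5 | h5
      · exact d2 (by omega) (by omega) (by omega) h.2.2.1
      · exact d3 (by omega) (by omega) h.2.1 (by omega)
    · obtain ⟨h2, h3, h4, h5, h6⟩ := h
      have hyl : ¬ y ≤ l := by
        intro h7
        by_cases h8 : b = k
        · exact d1 (by omega) h7 (by omega) h8
        · exact d2 (by omega) h7 (by omega) (by omega)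
      have hxl : ¬ l ≤ x := by
        intro h7
        by_cases h8 : a = k
        · exact d4 h7 (by omega) h8 (by omega)
        · exact d3 h7 (by omega) (by omega) (by omega)
      clear d1 d2 d3 d4
      omega
    · exfalso
      by_cases h8 : b = k
      · exact d1 (by omega) (by omega) (by omega) h8
      · exact d2 (by omega) (by omega) (by omega) (by omega)
    · exfalso
      by_cases h8 : a = k
      · exact d4 (by omega) (by omega) h8 (by omega)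
      · exact d3 (by omega) (by omega) (by omega) (by omega)
  · have := h.1
    omega
  · have := h.1
    omega

theorem mergeD : S_mergeD := by
  rintro k l e1 e2 hk hl hpar he h0 ⟨a, b, x, y⟩ ⟨a', b', x', y'⟩ hV hV' h1 h1' c1 c2 c1' c2' hne
  have hp : x + 1 = l ∧ y = l + 1 ∧
      ((a + 1 = k ∧ b = k) ∨ (a + 1 = k ∧ b = k + 1) ∨ (a = k ∧ b = k + 1)) := by
    obtain ⟨g1, g2, g3, g4, g5⟩ := hV
    rcases h1 with h1 | h1 | h1
    · have := specDm k l e1 e2 a b x y (k - 1) k hk hl hpar he h0 g1 g2 g3 g4 g5 h1 c1 c2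
      omega
    · have := specDm k l e1 e2 a b x y (k - 1) (k + 1) hk hl hpar he h0 g1 g2 g3 g4 g5
        h1 c1 c2
      omega
    · have := specDm k l e1 e2 a b x y k (k + 1) hk hl hpar he h0 g1 g2 g3 g4 g5
        h1 c1 c2
      omega
  have hq : x' + 1 = l ∧ y' = l + 1 ∧
      ((a' + 1 = k ∧ b' = k) ∨ (a' + 1 = k ∧ b' = k + 1) ∨ (a' = k ∧ b' = k + 1)) := by
    obtain ⟨g1, g2, g3, g4, g5⟩ := hV'
    rcases h1' with h1 | h1 | h1
    · have := specDm k l e1 e2 a' b' x' y' (k - 1) k hk hl hpar he h0 g1 g2 g3 g4 g5 h1 c1' c2'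
      omega
    · have := specDm k l e1 e2 a' b' x' y' (k - 1) (k + 1) hk hl hpar he h0 g1 g2 g3 g4 g5
        h1 c1' c2'
      omega
    · have := specDm k l e1 e2 a' b' x' y' k (k + 1) hk hl hpar he h0 g1 g2 g3 g4 g5
        h1 c1' c2'
      omega
  clear c1 c2 c1' c2' h1 h1' hne hV hV'
  simp only [Conf, Le, Ov]
  have h5 : (a ≤ a' ∧ b ≤ b') ∨ (a' ≤ a ∧ b' ≤ b) := by omega
  rcases h5 with h5 | h5
  · left
    exact ⟨⟨h5.1, h5.2, by omega, by omega⟩, Or.inr (by omega)⟩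
  · right
    exact ⟨⟨h5.1, h5.2, by omega, by omega⟩, Or.inr (by omega)⟩

theorem repD : S_repD := by
  intro k l e1 e2 hk hl _ he _
  unfold lD
  simp only
  refine ⟨?_, ?_, ?_⟩
  · rw [labD_eq]
    obtain ⟨j, hj⟩ : ∃ j, j = min (k - 1) (2 * k - k) := ⟨_, rfl⟩
    obtain ⟨i, hi⟩ : ∃ i, i = min (l - 1) (2 * l - (l + 1)) := ⟨_, rfl⟩
    rw [← hj, ← hi]
    unfold DD
    rw [if_neg (by omega), if_neg (by omega), if_neg (by omega), if_neg (by omega),
      if_pos (by omega)]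
    unfold D4
    rw [if_pos (by omega)]
  · rw [labD_eq]
    obtain ⟨j, hj⟩ : ∃ j, j = min (k - 1) (2 * k - (k + 1)) := ⟨_, rfl⟩
    obtain ⟨i, hi⟩ : ∃ i, i = min (l - 1) (2 * l - l) := ⟨_, rfl⟩
    rw [← hj, ← hi]
    unfold DD
    rw [if_neg (by omega), if_neg (by omega), if_neg (by omega), if_neg (by omega),
      if_pos (by omega)]
    unfold D4
    rw [if_pos (by omega)]
  · rw [labD_eq]
    obtain ⟨j, hj⟩ : ∃ j, j = min k (2 * k - (k + 1)) := ⟨_, rfl⟩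
    obtain ⟨i, hi⟩ : ∃ i, i = min (l - 1) (2 * l - (l - 1)) := ⟨_, rfl⟩
    rw [← hj, ← hi]
    unfold DD
    rw [if_neg (by omega), if_neg (by omega), if_neg (by omega), if_neg (by omega),
      if_pos (by omega)]
    unfold D4
    rw [if_pos (by omega)]

end Pool.Agent.Q56.TF
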