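import Pool.Agent.Q56.TF.StageD

/-!
# Description of the label classes of labD, tag 0
-/

namespace Pool.Agent.Q56.TF

open Pool.Agent.Q11.TF

set_option maxHeartbeats 4000000

/-- the members of the rows with u = k - 1 -/
def R0 (k l a b x y v w j i : ℕ) : Prop :=
  (a = k ∧ b = k ∧ x + 2 = l ∧ y + 1 = l ∧ v + 2 = l ∧ w + 1 = l) ∨
  (a = k ∧ b = k ∧ x = l + 1 ∧ y = l + 2 ∧ v = l + 1 ∧ w = l + 2) ∨
  (x = l + 1 ∧ y = l + 2 ∧ a + 2 = k ∧ b + 1 ≤ k ∧ v = l + 1 ∧ w = l + 2) ∨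
  (x + 2 = l ∧ y + 1 = l ∧ b = k + 2 ∧ k + 1 ≤ a ∧ v + 2 = l ∧ w + 1 = l) ∨
  (x < y ∧ j + 1 = k ∧ i + 2 = l ∧ v = x ∧ w = y ∧
    ¬ (a + 1 = k ∧ b = k + 1 ∧ (y + 1 = l ∨ x = l + 1))) ∨
  (a + 1 = k ∧ b + 1 = k ∧ i + 1 = l ∧ v + 1 = y ∧ w = l + 2) ∨
  (a = k + 1 ∧ b = k + 1 ∧ i + 1 = l ∧ v + 2 = l ∧ w = x + 1) ∨
  (a + 1 = k ∧ b + 1 = k ∧ i + 3 ≤ l ∧ v + 2 = l ∧ w = y ∧ l ≤ y + 1 ∧ y ≤ l + 2) ∨
  (a = k + 1 ∧ b = k + 1 ∧ i + 3 ≤ l ∧ v = x ∧ w = l + 2 ∧ l ≤ x + 2 ∧ x ≤ l + 1)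

/-- negated conditions of the branches of labD -/
structure Rest (k l a b x y j i : ℕ) : Prop where
  g1 : ¬ (x = l ∧ y = l)
  g2 : ¬ (a = k ∧ b = k)
  g3 : ¬ (j + 2 = k ∧ i + 2 = l ∧ x < y)
  g4 : ¬ (j + 1 = k ∧ i + 2 = l)
  g5 : ¬ (j + 1 = k ∧ i + 1 = l)
  g6 : ¬ (a = b ∧ j + 1 = k ∧ i + 3 ≤ l)
  g7 : ¬ (a = b ∧ j + 2 = k ∧ i + 3 ≤ l)
  g8 : ¬ (x = y ∧ i + 1 = l ∧ j + 2 ≤ k)

theorem jle (k a b j : ℕ) (ha : a ≤ b) (hb : b ≤ 2 * k) (hj : j = min a (2 * k - b)) :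
    j ≤ a ∧ j + b ≤ 2 * k ∧ j ≤ k ∧ (j = a ∨ j + b = 2 * k) ∧ (j = k → a = k ∧ b = k) ∧
    (a = b → 2 * a ≤ 2 * k → j = a) ∧ (a = b → 2 * k < 2 * a → j + a = 2 * k) := by
  refine ⟨by omega, by omega, by omega, by omega, by omega, by omega, by omega⟩

theorem rest0 (k l e1 e2 a b x y u v w j i : ℕ) (hk : 3 ≤ k) (hl : 3 ≤ l)
    (he : k + e2 = l + e1) (h0 : e1 = 0 ∨ e2 = 0)
    (ha : a ≤ b) (hb : b ≤ 2 * k) (hx : x ≤ y) (hy : y ≤ 2 * l) (hv : a < b ∨ x < y)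
    (hj : j = min a (2 * k - b)) (hi : i = min x (2 * l - y))
    (hr : Rest k l a b x y j i)
    (h1 : labB (2 * k) (2 * l) e1 e2 a b x y = (0, u, v, w)) : u + 2 ≤ k := by
  have h2 := specB0 (2 * k) (2 * l) e1 e2 a b x y u v w (by omega) h0 ha hb hx hy hv h1
  clear h1
  obtain ⟨j1, j2, j3, j4, j5, j6, j7⟩ := jle k a b j ha hb hj
  have hu : u = j := by
    clear hi hr he h0 hv
    rcases h2 with h | h | h | h | h
    · obtain ⟨_, h, _⟩ := h
      omega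
    · obtain ⟨h4, _, h5, h6, _⟩ := h
      omega
    · obtain ⟨h4, _, h5, h6, _⟩ := h
      omega
    · obtain ⟨h4, _, h5, h6, _⟩ := h
      omega
    · obtain ⟨h4, _, h5, h6, _⟩ := h
      omega
  have hxy : x < y := by
    rcases h2 with h | h | h | h | h
    · exact h.1
    · exact h.2.1
    · exact h.2.1
    · exact h.2.1
    · exact h.2.1
  have hil : i + 1 ≤ l := by
    clear h2 hr
    omega
  obtain ⟨g1, g2, g3, g4, g5, g6, g7, g8⟩ := hr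
  clear g1 g3 g7 g8 hv
  by_contra hc
  have hjk : j ≠ k := fun h => g2 (j5 h)
  have hj1 : j + 1 = k := by
    clear h2 g2 g4 g5 g6 hi hj
    omega
  have hi1 : i + 3 ≤ l := by
    have e1' : ¬ i + 2 = l := fun h => g4 ⟨hj1, h⟩
    have e2' : ¬ i + 1 = l := fun h => g5 ⟨hj1, h⟩
    omega
  have hab : a ≠ b := fun h => g6 ⟨h, hj1, hi1⟩
  clear g2 g4 g5 g6 j1 j2 j3 j4 j5 j6 j7
  rcases h2 with h | h | h | h | h
  · obtain ⟨_, _, _, _, h7, h8⟩ := h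
    clear hj
    omega
  · exact hab h.1
  · exact hab h.1
  · exact hab h.1
  · exact hab h.1

theorem specD0 (k l e1 e2 a b x y u v w j i : ℕ) (hk : 3 ≤ k) (hl : 3 ≤ l)
    (he : k + e2 = l + e1) (h0 : e1 = 0 ∨ e2 = 0)
    (ha : a ≤ b) (hb : b ≤ 2 * k) (hx : x ≤ y) (hy : y ≤ 2 * l) (hv : a < b ∨ x < y)
    (hj : j = min a (2 * k - b)) (hi : i = min x (2 * l - y))
    (h1 : labD k l e1 e2 a b x y = (0, u, v, w)) :
    (u + 1 = k ∧ R0 k l a b x y v w j i) ∨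
    (u + 2 ≤ k ∧ labB (2 * k) (2 * l) e1 e2 a b x y = (0, u, v, w)) := by
  rw [labD_eq] at h1
  rw [← hj, ← hi] at h1
  unfold R0
  unfold DD at h1
  by_cases g1 : x = l ∧ y = l
  · rw [if_pos g1] at h1
    unfold D0 at h1
    split_ifs at h1
    · simp only [Prod.mk.injEq] at h1
      exact absurd h1.1 (by norm_num)
    · simp only [Prod.mk.injEq] at h1
      exact absurd h1.1 (by norm_num)
  rw [if_neg g1] at h1
  by_cases g2 : a = k ∧ b = k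
  · rw [if_pos g2] at h1
    unfold D1 at h1
    clear g1 he h0 hj hi hv
    split_ifs at h1 <;> simp only [Prod.mk.injEq] at h1
    · exact absurd h1.1 (by norm_num)
    · left; refine ⟨by omega, ?_⟩; left; omega
    · left; refine ⟨by omega, ?_⟩; right; left; omega
    · exact absurd h1.1 (by norm_num)
  rw [if_neg g2] at h1
  by_cases g3 : j + 2 = k ∧ i + 2 = l ∧ x < y
  · rw [if_pos g3] at h1
    unfold D2 at h1
    clear g1 g2 he h0 hv hj hi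
    split_ifs at h1 <;> simp only [Prod.mk.injEq] at h1
    · left; refine ⟨by omega, ?_⟩; right; right; left; omega
    · left; refine ⟨by omega, ?_⟩; right; right; right; left; omega
    · exact absurd h1.1 (by norm_num)
    · exact absurd h1.1 (by norm_num)
  rw [if_neg g3] at h1
  by_cases g4 : j + 1 = k ∧ i + 2 = l
  · rw [if_pos g4] at h1
    unfold D3 at h1
    clear g1 g2 g3 he h0 hv hj hi
    split_ifs at h1 with g5 g6 <;> simp only [Prod.mk.injEq] at h1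
    · exact absurd h1.1 (by norm_num)
    · left; refine ⟨by omega, ?_⟩; right; right; right; right; left
      exact ⟨g5, g4.1, g4.2, h1.2.2.1.symm, h1.2.2.2.symm, g6⟩
    · exact absurd h1.1 (by norm_num)
    · exact absurd h1.1 (by norm_num)
  rw [if_neg g4] at h1
  by_cases g5 : j + 1 = k ∧ i + 1 = l
  · rw [if_pos g5] at h1
    unfold D4 at h1
    obtain ⟨j1, j2, j3, j4, j5, j6, j7⟩ := jle k a b j ha hb hj
    clear g1 g2 g3 g4 he h0 hj hi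
    split_ifs at h1 <;> simp only [Prod.mk.injEq] at h1
    · exact absurd h1.1 (by norm_num)
    · left; refine ⟨by omega, ?_⟩; right; right; right; right; right; left
      refine ⟨?_, ?_, g5.2, ?_, ?_⟩ <;> omega
    · left; refine ⟨by omega, ?_⟩; right; right; right; right; right; right; left
      refine ⟨?_, ?_, g5.2, ?_, ?_⟩ <;> omega
  rw [if_neg g5] at h1
  by_cases g6 : a = b ∧ j + 1 = k ∧ i + 3 ≤ l
  · rw [if_pos g6] at h1
    unfold D5 at h1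
    obtain ⟨j1, j2, j3, j4, j5, j6, j7⟩ := jle k a b j ha hb hj
    clear g1 g2 g3 g4 g5 he h0 hj hi
    split_ifs at h1 <;> simp only [Prod.mk.injEq] at h1
    · exact absurd h1.1 (by norm_num)
    · left; refine ⟨by omega, ?_⟩; right; right; right; right; right; right; right; left
      refine ⟨?_, ?_, g6.2.2, ?_, ?_, ?_, ?_⟩ <;> omega
    · exact absurd h1.1 (by norm_num)
    · left; refine ⟨by omega, ?_⟩; right; right; right; right; right; right; right; right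
      refine ⟨?_, ?_, g6.2.2, ?_, ?_, ?_, ?_⟩ <;> omega
  rw [if_neg g6] at h1
  by_cases g7 : a = b ∧ j + 2 = k ∧ i + 3 ≤ l
  · rw [if_pos g7] at h1
    unfold D6 at h1
    split_ifs at h1 <;> simp only [Prod.mk.injEq] at h1 <;> exact absurd h1.1 (by norm_num)
  rw [if_neg g7] at h1
  by_cases g8 : x = y ∧ i + 1 = l ∧ j + 2 ≤ k
  · rw [if_pos g8] at h1
    unfold D7 at h1
    split_ifs at h1 <;> simp only [Prod.mk.injEq] at h1 <;> exact absurd h1.1 (by norm_num)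
  rw [if_neg g8] at h1
  right
  exact ⟨rest0 k l e1 e2 a b x y u v w j i hk hl he h0 ha hb hx hy hv hj hi
    ⟨g1, g2, g3, g4, g5, g6, g7, g8⟩ h1, h1⟩

end Pool.Agent.Q56.TF
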