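import Pool.Agent.Q56.TF.SpecD0

/-!
# Description of the label classes of labD, the other tags
-/

namespace Pool.Agent.Q56.TF

open Pool.Agent.Q11.TF

set_option maxHeartbeats 4000000

/-- columns with w = l - 1 -/
def R1 (k l a b x y u v j i : ℕ) : Prop :=
  (x < y ∧ a + 1 = k ∧ b = k + 1 ∧ i + 2 = l ∧ (y + 1 = l ∨ x = l + 1) ∧ u + 1 = k ∧ v = k + 1) ∨
  (a < b ∧ j + 1 = k ∧ i + 1 = l ∧ u = a ∧ v = b) ∨
  (x + 1 = l ∧ y + 1 = l ∧ j + 2 ≤ k ∧ k ≤ b ∧ b ≤ k + 1 ∧ u + 1 = b ∧ v = b) ∨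
  (x = l + 1 ∧ y = l + 1 ∧ j + 2 ≤ k ∧ k ≤ a + 1 ∧ a ≤ k ∧ u = a ∧ v = a + 1)

/-- columns with w = l - 2 -/
def R1' (k l a b x y u v j : ℕ) : Prop :=
  (x + 2 = l ∧ y + 2 = l ∧ j + 1 = k ∧ a < b ∧ u + 1 = b ∧ v = k + 3) ∨
  (x = l + 2 ∧ y = l + 2 ∧ j + 1 = k ∧ a < b ∧ u + 3 = k ∧ v = a + 1)

def R2 (k l a b x y u v i : ℕ) : Prop :=
  (a = k ∧ b = k ∧ y = x + 1 ∧ (y + 2 ≤ l ∨ l + 3 ≤ y) ∧ u + 1 = k ∧ v = y) ∨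
  (a + 1 = k ∧ b + 1 = k ∧ i + 3 ≤ l ∧ (y + 2 ≤ l ∨ l + 3 ≤ y) ∧ u + 1 = k ∧ v = y) ∨
  (a = k + 1 ∧ b = k + 1 ∧ i + 3 ≤ l ∧ (x + 3 ≤ l ∨ l + 2 ≤ x) ∧ u + 1 = k ∧ v = x + 1) ∨
  (a + 2 = k ∧ b + 2 = k ∧ i + 3 ≤ l ∧ (y + 2 ≤ l ∨ l + 3 ≤ y) ∧ u + 2 = k ∧ v = y) ∨
  (a = k + 2 ∧ b = k + 2 ∧ i + 3 ≤ l ∧ (x + 3 ≤ l ∨ l + 2 ≤ x) ∧ u + 2 = k ∧ v = x + 1)

def R3 (k l a b x y v j : ℕ) : Prop :=
  (x = l ∧ y = l ∧ b = a + 1 ∧ (b + 1 ≤ k ∨ k + 2 ≤ b) ∧ v = b) ∨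
  (x + 1 = l ∧ y + 1 = l ∧ j + 2 ≤ k ∧ (b + 1 ≤ k ∨ k + 2 ≤ b) ∧ v = b) ∨
  (x = l + 1 ∧ y = l + 1 ∧ j + 2 ≤ k ∧ (a + 2 ≤ k ∨ k + 1 ≤ a) ∧ v = a + 1)

def R6 (k l a b x y u j i : ℕ) : Prop :=
  (j + 2 = k ∧ i + 2 = l ∧ x < y ∧ ¬ (x = l + 1 ∧ y = l + 2 ∧ a + 2 = k ∧ b + 1 ≤ k) ∧
    ¬ (x + 2 = l ∧ y + 1 = l ∧ b = k + 2 ∧ k + 1 ≤ a) ∧ a + b + x + y ≤ 2 * k + 2 * l ∧
    x + y ≤ 2 * l + 2 ∧ u + 2 * l = x + y + 3) ∨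
  (j + 2 = k ∧ i + 2 = l ∧ x < y ∧ ¬ (x = l + 1 ∧ y = l + 2 ∧ a + 2 = k ∧ b + 1 ≤ k) ∧
    ¬ (x + 2 = l ∧ y + 1 = l ∧ b = k + 2 ∧ k + 1 ≤ a) ∧
    (2 * k + 2 * l < a + b + x + y ∨ 2 * l + 2 < x + y) ∧ u = x + y + 2 - 2 * l) ∨
  (a + 2 = k ∧ b + 2 = k ∧ i + 3 ≤ l ∧ l ≤ y + 1 ∧ y ≤ l + 2 ∧ u + l = y + 1) ∨
  (a = k + 2 ∧ b = k + 2 ∧ i + 3 ≤ l ∧ l ≤ x + 2 ∧ x ≤ l + 1 ∧ u + l = x + 4)

theorem parD (k l e1 e2 : ℕ) (hpar : (min k l) % 2 = 1) (he : k + e2 = l + e1)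
    (h0 : e1 = 0 ∨ e2 = 0) (hl : 3 ≤ l) (hk : 3 ≤ k) :
    ∃ r, l = e2 + (2 * r + 1) ∧ k = e1 + (2 * r + 1) ∧ 1 ≤ r := by
  rcases le_total k l with h | h
  · rw [min_eq_left h] at hpar
    exact ⟨k / 2, by omega, by omega, by omega⟩
  · rw [min_eq_right h] at hpar
    exact ⟨l / 2, by omega, by omega, by omega⟩

/-- in the rest case the line i = l - 1 has row labels -/
theorem rowsD (k l e1 e2 a b x y j i : ℕ) (hk : 3 ≤ k) (hl : 3 ≤ l)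
    (hpar : (min k l) % 2 = 1) (he : k + e2 = l + e1) (h0 : e1 = 0 ∨ e2 = 0)
    (hj : j = min a (2 * k - b)) (hi : i = min x (2 * l - y)) (hxy : x < y) (hi1 : i + 1 = l)
    (hj1 : j + 2 ≤ k) : labB (2 * k) (2 * l) e1 e2 a b x y = (0, j, x, y) := by
  rw [labB_eq, ← hj, ← hi]
  unfold B0
  obtain ⟨r, h1, h2, h3⟩ := parD k l e1 e2 hpar he h0 hl hk
  clear hpar hj hi
  rw [if_neg (by omega), if_pos (by omega)]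

theorem rest_i (k l e1 e2 a b x y t u v w j i : ℕ) (hk : 3 ≤ k) (hl : 3 ≤ l)
    (hpar : (min k l) % 2 = 1) (he : k + e2 = l + e1) (h0 : e1 = 0 ∨ e2 = 0)
    (ha : a ≤ b) (hb : b ≤ 2 * k) (hx : x ≤ y) (hy : y ≤ 2 * l)
    (hj : j = min a (2 * k - b)) (hi : i = min x (2 * l - y))
    (hr : Rest k l a b x y j i)
    (h1 : labB (2 * k) (2 * l) e1 e2 a b x y = (t, u, v, w)) (ht : 1 ≤ t) : i + 2 ≤ l := by
  obtain ⟨j1, j2, j3, j4, j5, j6, j7⟩ := jle k a b j ha hb hj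
  obtain ⟨i1, i2, i3, i4, i5, i6, i7⟩ := jle l x y i hx hy hi
  obtain ⟨g1, g2, g3, g4, g5, g6, g7, g8⟩ := hr
  have e1' : i ≠ l := fun h => g1 (i5 h)
  have e2' : j ≠ k := fun h => g2 (j5 h)
  by_contra hc
  have e3' : i + 1 = l := by omega
  have e4' : j + 1 ≠ k := fun h => g5 ⟨h, e3'⟩
  have e5' : j + 2 ≤ k := by omega
  have e6' : x ≠ y := fun h => g8 ⟨h, e3', e5'⟩
  have := rowsD k l e1 e2 a b x y j i hk hl hpar he h0 hj hi (by omega) e3' e5'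
  rw [this] at h1
  simp only [Prod.mk.injEq] at h1
  omega

theorem rest1 (k l e1 e2 a b x y u v w j i : ℕ) (hk : 3 ≤ k) (hl : 3 ≤ l)
    (hpar : (min k l) % 2 = 1) (he : k + e2 = l + e1) (h0 : e1 = 0 ∨ e2 = 0)
    (ha : a ≤ b) (hb : b ≤ 2 * k) (hx : x ≤ y) (hy : y ≤ 2 * l) (hv : a < b ∨ x < y)
    (hj : j = min a (2 * k - b)) (hi : i = min x (2 * l - y))
    (hr : Rest k l a b x y j i)
    (h1 : labB (2 * k) (2 * l) e1 e2 a b x y = (1, u, v, w)) : w + 2 ≤ l := by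
  have hil := rest_i k l e1 e2 a b x y 1 u v w j i hk hl hpar he h0 ha hb hx hy hj hi hr h1 le_rfl
  have h2 := specB1 (2 * k) (2 * l) e1 e2 a b x y u v w (by omega) h0 ha hb hx hy hv h1
  obtain ⟨r, q1, q2, q3⟩ := parD k l e1 e2 hpar he h0 hl hk
  obtain ⟨i1, i2, i3, i4, i5, i6, i7⟩ := jle l x y i hx hy hi
  clear h1 hr hpar hj hi hv i5
  rcases h2 with h | h | h | h | h | h | h | h | h | h | h
  · obtain ⟨_, _, _, h⟩ := h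
    omega
  · obtain ⟨_, h3, h4, h5, _⟩ := h
    omega
  · obtain ⟨_, h3, h4, h5, _, _, h6, h7⟩ := h
    omega
  · obtain ⟨_, h3, h4, h5, _⟩ := h
    omega
  · obtain ⟨_, h3, h4, h5, _, _, h6, h7⟩ := h
    omega
  · obtain ⟨_, h3, h4, h5, _⟩ := h
    omega
  · obtain ⟨_, h3, h4, h5, _⟩ := h
    omega
  · obtain ⟨_, h3, h4, h5, _⟩ := h
    omega
  · obtain ⟨_, h3, h4, h5, _⟩ := h
    omega
  · obtain ⟨_, h3, h4, h5, _⟩ := h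
    omega
  · obtain ⟨_, h3, h4, h5, _⟩ := h
    omega

theorem rest2 (k l e1 e2 a b x y u v w j i : ℕ) (hk : 3 ≤ k) (hl : 3 ≤ l)
    (hpar : (min k l) % 2 = 1) (he : k + e2 = l + e1) (h0 : e1 = 0 ∨ e2 = 0)
    (ha : a ≤ b) (hb : b ≤ 2 * k) (hx : x ≤ y) (hy : y ≤ 2 * l) (hv : a < b ∨ x < y)
    (hj : j = min a (2 * k - b)) (hi : i = min x (2 * l - y))
    (hr : Rest k l a b x y j i)
    (h1 : labB (2 * k) (2 * l) e1 e2 a b x y = (2, u, v, w)) : u + 3 ≤ k := by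
  have hil := rest_i k l e1 e2 a b x y 2 u v w j i hk hl hpar he h0 ha hb hx hy hj hi hr h1
    (by norm_num)
  have h2 := specB2 (2 * k) (2 * l) e1 e2 a b x y u v w (by omega) h0 ha hb hx hy hv h1
  obtain ⟨j1, j2, j3, j4, j5, j6, j7⟩ := jle k a b j ha hb hj
  clear h1 hpar hj hi hv he h0
  obtain ⟨g1, g2, g3, g4, g5, g6, g7, g8⟩ := hr
  have e2' : j ≠ k := fun h => g2 (j5 h)
  have hab : a = b := by
    rcases h2 with h | h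
    · exact h.1
    · exact h.1
  have hxy : x < y := by
    rcases h2 with h | h
    · exact h.2.1
    · exact h.2.1
  have e3' : j + 1 ≠ k := by
    intro h
    by_cases h5 : i + 2 = l
    · exact g4 ⟨h, h5⟩
    · exact g6 ⟨hab, h, by omega⟩
  have e4' : j + 2 ≠ k := by
    intro h
    by_cases h5 : i + 2 = l
    · exact g3 ⟨h, h5, hxy⟩
    · exact g7 ⟨hab, h, by omega⟩
  clear g1 g2 g3 g4 g5 g6 g7 g8
  rcases h2 with h | h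
  · obtain ⟨_, _, h3, h4, _⟩ := h
    have := j6 hab (by omega)
    omega
  · obtain ⟨_, _, h3, h4, _⟩ := h
    have := j7 hab (by omega)
    omega

theorem rest3 (k l e1 e2 a b x y u v w j i : ℕ) (hk : 3 ≤ k) (hl : 3 ≤ l)
    (hpar : (min k l) % 2 = 1) (he : k + e2 = l + e1) (h0 : e1 = 0 ∨ e2 = 0)
    (ha : a ≤ b) (hb : b ≤ 2 * k) (hx : x ≤ y) (hy : y ≤ 2 * l) (hv : a < b ∨ x < y)
    (hj : j = min a (2 * k - b)) (hi : i = min x (2 * l - y))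
    (hr : Rest k l a b x y j i)
    (h1 : labB (2 * k) (2 * l) e1 e2 a b x y = (3, u, v, w)) : False := by
  have hil := rest_i k l e1 e2 a b x y 3 u v w j i hk hl hpar he h0 ha hb hx hy hj hi hr h1
    (by norm_num)
  have h2 := specB3 (2 * k) (2 * l) e1 e2 a b x y u v w (by omega) h0 ha hb hx hy hv h1
  obtain ⟨i1, i2, i3, i4, i5, i6, i7⟩ := jle l x y i hx hy hi
  clear h1 hpar hj hi hv he h0 hr
  rcases h2 with h | h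
  · obtain ⟨_, h3, h4, h5, _, h6, _⟩ := h
    have := i6 h3 (by omega)
    omega
  · obtain ⟨_, h3, h4, h5, _, h6, _⟩ := h
    have := i7 h3 (by omega)
    omega

end Pool.Agent.Q56.TF
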