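import Pool.Agent.Q56.TF.SpecD1

/-!
# Description of the label classes of labD, the other tags, continued
-/

namespace Pool.Agent.Q56.TF

open Pool.Agent.Q11.TF

set_option maxHeartbeats 4000000

theorem casesD (k l e1 e2 a b x y j i : ℕ) (L : Q)
    (hj : j = min a (2 * k - b)) (hi : i = min x (2 * l - y))
    (h1 : labD k l e1 e2 a b x y = L) :
    ((x = l ∧ y = l) ∧ D0 k l a b = L) ∨ ((a = k ∧ b = k) ∧ D1 k l x y = L) ∨
    ((j + 2 = k ∧ i + 2 = l ∧ x < y) ∧ D2 k l a b x y = L) ∨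
    ((j + 1 = k ∧ i + 2 = l) ∧ D3 k l a b x y = L) ∨
    ((j + 1 = k ∧ i + 1 = l) ∧ D4 k l a b x y = L) ∨
    ((a = b ∧ j + 1 = k ∧ i + 3 ≤ l) ∧ D5 k l a x y = L) ∨
    ((a = b ∧ j + 2 = k ∧ i + 3 ≤ l) ∧ D6 k l a x y = L) ∨
    ((x = y ∧ i + 1 = l ∧ j + 2 ≤ k) ∧ D7 k l a b x = L) ∨
    (Rest k l a b x y j i ∧ labB (2 * k) (2 * l) e1 e2 a b x y = L) := by
  rw [labD_eq] at h1
  rw [← hj, ← hi] at h1
  unfold DD at h1
  by_cases g1 : x = l ∧ y = l
  · rw [if_pos g1] at h1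
    left
    exact ⟨g1, h1⟩
  rw [if_neg g1] at h1
  right
  by_cases g2 : a = k ∧ b = k
  · rw [if_pos g2] at h1
    left
    exact ⟨g2, h1⟩
  rw [if_neg g2] at h1
  right
  by_cases g3 : j + 2 = k ∧ i + 2 = l ∧ x < y
  · rw [if_pos g3] at h1
    left
    exact ⟨g3, h1⟩
  rw [if_neg g3] at h1
  right
  by_cases g4 : j + 1 = k ∧ i + 2 = l
  · rw [if_pos g4] at h1
    left
    exact ⟨g4, h1⟩
  rw [if_neg g4] at h1
  right
  by_cases g5 : j + 1 = k ∧ i + 1 = l
  · rw [if_pos g5] at h1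
    left
    exact ⟨g5, h1⟩
  rw [if_neg g5] at h1
  right
  by_cases g6 : a = b ∧ j + 1 = k ∧ i + 3 ≤ l
  · rw [if_pos g6] at h1
    left
    exact ⟨g6, h1⟩
  rw [if_neg g6] at h1
  right
  by_cases g7 : a = b ∧ j + 2 = k ∧ i + 3 ≤ l
  · rw [if_pos g7] at h1
    left
    exact ⟨g7, h1⟩
  rw [if_neg g7] at h1
  right
  by_cases g8 : x = y ∧ i + 1 = l ∧ j + 2 ≤ k
  · rw [if_pos g8] at h1
    left
    exact ⟨g8, h1⟩
  rw [if_neg g8] at h1
  right
  exact ⟨⟨g1, g2, g3, g4, g5, g6, g7, g8⟩, h1⟩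

theorem specD1 (k l e1 e2 a b x y u v w j i : ℕ) (hk : 3 ≤ k) (hl : 3 ≤ l)
    (hpar : (min k l) % 2 = 1) (he : k + e2 = l + e1) (h0 : e1 = 0 ∨ e2 = 0)
    (ha : a ≤ b) (hb : b ≤ 2 * k) (hx : x ≤ y) (hy : y ≤ 2 * l) (hv : a < b ∨ x < y)
    (hj : j = min a (2 * k - b)) (hi : i = min x (2 * l - y))
    (h1 : labD k l e1 e2 a b x y = (1, u, v, w)) :
    (w + 1 = l ∧ R1 k l a b x y u v j i) ∨ (w + 2 = l ∧ R1' k l a b x y u v j) ∨
    (w + 2 ≤ l ∧ labB (2 * k) (2 * l) e1 e2 a b x y = (1, u, v, w)) := by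
  obtain ⟨j1, j2, j3, j4, j5, j6, j7⟩ := jle k a b j ha hb hj
  obtain ⟨i1, i2, i3, i4, i5, i6, i7⟩ := jle l x y i hx hy hi
  rcases casesD k l e1 e2 a b x y j i _ hj hi h1 with h | h | h | h | h | h | h | h | h
  · obtain ⟨h, h2⟩ := h
    clear h1 hj hi j5 j6 j7 i5 i6 i7
    unfold D0 at h2
    split_ifs at h2 <;> simp only [Prod.mk.injEq] at h2 <;> exact absurd h2.1 (by norm_num)
  · obtain ⟨h, h2⟩ := h
    clear h1 hj hi j5 j6 j7 i5 i6 i7
    unfold D1 at h2
    split_ifs at h2 <;> simp only [Prod.mk.injEq] at h2 <;> exact absurd h2.1 (by norm_num)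
  · obtain ⟨h, h2⟩ := h
    clear h1 hj hi j5 j6 j7 i5 i6 i7
    unfold D2 at h2
    split_ifs at h2 <;> simp only [Prod.mk.injEq] at h2 <;> exact absurd h2.1 (by norm_num)
  · obtain ⟨h, h2⟩ := h
    clear h1 hj hi j5 j6 j7 i5 i6 i7 hpar he h0
    unfold D3 at h2
    split_ifs at h2 with g1 g2 g3 <;> simp only [Prod.mk.injEq] at h2
    · left; refine ⟨by omega, ?_⟩; unfold R1; left; omega
    · exact absurd h2.1 (by norm_num)
    · right; left; refine ⟨by omega, ?_⟩; unfold R1'; left; omega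
    · right; left; refine ⟨by omega, ?_⟩; unfold R1'; right; omega
  · obtain ⟨h, h2⟩ := h
    clear h1 hj hi j5 j6 j7 i5 i6 i7 hpar he h0
    unfold D4 at h2
    split_ifs at h2 with g1 g2 <;> simp only [Prod.mk.injEq] at h2
    · left; refine ⟨by omega, ?_⟩; unfold R1; right; left; omega
    · exact absurd h2.1 (by norm_num)
    · exact absurd h2.1 (by norm_num)
  · obtain ⟨h, h2⟩ := h
    clear h1 hj hi j5 j6 j7 i5 i6 i7
    unfold D5 at h2
    split_ifs at h2 <;> simp only [Prod.mk.injEq] at h2 <;> exact absurd h2.1 (by norm_num)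
  · obtain ⟨h, h2⟩ := h
    clear h1 hj hi j5 j6 j7 i5 i6 i7
    unfold D6 at h2
    split_ifs at h2 <;> simp only [Prod.mk.injEq] at h2 <;> exact absurd h2.1 (by norm_num)
  · obtain ⟨h, h2⟩ := h
    clear h1 hj hi j5 j6 j7 i5 hpar he h0
    unfold D7 at h2
    split_ifs at h2 with g1 g2 g2 <;> simp only [Prod.mk.injEq] at h2
    · exact absurd h2.1 (by norm_num)
    · left; refine ⟨by omega, ?_⟩; unfold R1; right; right; left; omega
    · exact absurd h2.1 (by norm_num)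
    · left; refine ⟨by omega, ?_⟩; unfold R1; right; right; right; omega
  · obtain ⟨h, h2⟩ := h
    right; right
    exact ⟨rest1 k l e1 e2 a b x y u v w j i hk hl hpar he h0 ha hb hx hy hv hj hi h h2, h2⟩

theorem specD2 (k l e1 e2 a b x y u v w j i : ℕ) (hk : 3 ≤ k) (hl : 3 ≤ l)
    (hpar : (min k l) % 2 = 1) (he : k + e2 = l + e1) (h0 : e1 = 0 ∨ e2 = 0)
    (ha : a ≤ b) (hb : b ≤ 2 * k) (hx : x ≤ y) (hy : y ≤ 2 * l) (hv : a < b ∨ x < y)
    (hj : j = min a (2 * k - b)) (hi : i = min x (2 * l - y))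
    (h1 : labD k l e1 e2 a b x y = (2, u, v, w)) :
    (k ≤ u + 2 ∧ R2 k l a b x y u v i) ∨
    (u + 3 ≤ k ∧ labB (2 * k) (2 * l) e1 e2 a b x y = (2, u, v, w)) := by
  obtain ⟨j1, j2, j3, j4, j5, j6, j7⟩ := jle k a b j ha hb hj
  obtain ⟨i1, i2, i3, i4, i5, i6, i7⟩ := jle l x y i hx hy hi
  rcases casesD k l e1 e2 a b x y j i _ hj hi h1 with h | h | h | h | h | h | h | h | h
  · obtain ⟨h, h2⟩ := h
    unfold D0 at h2
    split_ifs at h2 <;> simp only [Prod.mk.injEq] at h2 <;> exact absurd h2.1 (by norm_num)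
  · obtain ⟨h, h2⟩ := h
    clear h1 hj hi j5 j6 j7 i5 i6 i7 hpar he h0
    unfold D1 at h2
    split_ifs at h2 with g1 g2 g3 <;> simp only [Prod.mk.injEq] at h2
    · left; refine ⟨by omega, ?_⟩; unfold R2; left
      exact ⟨h.1, h.2, g1.1, g1.2, by omega, h2.2.2.1.symm⟩
    · exact absurd h2.1 (by norm_num)
    · exact absurd h2.1 (by norm_num)
    · exact absurd h2.1 (by norm_num)
  · obtain ⟨h, h2⟩ := h
    unfold D2 at h2
    split_ifs at h2 <;> simp only [Prod.mk.injEq] at h2 <;> exact absurd h2.1 (by norm_num)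
  · obtain ⟨h, h2⟩ := h
    unfold D3 at h2
    split_ifs at h2 <;> simp only [Prod.mk.injEq] at h2 <;> exact absurd h2.1 (by norm_num)
  · obtain ⟨h, h2⟩ := h
    unfold D4 at h2
    split_ifs at h2 <;> simp only [Prod.mk.injEq] at h2 <;> exact absurd h2.1 (by norm_num)
  · obtain ⟨h, h2⟩ := h
    clear h1 hj hi i5 i6 i7 hpar he h0
    unfold D5 at h2
    split_ifs at h2 with g1 g2 g2 <;> simp only [Prod.mk.injEq] at h2
    · left; refine ⟨by omega, ?_⟩; unfold R2; right; left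
      have := j6 h.1 (by omega)
      exact ⟨by omega, by omega, h.2.2, g2, by omega, h2.2.2.1.symm⟩
    · exact absurd h2.1 (by norm_num)
    · left; refine ⟨by omega, ?_⟩; unfold R2; right; right; left
      have : j + a = 2 * k := by omega
      exact ⟨by omega, by omega, h.2.2, g2, by omega, h2.2.2.1.symm⟩
    · exact absurd h2.1 (by norm_num)
  · obtain ⟨h, h2⟩ := h
    clear h1 hj hi i5 i6 i7 hpar he h0
    unfold D6 at h2
    split_ifs at h2 with g1 g2 g2 <;> simp only [Prod.mk.injEq] at h2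
    · left; refine ⟨by omega, ?_⟩; unfold R2; right; right; right; left
      have := j6 h.1 (by omega)
      exact ⟨by omega, by omega, h.2.2, g2, by omega, h2.2.2.1.symm⟩
    · exact absurd h2.1 (by norm_num)
    · left; refine ⟨by omega, ?_⟩; unfold R2; right; right; right; right
      have : j + a = 2 * k := by omega
      exact ⟨by omega, by omega, h.2.2, g2, by omega, h2.2.2.1.symm⟩
    · exact absurd h2.1 (by norm_num)
  · obtain ⟨h, h2⟩ := h
    unfold D7 at h2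
    split_ifs at h2 <;> simp only [Prod.mk.injEq] at h2 <;> exact absurd h2.1 (by norm_num)
  · obtain ⟨h, h2⟩ := h
    right
    exact ⟨rest2 k l e1 e2 a b x y u v w j i hk hl hpar he h0 ha hb hx hy hv hj hi h h2, h2⟩

theorem specD3 (k l e1 e2 a b x y u v w j i : ℕ) (hk : 3 ≤ k) (hl : 3 ≤ l)
    (hpar : (min k l) % 2 = 1) (he : k + e2 = l + e1) (h0 : e1 = 0 ∨ e2 = 0)
    (ha : a ≤ b) (hb : b ≤ 2 * k) (hx : x ≤ y) (hy : y ≤ 2 * l) (hv : a < b ∨ x < y)
    (hj : j = min a (2 * k - b)) (hi : i = min x (2 * l - y))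
    (h1 : labD k l e1 e2 a b x y = (3, u, v, w)) : R3 k l a b x y v j := by
  obtain ⟨j1, j2, j3, j4, j5, j6, j7⟩ := jle k a b j ha hb hj
  obtain ⟨i1, i2, i3, i4, i5, i6, i7⟩ := jle l x y i hx hy hi
  rcases casesD k l e1 e2 a b x y j i _ hj hi h1 with h | h | h | h | h | h | h | h | h
  · obtain ⟨h, h2⟩ := h
    clear h1 hj hi j5 j6 j7 i5 i6 i7 hpar he h0
    unfold D0 at h2
    split_ifs at h2 with g1 <;> simp only [Prod.mk.injEq] at h2
    · unfold R3; left
      exact ⟨h.1, h.2, g1.1, g1.2, h2.2.2.1.symm⟩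
    · exact absurd h2.1 (by norm_num)
  · obtain ⟨h, h2⟩ := h
    unfold D1 at h2
    split_ifs at h2 <;> simp only [Prod.mk.injEq] at h2 <;> exact absurd h2.1 (by norm_num)
  · obtain ⟨h, h2⟩ := h
    unfold D2 at h2
    split_ifs at h2 <;> simp only [Prod.mk.injEq] at h2 <;> exact absurd h2.1 (by norm_num)
  · obtain ⟨h, h2⟩ := h
    unfold D3 at h2
    split_ifs at h2 <;> simp only [Prod.mk.injEq] at h2 <;> exact absurd h2.1 (by norm_num)
  · obtain ⟨h, h2⟩ := h
    unfold D4 at h2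
    split_ifs at h2 <;> simp only [Prod.mk.injEq] at h2 <;> exact absurd h2.1 (by norm_num)
  · obtain ⟨h, h2⟩ := h
    unfold D5 at h2
    split_ifs at h2 <;> simp only [Prod.mk.injEq] at h2 <;> exact absurd h2.1 (by norm_num)
  · obtain ⟨h, h2⟩ := h
    unfold D6 at h2
    split_ifs at h2 <;> simp only [Prod.mk.injEq] at h2 <;> exact absurd h2.1 (by norm_num)
  · obtain ⟨h, h2⟩ := h
    clear h1 hj hi j5 j6 j7 i5 hpar he h0
    unfold D7 at h2
    split_ifs at h2 with g1 g2 g2 <;> simp only [Prod.mk.injEq] at h2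
    · unfold R3; right; left
      exact ⟨by omega, by omega, h.2.2, g2, h2.2.2.1.symm⟩
    · exact absurd h2.1 (by norm_num)
    · unfold R3; right; right
      exact ⟨by omega, by omega, h.2.2, g2, h2.2.2.1.symm⟩
    · exact absurd h2.1 (by norm_num)
  · obtain ⟨h, h2⟩ := h
    exact absurd h2 (fun h2 =>
      rest3 k l e1 e2 a b x y u v w j i hk hl hpar he h0 ha hb hx hy hv hj hi h h2)

theorem specD6 (k l e1 e2 a b x y u v w j i : ℕ) (hk : 3 ≤ k) (hl : 3 ≤ l)
    (ha : a ≤ b) (hb : b ≤ 2 * k) (hx : x ≤ y) (hy : y ≤ 2 * l)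
    (hj : j = min a (2 * k - b)) (hi : i = min x (2 * l - y))
    (h1 : labD k l e1 e2 a b x y = (6, u, v, w)) : R6 k l a b x y u j i := by
  obtain ⟨j1, j2, j3, j4, j5, j6, j7⟩ := jle k a b j ha hb hj
  obtain ⟨i1, i2, i3, i4, i5, i6, i7⟩ := jle l x y i hx hy hi
  rcases casesD k l e1 e2 a b x y j i _ hj hi h1 with h | h | h | h | h | h | h | h | h
  · obtain ⟨h, h2⟩ := h
    unfold D0 at h2
    split_ifs at h2 <;> simp only [Prod.mk.injEq] at h2 <;> exact absurd h2.1 (by norm_num)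
  · obtain ⟨h, h2⟩ := h
    unfold D1 at h2
    split_ifs at h2 <;> simp only [Prod.mk.injEq] at h2 <;> exact absurd h2.1 (by norm_num)
  · obtain ⟨h, h2⟩ := h
    clear h1 hj hi j5 j6 j7 i5 i6 i7
    unfold D2 at h2
    split_ifs at h2 with g1 g2 g3 <;> simp only [Prod.mk.injEq] at h2
    · exact absurd h2.1 (by norm_num)
    · exact absurd h2.1 (by norm_num)
    · unfold R6; left
      refine ⟨h.1, h.2.1, h.2.2, g1, g2, g3.1, g3.2, ?_⟩
      clear g1 g2
      omega
    · unfold R6; right; left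
      refine ⟨h.1, h.2.1, h.2.2, g1, g2, ?_, ?_⟩
      · clear g1 g2
        omega
      · clear g1 g2 g3
        omega
  · obtain ⟨h, h2⟩ := h
    unfold D3 at h2
    split_ifs at h2 <;> simp only [Prod.mk.injEq] at h2 <;> exact absurd h2.1 (by norm_num)
  · obtain ⟨h, h2⟩ := h
    unfold D4 at h2
    split_ifs at h2 <;> simp only [Prod.mk.injEq] at h2 <;> exact absurd h2.1 (by norm_num)
  · obtain ⟨h, h2⟩ := h
    unfold D5 at h2
    split_ifs at h2 <;> simp only [Prod.mk.injEq] at h2 <;> exact absurd h2.1 (by norm_num)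
  · obtain ⟨h, h2⟩ := h
    clear h1 hj hi i5 i6 i7
    unfold D6 at h2
    split_ifs at h2 with g1 g2 g2 <;> simp only [Prod.mk.injEq] at h2
    · exact absurd h2.1 (by norm_num)
    · unfold R6; right; right; left
      have := j6 h.1 (by omega)
      exact ⟨by omega, by omega, h.2.2, by omega, by omega, by omega⟩
    · exact absurd h2.1 (by norm_num)
    · unfold R6; right; right; right
      have : j + a = 2 * k := by omega
      exact ⟨by omega, by omega, h.2.2, by omega, by omega, by omega⟩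
  · obtain ⟨h, h2⟩ := h
    unfold D7 at h2
    split_ifs at h2 <;> simp only [Prod.mk.injEq] at h2 <;> exact absurd h2.1 (by norm_num)
  · obtain ⟨h, h2⟩ := h
    have := tagB (2 * k) (2 * l) e1 e2 a b x y
    rw [h2] at this
    exact absurd this (by norm_num)

theorem specD45 (k l e1 e2 a b x y t u v w j i : ℕ)
    (hj : j = min a (2 * k - b)) (hi : i = min x (2 * l - y)) (ht : t = 4 ∨ t = 5)
    (h1 : labD k l e1 e2 a b x y = (t, u, v, w)) :
    labB (2 * k) (2 * l) e1 e2 a b x y = (t, u, v, w) := by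
  rcases casesD k l e1 e2 a b x y j i _ hj hi h1 with h | h | h | h | h | h | h | h | h
  · obtain ⟨h, h2⟩ := h
    unfold D0 at h2
    split_ifs at h2 <;> simp only [Prod.mk.injEq] at h2 <;> omega
  · obtain ⟨h, h2⟩ := h
    unfold D1 at h2
    split_ifs at h2 <;> simp only [Prod.mk.injEq] at h2 <;> omega
  · obtain ⟨h, h2⟩ := h
    unfold D2 at h2
    clear hj hi h h1
    split_ifs at h2 <;> simp only [Prod.mk.injEq] at h2 <;> omega
  · obtain ⟨h, h2⟩ := h
    unfold D3 at h2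
    split_ifs at h2 <;> simp only [Prod.mk.injEq] at h2 <;> omega
  · obtain ⟨h, h2⟩ := h
    unfold D4 at h2
    split_ifs at h2 <;> simp only [Prod.mk.injEq] at h2 <;> omega
  · obtain ⟨h, h2⟩ := h
    unfold D5 at h2
    split_ifs at h2 <;> simp only [Prod.mk.injEq] at h2 <;> omega
  · obtain ⟨h, h2⟩ := h
    unfold D6 at h2
    split_ifs at h2 <;> simp only [Prod.mk.injEq] at h2 <;> omega
  · obtain ⟨h, h2⟩ := h
    unfold D7 at h2
    split_ifs at h2 <;> simp only [Prod.mk.injEq] at h2 <;> omega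
  · exact h.2

end Pool.Agent.Q56.TF
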