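import Pool.Agent.Q11.TF.CliqueB

/-!
# labD in stages; the label classes of labD that come from labB and those that do not
-/

namespace Pool.Agent.Q56.TF

open Pool.Agent.Q11.TF

set_option maxHeartbeats 4000000

def D0 (k l a b : ℕ) : Q :=
  if b = a + 1 ∧ (b + 1 ≤ k ∨ k + 2 ≤ b) then (3, l - 1, b, 0) else (8, 0, 0, 0)

def D1 (k l x y : ℕ) : Q :=
  if y = x + 1 ∧ (y + 2 ≤ l ∨ l + 3 ≤ y) then (2, k - 1, y, 0)
     else if y = x + 1 ∧ y + 1 = l then (0, k - 1, l - 2, l - 1)
     else if y = x + 1 ∧ y = l + 2 then (0, k - 1, l + 1, l + 2)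
     else (7, 0, 0, 0)

def D2 (k l a b x y : ℕ) : Q :=
  if x = l + 1 ∧ y = l + 2 ∧ a + 2 = k ∧ b + 1 ≤ k then (0, k - 1, l + 1, l + 2)
     else if x + 2 = l ∧ y + 1 = l ∧ b = k + 2 ∧ k + 1 ≤ a then (0, k - 1, l - 2, l - 1)
     else if a + b + x + y ≤ 2 * k + 2 * l ∧ x + y ≤ 2 * l + 2 then (6, x + y + 3 - 2 * l, 0, 0)
     else (6, x + y + 2 - 2 * l, 0, 0)

def D3 (k l a b x y : ℕ) : Q :=
  if x < y then
      (if a + 1 = k ∧ b = k + 1 ∧ (y + 1 = l ∨ x = l + 1) then (1, k - 1, k + 1, l - 1)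
       else (0, k - 1, x, y))
     else if x < l then (1, b - 1, k + 3, l - 2)
     else (1, k - 3, a + 1, l - 2)

def D4 (k l a b x y : ℕ) : Q :=
  if a < b then (1, a, b, l - 1)
     else if a < k then (0, k - 1, y - 1, l + 2)
     else (0, k - 1, l - 2, x + 1)

def D5 (k l a x y : ℕ) : Q :=
  if a < k then
      (if y + 2 ≤ l ∨ l + 3 ≤ y then (2, k - 1, y, 0) else (0, k - 1, l - 2, y))
     else
      (if x + 3 ≤ l ∨ l + 2 ≤ x then (2, k - 1, x + 1, 0) else (0, k - 1, x, l + 2))

def D6 (k l a x y : ℕ) : Q :=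
  if a < k then
      (if y + 2 ≤ l ∨ l + 3 ≤ y then (2, k - 2, y, 0) else (6, y + 1 - l, 0, 0))
     else
      (if x + 3 ≤ l ∨ l + 2 ≤ x then (2, k - 2, x + 1, 0) else (6, x + 4 - l, 0, 0))

def D7 (k l a b x : ℕ) : Q :=
  if x < l then
      (if b + 1 ≤ k ∨ k + 2 ≤ b then (3, l - 1, b, 0)
       else (1, b - 1, b, l - 1))
     else
      (if a + 2 ≤ k ∨ k + 1 ≤ a then (3, l - 1, a + 1, 0)
       else (1, a, a + 1, l - 1))

def DD (k l e1 e2 a b x y j i : ℕ) : Q :=
  if x = l ∧ y = l then D0 k l a b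
  else if a = k ∧ b = k then D1 k l x y
  else if j + 2 = k ∧ i + 2 = l ∧ x < y then D2 k l a b x y
  else if j + 1 = k ∧ i + 2 = l then D3 k l a b x y
  else if j + 1 = k ∧ i + 1 = l then D4 k l a b x y
  else if a = b ∧ j + 1 = k ∧ i + 3 ≤ l then D5 k l a x y
  else if a = b ∧ j + 2 = k ∧ i + 3 ≤ l then D6 k l a x y
  else if x = y ∧ i + 1 = l ∧ j + 2 ≤ k then D7 k l a b x
  else labB (2 * k) (2 * l) e1 e2 a b x y

theorem labD_eq (k l e1 e2 a b x y : ℕ) :
    labD k l e1 e2 a b x y = DD k l e1 e2 a b x y (min a (2 * k - b)) (min x (2 * l - y)) := rfl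

theorem centralD : S_centralD := by
  rintro k l e1 e2 hk hl ⟨a, b, x, y⟩ hV
  have ht := tagB (2 * k) (2 * l) e1 e2 a b x y
  unfold Val at hV
  simp only at hV
  unfold lD
  simp only
  rw [labD_eq]
  obtain ⟨j, hj⟩ : ∃ j, j = min a (2 * k - b) := ⟨_, rfl⟩
  obtain ⟨i, hi⟩ : ∃ i, i = min x (2 * l - y) := ⟨_, rfl⟩
  rw [← hj, ← hi]
  unfold DD
  obtain ⟨L, hL⟩ : ∃ L : Q, L = labB (2 * k) (2 * l) e1 e2 a b x y := ⟨_, rfl⟩
  rw [← hL] at ht ⊢
  clear hL
  by_cases g1 : x = l ∧ y = l
  · rw [if_pos g1]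
    unfold D0
    split_ifs with g2
    · constructor
      · constructor <;> intro h
        · exact absurd h (by norm_num)
        · omega
      · constructor <;> intro h
        · exact absurd h (by norm_num)
        · omega
    · constructor
      · constructor <;> intro h
        · exact absurd h (by norm_num)
        · omega
      · constructor <;> intro h
        · omega
        · rfl
  rw [if_neg g1]
  by_cases g2 : a = k ∧ b = k
  · rw [if_pos g2]
    unfold D1
    split_ifs with g3 g4 g5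
    · constructor <;> constructor <;> intro h
      · exact absurd h (by norm_num)
      · omega
      · exact absurd h (by norm_num)
      · omega
    · constructor <;> constructor <;> intro h
      · exact absurd h (by norm_num)
      · omega
      · exact absurd h (by norm_num)
      · omega
    · constructor <;> constructor <;> intro h
      · exact absurd h (by norm_num)
      · omega
      · exact absurd h (by norm_num)
      · omega
    · constructor <;> constructor <;> intro h
      · omega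
      · rfl
      · exact absurd h (by norm_num)
      · omega
  rw [if_neg g2]
  have key : ∀ M : Q, M.1 ≤ 6 →
      (M.1 = 7 ↔ a = k ∧ b = k ∧ (y ≠ x + 1 ∨ y = l ∨ y = l + 1)) ∧
      (M.1 = 8 ↔ x = l ∧ y = l ∧ (b ≠ a + 1 ∨ b = k ∨ b = k + 1)) := by
    intro M hM
    constructor <;> constructor <;> intro h
    · omega
    · exact absurd ⟨h.1, h.2.1⟩ g2
    · omega
    · exact absurd ⟨h.1, h.2.1⟩ g1
  apply key
  clear key
  split_ifs
  · unfold D2
    split_ifs <;> simp
  · unfold D3
    split_ifs <;> simp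
  · unfold D4
    split_ifs <;> simp
  · unfold D5
    split_ifs <;> simp
  · unfold D6
    split_ifs <;> simp
  · unfold D7
    split_ifs <;> simp
  · omega

end Pool.Agent.Q56.TF
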