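import Pool.Agent.Q11.TF.Stm
import Pool.Agent.Q56.TF.Charge

/-!
# Job TWO of project TF: the upper bound for m = 2, n = 2 k
-/

namespace Pool.Agent.Q56.TF

open Pool.Agent.Q11.TF
open Finset

theorem str {S : Finset Q} (hS : Strong S) {a b x y a' b' x' y' : ℕ}
    (h : ((a, b, x, y) : Q) ∈ S) (h' : ((a', b', x', y') : Q) ∈ S)
    (hne : ¬ (a = a' ∧ b = b' ∧ x = x' ∧ y = y')) (h1 : a ≤ a') (h2 : b ≤ b') (h3 : x ≤ x')
    (h4 : y ≤ y') : b ≤ a' ∧ y ≤ x' := by
  apply hS _ h _ h' _ ⟨h1, h2, h3, h4⟩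
  intro he
  apply hne
  simpa [Prod.mk.injEq] using he

theorem two_part2 (k : ℕ) (S : Finset Q) (hV : ∀ p ∈ S, Val (2 * k) 2 p) (hS : Strong S) :
    (S.filter (fun p => p.2.2.1 = p.2.2.2 ∧ (p.2.2.1 ≠ 1 ∨ p.2.1 = p.1 + 1))).card ≤ 2 * k := by
  have h : (S.filter (fun p => p.2.2.1 = p.2.2.2 ∧ (p.2.2.1 ≠ 1 ∨ p.2.1 = p.1 + 1))).card ≤
      (Icc 1 (2 * k)).card := by
    apply card_le_card_of_injOn (fun p => if p.2.2.1 = 2 then p.1 + 1 else p.2.1)
    · rintro ⟨a, b, x, y⟩ hp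
      obtain ⟨h1, h2⟩ := mem_filter.1 (mem_coe.1 hp)
      have h3 := hV _ h1
      unfold Val at h3
      simp only at h2 h3
      rw [mem_coe, mem_Icc]
      simp only
      split_ifs <;> omega
    · rintro ⟨a, b, x, y⟩ hp ⟨a', b', x', y'⟩ hq hpq
      obtain ⟨h1, h2⟩ := mem_filter.1 (mem_coe.1 hp)
      obtain ⟨h1', h2'⟩ := mem_filter.1 (mem_coe.1 hq)
      have h3 := hV _ h1
      have h3' := hV _ h1'
      unfold Val at h3 h3'
      simp only at h2 h3 h2' h3' hpq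
      by_contra hne
      have hne1 : ¬ (a = a' ∧ b = b' ∧ x = x' ∧ y = y') := by
        intro he
        apply hne
        simpa [Prod.mk.injEq] using he
      have e1 := str hS h1 h1' hne1
      have e2 := str hS h1' h1 (by omega)
      split_ifs at hpq <;> omega
  rw [Nat.card_Icc] at h
  omega

theorem two_part3 (k : ℕ) (S : Finset Q) (hV : ∀ p ∈ S, Val (2 * k) 2 p) (hS : Strong S) :
    (S.filter (fun p => p.2.2.1 = p.2.2.2 ∧ ¬ (p.2.2.1 ≠ 1 ∨ p.2.1 = p.1 + 1))).card ≤ k := by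
  classical
  have h := charge (2 * k) ((S.filter (fun p => p.2.2.1 = 1 ∧ p.2.2.2 = 1)).image
    (fun p => (p.1, p.2.1))) (by
      intro t ht
      obtain ⟨⟨a, b, x, y⟩, hp, rfl⟩ := mem_image.1 ht
      obtain ⟨h1, h2⟩ := mem_filter.1 hp
      have h3 := hV _ h1
      unfold Val at h3
      simp only at h2 h3 ⊢
      omega) (by
      intro t ht u hu htu h5 h6
      obtain ⟨⟨a, b, x, y⟩, hp, rfl⟩ := mem_image.1 ht
      obtain ⟨⟨a', b', x', y'⟩, hq, rfl⟩ := mem_image.1 hu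
      obtain ⟨h1, h2⟩ := mem_filter.1 hp
      obtain ⟨h1', h2'⟩ := mem_filter.1 hq
      simp only at h2 h2' h5 h6 ⊢
      have hne1 : ¬ (a = a' ∧ b = b' ∧ x = x' ∧ y = y') := by
        intro he
        apply htu
        simp only [Prod.mk.injEq]
        omega
      exact (str hS h1 h1' hne1 h5 h6 (by omega) (by omega)).1)
  have h2 : (S.filter (fun p => p.2.2.1 = p.2.2.2 ∧
      ¬ (p.2.2.1 ≠ 1 ∨ p.2.1 = p.1 + 1))).card ≤
      (((S.filter (fun p => p.2.2.1 = 1 ∧ p.2.2.2 = 1)).image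
    (fun p => (p.1, p.2.1))).filter (fun t => t.2 ≠ t.1 + 1)).card := by
    apply card_le_card_of_injOn (fun p => (p.1, p.2.1))
    · rintro ⟨a, b, x, y⟩ hp
      obtain ⟨h1, h2⟩ := mem_filter.1 (mem_coe.1 hp)
      simp only at h2
      rw [mem_coe, mem_filter, mem_image]
      refine ⟨⟨(a, b, x, y), ?_, rfl⟩, ?_⟩
      · rw [mem_filter]
        refine ⟨h1, ?_⟩
        simp only
        omega
      · simp only
        omega
    · rintro ⟨a, b, x, y⟩ hp ⟨a', b', x', y'⟩ hq hpq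
      obtain ⟨h1, h2⟩ := mem_filter.1 (mem_coe.1 hp)
      obtain ⟨h1', h2'⟩ := mem_filter.1 (mem_coe.1 hq)
      simp only [Prod.mk.injEq] at h2 h2' hpq ⊢
      omega
  omega

/-- rows below j = k - 1 -/
theorem two_part1 (k r : ℕ) (_hr : r ≤ k) (S : Finset Q) (hV : ∀ p ∈ S, Val (2 * k) 2 p)
    (hS : Strong S) :
    (S.filter (fun p => p.2.2.1 < p.2.2.2 ∧ min p.1 (2 * k - p.2.1) < r)).card ≤ 3 * r := by
  have h : (S.filter (fun p => p.2.2.1 < p.2.2.2 ∧ min p.1 (2 * k - p.2.1) < r)).card ≤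
      (range (3 * r)).card := by
    apply card_le_card_of_injOn
      (fun p => 3 * min p.1 (2 * k - p.2.1) + (p.2.2.1 + p.2.2.2 - 1))
    · rintro ⟨a, b, x, y⟩ hp
      obtain ⟨h1, h2⟩ := mem_filter.1 (mem_coe.1 hp)
      have h3 := hV _ h1
      unfold Val at h3
      simp only at h2 h3
      rw [mem_coe, mem_range]
      simp only
      omega
    · rintro ⟨a, b, x, y⟩ hp ⟨a', b', x', y'⟩ hq hpq
      obtain ⟨h1, h2⟩ := mem_filter.1 (mem_coe.1 hp)
      obtain ⟨h1', h2'⟩ := mem_filter.1 (mem_coe.1 hq)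
      have h3 := hV _ h1
      have h3' := hV _ h1'
      unfold Val at h3 h3'
      simp only at h2 h3 h2' h3' hpq
      by_contra hne
      have hne1 : ¬ (a = a' ∧ b = b' ∧ x = x' ∧ y = y') := by
        intro he
        apply hne
        simpa [Prod.mk.injEq] using he
      have hx : x = x' ∧ y = y' ∧ min a (2 * k - b) = min a' (2 * k - b') := by omega
      have e1 := str hS h1 h1' hne1
      have e2 := str hS h1' h1 (by omega)
      omega
  rw [card_range] at h
  exact h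

theorem two_mid (k : ℕ) (hk : 1 ≤ k) (S : Finset Q)
    (hS : Strong S) (hu : ((k, k, 0, 1) : Q) ∈ S) (hv : ((k, k, 1, 2) : Q) ∈ S)
    {a b x y : ℕ} (h1 : ((a, b, x, y) : Q) ∈ S) (hab : a ≤ b) (hb : b ≤ 2 * k) (hxy : x < y)
    (hy : y ≤ 2) (hj : min a (2 * k - b) = k - 1) : a + 1 = k ∧ b = k + 1 := by
  have hlow : ¬ b ≤ k := by
    intro hbk
    have h5 : (x = 0 ∧ y = 1) ∨ y = 2 := by omega
    rcases h5 with ⟨rfl, rfl⟩ | rfl
    · have f1 := str hS h1 hu (by omega) (by omega) hbk le_rfl le_rfl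
      omega
    · have f1 := str hS h1 hv (by omega) (by omega) hbk (by omega) le_rfl
      omega
  have hup : ¬ k ≤ a := by
    intro hka
    have h5 : x = 0 ∨ (x = 1 ∧ y = 2) := by omega
    rcases h5 with rfl | ⟨rfl, rfl⟩
    · have f1 := str hS hu h1 (by omega) hka (by omega) le_rfl (by omega)
      omega
    · have f1 := str hS hv h1 (by omega) hka (by omega) le_rfl le_rfl
      omega
  omega

/-- rows j = k - 1 if both central units are there -/
theorem two_part5 (k : ℕ) (hk : 1 ≤ k) (S : Finset Q) (hV : ∀ p ∈ S, Val (2 * k) 2 p)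
    (hS : Strong S) (hu : ((k, k, 0, 1) : Q) ∈ S) (hv : ((k, k, 1, 2) : Q) ∈ S) :
    (S.filter (fun p => p.2.2.1 < p.2.2.2 ∧ min p.1 (2 * k - p.2.1) = k - 1)).card ≤ 1 := by
  rw [card_le_one]
  rintro ⟨a, b, x, y⟩ hp ⟨a', b', x', y'⟩ hq
  obtain ⟨h1, h2⟩ := mem_filter.1 hp
  obtain ⟨h1', h2'⟩ := mem_filter.1 hq
  have h3 := hV _ h1
  have h3' := hV _ h1'
  unfold Val at h3 h3'
  simp only at h2 h3 h2' h3'
  obtain ⟨g1, g2⟩ := two_mid k hk S hS hu hv h1 h3.1 h3.2.1 h2.1 h3.2.2.2.1 h2.2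
  obtain ⟨g1', g2'⟩ := two_mid k hk S hS hu hv h1' h3'.1 h3'.2.1 h2'.1 h3'.2.2.2.1 h2'.2
  by_contra hne
  have hne1 : ¬ (a = a' ∧ b = b' ∧ x = x' ∧ y = y') := by
    intro he
    apply hne
    simpa [Prod.mk.injEq] using he
  have h5 : (x ≤ x' ∧ y ≤ y') ∨ (x' ≤ x ∧ y' ≤ y) := by omega
  rcases h5 with ⟨h5, h6⟩ | ⟨h5, h6⟩
  · have := str hS h1 h1' hne1 (by omega) (by omega) h5 h6
    omega
  · have := str hS h1' h1 (by omega) (by omega) (by omega) h5 h6
    omega

theorem two : S_two := by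
  classical
  intro k hk S hV hS
  -- the four parts
  have hsplit1 := card_filter_add_card_filter_not (s := S) (fun p : Q => p.2.2.1 = p.2.2.2)
  have hsplit2 := card_filter_add_card_filter_not
    (s := S.filter (fun p : Q => p.2.2.1 = p.2.2.2)) (fun p : Q => p.2.2.1 ≠ 1 ∨ p.2.1 = p.1 + 1)
  rw [filter_filter, filter_filter] at hsplit2
  have h2 := two_part2 k S hV hS
  have h3 := two_part3 k S hV hS
  -- nondegenerate J
  have hsplit3 := card_filter_add_card_filter_not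
    (s := S.filter (fun p : Q => ¬ p.2.2.1 = p.2.2.2)) (fun p : Q => min p.1 (2 * k - p.2.1) < k)
  rw [filter_filter, filter_filter] at hsplit3
  have e1 : S.filter (fun p : Q => ¬ p.2.2.1 = p.2.2.2 ∧ min p.1 (2 * k - p.2.1) < k) =
      S.filter (fun p : Q => p.2.2.1 < p.2.2.2 ∧ min p.1 (2 * k - p.2.1) < k) := by
    apply filter_congr
    rintro ⟨a, b, x, y⟩ hp
    have h3 := hV _ hp
    unfold Val at h3
    simp only at h3 ⊢
    omega
  rw [e1] at hsplit3
  have hI : ∀ p ∈ S.filter (fun p : Q => ¬ p.2.2.1 = p.2.2.2 ∧ ¬ min p.1 (2 * k - p.2.1) < k),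
      p ∈ S ∧ (p = (k, k, 0, 1) ∨ p = (k, k, 0, 2) ∨ p = (k, k, 1, 2)) := by
    rintro ⟨a, b, x, y⟩ hp
    obtain ⟨h1, h2⟩ := mem_filter.1 hp
    have h3 := hV _ h1
    unfold Val at h3
    simp only at h2 h3
    refine ⟨h1, ?_⟩
    simp only [Prod.mk.injEq]
    omega
  by_cases hboth : ((k, k, 0, 1) : Q) ∈ S ∧ ((k, k, 1, 2) : Q) ∈ S
  · obtain ⟨hu, hv⟩ := hboth
    have h5 := two_part5 k hk S hV hS hu hv
    have h1 := two_part1 k (k - 1) (by omega) S hV hS
    have hsub : (S.filter (fun p => p.2.2.1 < p.2.2.2 ∧ min p.1 (2 * k - p.2.1) < k)).card ≤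
        (S.filter (fun p => p.2.2.1 < p.2.2.2 ∧ min p.1 (2 * k - p.2.1) < k - 1)).card +
        (S.filter (fun p => p.2.2.1 < p.2.2.2 ∧ min p.1 (2 * k - p.2.1) = k - 1)).card := by
      refine le_trans (card_le_card ?_) (card_union_le _ _)
      intro p hp
      rw [mem_union, mem_filter, mem_filter]
      obtain ⟨h1, h2⟩ := mem_filter.1 hp
      rcases Nat.lt_or_ge (min p.1 (2 * k - p.2.1)) (k - 1) with h | h
      · exact Or.inl ⟨h1, h2.1, h⟩
      · exact Or.inr ⟨h1, h2.1, by omega⟩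
    have h4 : (S.filter (fun p : Q => ¬ p.2.2.1 = p.2.2.2 ∧
        ¬ min p.1 (2 * k - p.2.1) < k)).card ≤ 2 := by
      refine le_trans (card_le_card (t := {((k, k, 0, 1) : Q), (k, k, 1, 2)}) ?_) card_le_two
      intro p hp
      obtain ⟨h6, h7⟩ := hI p hp
      rw [mem_insert, mem_singleton]
      rcases h7 with h7 | h7 | h7
      · exact Or.inl h7
      · exfalso
        rw [h7] at h6
        have := str hS hu h6 (by omega) le_rfl le_rfl le_rfl (by omega)
        omega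
      · exact Or.inr h7
    omega
  · have h1 := two_part1 k k le_rfl S hV hS
    have h4 : (S.filter (fun p : Q => ¬ p.2.2.1 = p.2.2.2 ∧
        ¬ min p.1 (2 * k - p.2.1) < k)).card ≤ 1 := by
      rw [card_le_one]
      intro p hp q hq
      obtain ⟨h6, h7⟩ := hI p hp
      obtain ⟨h8, h9⟩ := hI q hq
      rcases h7 with rfl | rfl | rfl <;> rcases h9 with rfl | rfl | rfl
      · rfl
      · exfalso
        have := str hS h6 h8 (by omega) le_rfl le_rfl le_rfl (by omega)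
        omega
      · exact absurd ⟨h6, h8⟩ hboth
      · exfalso
        have := str hS h8 h6 (by omega) le_rfl le_rfl le_rfl (by omega)
        omega
      · rfl
      · exfalso
        have := str hS h6 h8 (by omega) le_rfl le_rfl (by omega) le_rfl
        omega
      · exact absurd ⟨h8, h6⟩ hboth
      · exfalso
        have := str hS h8 h6 (by omega) le_rfl le_rfl (by omega) le_rfl
        omega
      · rfl
    omega

end Pool.Agent.Q56.TF
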